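import Pool.Agent.H7.Online.Rank

/-!
The on-line colouring algorithm for graphs of bounded merging rank without long induced paths.
-/

namespace H7.Online

/-- algorithms: the colour given to the vertex `v` of the part of `G` on the set `S` -/
abbrev SA : Type := SimpleGraph ℕ → Set ℕ → ℕ → ℕ

/-- the part of `G` on `S` and the part of `G'` on `S'` look the same up to time `v` -/
def Agr (G G' : SimpleGraph ℕ) (S S' : Set ℕ) (v : ℕ) : Prop :=
  (∀ i ≤ v, (i ∈ S ↔ i ∈ S')) ∧ ∀ i ∈ S, ∀ j ∈ S, i ≤ v → j ≤ v → (G.Adj i j ↔ G'.Adj i j)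

/-- the colour of `v` depends only on the graph up to time `v` -/
def Loc (A : SA) : Prop := ∀ G G' S S' v, v ∈ S → Agr G G' S S' v → A G S v = A G' S' v

/-- adjacent vertices get different colours -/
def Prp (A : SA) : Prop := ∀ G S u v, u ∈ S → v ∈ S → u < v → G.Adj u v → A G S u ≠ A G S v

/-- the vertices of `S` up to time `v` -/
def Up (S : Set ℕ) (v : ℕ) : Set ℕ := {i | i ∈ S ∧ i ≤ v}

/-- the component of `v` at time `v` -/
def Kc (G : SimpleGraph ℕ) (S : Set ℕ) (v : ℕ) : Set ℕ := comp G (Up S v) v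

theorem Up_mono {S S' : Set ℕ} {v v' : ℕ} (hS : S ⊆ S') (hv : v ≤ v') : Up S v ⊆ Up S' v' :=
  fun _ hi => ⟨hS hi.1, hi.2.trans hv⟩

theorem mem_Up {S : Set ℕ} {v : ℕ} (hv : v ∈ S) : v ∈ Up S v := ⟨hv, le_rfl⟩

theorem mem_Kc (G : SimpleGraph ℕ) (S : Set ℕ) (v : ℕ) : v ∈ Kc G S v := mem_comp_self _ _

theorem Kc_sub {G : SimpleGraph ℕ} {S : Set ℕ} {v : ℕ} (hv : v ∈ S) : Kc G S v ⊆ Up S v :=
  comp_subset (mem_Up hv)

theorem conn_Kc {G : SimpleGraph ℕ} {S : Set ℕ} {v : ℕ} (hv : v ∈ S) : Conn G (Kc G S v) :=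
  conn_comp (mem_Up hv)

theorem Agr.symm {G G' : SimpleGraph ℕ} {S S' : Set ℕ} {v : ℕ} (h : Agr G G' S S' v) :
    Agr G' G S' S v :=
  ⟨fun i hi => (h.1 i hi).symm, fun i hi j hj hiv hjv =>
    (h.2 i ((h.1 i hiv).mpr hi) j ((h.1 j hjv).mpr hj) hiv hjv).symm⟩

theorem Agr.le {G G' : SimpleGraph ℕ} {S S' : Set ℕ} {v u : ℕ} (h : Agr G G' S S' v)
    (hu : u ≤ v) : Agr G G' S S' u :=
  ⟨fun i hi => h.1 i (hi.trans hu), fun i hi j hj hiv hjv =>
    h.2 i hi j hj (hiv.trans hu) (hjv.trans hu)⟩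

theorem Kc_congr_sub {G G' : SimpleGraph ℕ} {S S' : Set ℕ} {v : ℕ} (hv : v ∈ S)
    (h : Agr G G' S S' v) : Kc G S v ⊆ Kc G' S' v := by
  have key : ∀ y, Relation.ReflTransGen (fun u w => G.Adj u w ∧ w ∈ Up S v) v y →
      y ∈ Up S v ∧ y ∈ Kc G' S' v := by
    intro y hy
    induction hy with
    | refl => exact ⟨mem_Up hv, mem_Kc _ _ _⟩
    | tail _ h2 ih =>
      refine ⟨h2.2, comp_step ih.2 ?_ ?_⟩
      · exact (h.2 _ ih.1.1 _ h2.2.1 ih.1.2 h2.2.2).mp h2.1
      · exact ⟨(h.1 _ h2.2.2).mp h2.2.1, h2.2.2⟩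
  intro y hy
  exact (key y hy).2

theorem Kc_congr {G G' : SimpleGraph ℕ} {S S' : Set ℕ} {v : ℕ} (hv : v ∈ S)
    (h : Agr G G' S S' v) : Kc G S v = Kc G' S' v :=
  Set.Subset.antisymm (Kc_congr_sub hv h) (Kc_congr_sub ((h.1 v le_rfl).mp hv) h.symm)

theorem Conn_congr {G G' : SimpleGraph ℕ} {s : Set ℕ}
    (h : ∀ i ∈ s, ∀ j ∈ s, (G.Adj i j ↔ G'.Adj i j)) (hs : Conn G s) : Conn G' s := by
  refine ⟨hs.1, ?_⟩
  intro a ha b hb
  have key : ∀ b, Relation.ReflTransGen (fun u w => G.Adj u w ∧ w ∈ s) a b →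
      b ∈ s ∧ Relation.ReflTransGen (fun u w => G'.Adj u w ∧ w ∈ s) a b := by
    intro b hb
    induction hb with
    | refl => exact ⟨ha, Relation.ReflTransGen.refl⟩
    | tail _ h2 ih => exact ⟨h2.2, ih.2.tail ⟨(h _ ih.1 _ h2.2).mp h2.1, h2.2⟩⟩
  exact (key b (hs.2 a ha b hb)).2

theorem Rk_congr {G G' : SimpleGraph ℕ} {r : ℕ} : ∀ {s : Set ℕ},
    (∀ i ∈ s, ∀ j ∈ s, (G.Adj i j ↔ G'.Adj i j)) → Rk G r s → Rk G' r s := by
  induction r with
  | zero => intro s h hs; exact Conn_congr h hs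
  | succ r ih =>
    rintro s h ⟨hc, s1, s2, h1, h2, h3, h4, h5⟩
    refine ⟨Conn_congr h hc, s1, s2, h1, h2, ?_, ih (fun i hi j hj => h i (h1 hi) j (h1 hj)) h4,
      ih (fun i hi j hj => h i (h2 hi) j (h2 hj)) h5⟩
    intro a ha b hb
    exact ⟨(h3 a ha b hb).1, fun h' => (h3 a ha b hb).2 ((h a (h1 ha) b (h2 hb)).mpr h')⟩

theorem RkKc_congr {G G' : SimpleGraph ℕ} {S S' : Set ℕ} {v r : ℕ} (hv : v ∈ S)
    (h : Agr G G' S S' v) : Rk G r (Kc G S v) ↔ Rk G' r (Kc G' S' v) := by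
  have hadj : ∀ i ∈ Kc G S v, ∀ j ∈ Kc G S v, (G.Adj i j ↔ G'.Adj i j) := by
    intro i hi j hj
    have h1 := Kc_sub hv hi
    have h2 := Kc_sub hv hj
    exact h.2 i h1.1 j h2.1 h1.2 h2.2
  rw [← Kc_congr hv h]
  exact ⟨Rk_congr hadj, Rk_congr (fun i hi j hj => (hadj i hi j hj).symm)⟩

theorem Kc_time {G : SimpleGraph ℕ} {S : Set ℕ} {u v : ℕ} (hv : v ∈ S)
    (hu : u ∈ Kc G S v) : Kc G S u ⊆ Kc G S v := by
  have huv : u ≤ v := (Kc_sub hv hu).2
  intro y hy
  exact Relation.ReflTransGen.trans hu (reach_mono (Up_mono subset_rfl huv) hy)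

theorem Kc_amb {G : SimpleGraph ℕ} {S S' : Set ℕ} {v : ℕ} (hS : S ⊆ S') :
    Kc G S v ⊆ Kc G S' v := fun _ hy => reach_mono (Up_mono hS le_rfl) hy

theorem Rk_time {G : SimpleGraph ℕ} {S : Set ℕ} {u v r : ℕ} (hv : v ∈ S)
    (hu : u ∈ Kc G S v) (h : Rk G r (Kc G S u)) : Rk G r (Kc G S v) :=
  h.mono (Kc_time hv hu) (conn_Kc hv)

theorem Rk_amb {G : SimpleGraph ℕ} {S S' : Set ℕ} {v r : ℕ} (hS : S ⊆ S') (hv : v ∈ S)
    (h : Rk G r (Kc G S v)) : Rk G r (Kc G S' v) :=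
  h.mono (Kc_amb hS) (conn_Kc (hS hv))

/-- two ripe vertices of a component of rank `ρ` -/
theorem uniq {G : SimpleGraph ℕ} {S : Set ℕ} {u v m ρ : ℕ} (hv : v ∈ S)
    (hρ : ¬ Rk G (ρ + 1) (Kc G S v)) (hu : u ∈ Kc G S v) (hm : m ∈ Kc G S v) (hmu : m ≤ u)
    (hRu : Rk G ρ (Kc G S u)) (hRm : Rk G ρ (Kc G S m)) : m ∈ Kc G S u := by
  by_contra hcon
  apply hρ
  have huv : u ≤ v := (Kc_sub hv hu).2
  have huS : u ∈ S := (Kc_sub hv hu).1
  have hmS : m ∈ S := (Kc_sub hv hm).1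
  have hmU : m ∈ Up S u := ⟨hmS, hmu⟩
  have h1 : Kc G S m ⊆ comp G (Up S u) m := fun y hy => reach_mono (Up_mono subset_rfl hmu) hy
  have h2 : comp G (Up S u) m ⊆ Kc G S v := fun y hy =>
    Relation.ReflTransGen.trans hm (reach_mono (Up_mono subset_rfl huv) hy)
  refine ⟨conn_Kc hv, Kc G S u, comp G (Up S u) m, Kc_time hv hu, h2, ?_, hRu,
    hRm.mono h1 (conn_comp hmU)⟩
  intro a ha b hb
  have hbU : b ∈ Up S u := comp_subset hmU hb
  have hb' : Relation.ReflTransGen (fun u' w => G.Adj u' w ∧ w ∈ Up S u) b m := reach_symm hmU hb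
  constructor
  · rintro rfl
    exact hcon (Relation.ReflTransGen.trans ha hb')
  · intro hab
    exact hcon (Relation.ReflTransGen.trans (comp_step ha hab hbU) hb')

/-- the time at which the component of `v` became ripe -/
noncomputable def fst' (G : SimpleGraph ℕ) (ρ : ℕ) (S : Set ℕ) (v : ℕ) : ℕ :=
  sInf {m | m ∈ Kc G S v ∧ Rk G ρ (Kc G S m)}

theorem fst'_mem {G : SimpleGraph ℕ} {ρ : ℕ} {S : Set ℕ} {v : ℕ} (h : Rk G ρ (Kc G S v)) :
    fst' G ρ S v ∈ Kc G S v ∧ Rk G ρ (Kc G S (fst' G ρ S v)) :=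
  Nat.sInf_mem (s := {m | m ∈ Kc G S v ∧ Rk G ρ (Kc G S m)}) ⟨v, mem_Kc G S v, h⟩

theorem fst'_le {G : SimpleGraph ℕ} {ρ : ℕ} {S : Set ℕ} {v m : ℕ} (h1 : m ∈ Kc G S v)
    (h2 : Rk G ρ (Kc G S m)) : fst' G ρ S v ≤ m :=
  Nat.sInf_le (s := {m | m ∈ Kc G S v ∧ Rk G ρ (Kc G S m)}) ⟨h1, h2⟩

theorem fst'_eq {G : SimpleGraph ℕ} {ρ : ℕ} {S : Set ℕ} {u v : ℕ} (hv : v ∈ S)
    (hu : u ∈ Kc G S v) (hρ : ¬ Rk G (ρ + 1) (Kc G S v)) (hRu : Rk G ρ (Kc G S u)) :
    fst' G ρ S u = fst' G ρ S v := by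
  have hRv := Rk_time hv hu hRu
  apply le_antisymm
  · obtain ⟨h1, h2⟩ := fst'_mem hRv
    exact fst'_le (uniq hv hρ hu h1 (fst'_le hu hRu) hRu h2) h2
  · obtain ⟨h1, h2⟩ := fst'_mem hRu
    exact fst'_le (Kc_time hv hu h1) h2

theorem fst'_congr {G G' : SimpleGraph ℕ} {S S' : Set ℕ} {v ρ : ℕ} (hv : v ∈ S)
    (h : Agr G G' S S' v) : fst' G ρ S v = fst' G' ρ S' v := by
  unfold fst'
  congr 1
  ext m
  simp only [Set.mem_ofPred_eq]
  rw [← Kc_congr hv h]
  constructor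
  · rintro ⟨h1, h2⟩
    have h3 := Kc_sub hv h1
    exact ⟨h1, (RkKc_congr h3.1 (h.le h3.2)).mp h2⟩
  · rintro ⟨h1, h2⟩
    have h3 := Kc_sub hv h1
    exact ⟨h1, (RkKc_congr h3.1 (h.le h3.2)).mpr h2⟩

/-- the part of `S` outside the closed neighbourhood of `y` -/
def rem' (G : SimpleGraph ℕ) (S : Set ℕ) (y : ℕ) : Set ℕ := {u | u ∈ S ∧ u ≠ y ∧ ¬ G.Adj y u}

theorem rem'_sub {G : SimpleGraph ℕ} {S : Set ℕ} {y : ℕ} : rem' G S y ⊆ S := fun _ h => h.1

/-- candidates for the next vertex of the path -/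
def pkSet (G : SimpleGraph ℕ) (S' S : Set ℕ) (w b : ℕ) : Set ℕ :=
  {y | y ∈ Kc G S' b ∧ G.Adj w y ∧ Touch G y (Kc G S b)}

open Classical in
/-- the next vertex of the path -/
noncomputable def pk (G : SimpleGraph ℕ) (S' S : Set ℕ) (w b : ℕ) : ℕ :=
  if (pkSet G S' S w b).Nonempty then sInf (pkSet G S' S w b) else b

theorem pk_mem {G : SimpleGraph ℕ} {S' S : Set ℕ} {w b : ℕ} (h : (pkSet G S' S w b).Nonempty) :
    pk G S' S w b ∈ pkSet G S' S w b := by
  unfold pk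
  rw [if_pos h]
  exact Nat.sInf_mem h

theorem pk_sub {G : SimpleGraph ℕ} {S' S : Set ℕ} {w b : ℕ} (hb : b ∈ S') :
    pk G S' S w b ∈ S' ∧ pk G S' S w b ≤ b := by
  by_cases h : (pkSet G S' S w b).Nonempty
  · exact Kc_sub hb (pk_mem h).1
  · unfold pk
    rw [if_neg h]
    exact ⟨hb, le_rfl⟩

theorem pk_congr {G G' : SimpleGraph ℕ} {S T S' T' : Set ℕ} {w b : ℕ} (hb : b ∈ S')
    (hb' : b ∈ S) (h1 : Agr G G' S' T' b) (h2 : Agr G G' S T b) (hSS : S ⊆ S')
    (hw : ∀ i ∈ S', i ≤ b → (G.Adj w i ↔ G'.Adj w i)) : pk G S' S w b = pk G' T' T w b := by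
  have hset : pkSet G S' S w b = pkSet G' T' T w b := by
    ext y
    unfold pkSet
    simp only [Set.mem_ofPred_eq]
    rw [← Kc_congr hb h1, ← Kc_congr hb' h2]
    constructor
    · rintro ⟨e1, e2, z, hz, e3⟩
      have e4 := Kc_sub hb e1
      have e5 := Kc_sub hb' hz
      exact ⟨e1, (hw y e4.1 e4.2).mp e2, z, hz,
        (h1.2 y e4.1 z (hSS e5.1) e4.2 e5.2).mp e3⟩
    · rintro ⟨e1, e2, z, hz, e3⟩
      have e4 := Kc_sub hb e1
      have e5 := Kc_sub hb' hz
      exact ⟨e1, (hw y e4.1 e4.2).mpr e2, z, hz,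
        (h1.2 y e4.1 z (hSS e5.1) e4.2 e5.2).mpr e3⟩
  unfold pk
  rw [hset]

open Classical in
/-- the colouring of the vertices of rank exactly `ρ` -/
noncomputable def Cl (A1 A2 : SA) (ρ : ℕ) (G : SimpleGraph ℕ) : ℕ → Set ℕ → ℕ → ℕ → ℕ
  | 0, _, _, v => 4 * (v + 1) + 3
  | l + 1, S, y, v =>
    if v = y then 3
    else if G.Adj y v then 4 * A1 G {u | u ∈ S ∧ G.Adj y u} v
    else if Rk G ρ (Kc G (rem' G S y) v) then
      4 * Cl A1 A2 ρ G l (rem' G S y) (pk G S (rem' G S y) y (fst' G ρ (rem' G S y) v)) v + 2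
    else 4 * A2 G (rem' G S y) v + 1

theorem Cl_congr {A1 A2 : SA} (hA1 : Loc A1) (hA2 : Loc A2) {ρ : ℕ} {G G' : SimpleGraph ℕ} :
    ∀ (l : ℕ) (S S' : Set ℕ) (y v : ℕ), v ∈ S → Agr G G' S S' v → y ≤ v →
      (∀ i ∈ S, i ≤ v → (G.Adj y i ↔ G'.Adj y i)) →
      Cl A1 A2 ρ G l S y v = Cl A1 A2 ρ G' l S' y v := by
  classical
  intro l
  induction l with
  | zero => intro S S' y v _ _ _ _; rfl
  | succ l ih =>
    intro S S' y v hv h hyv hy
    have hrem : Agr G G' (rem' G S y) (rem' G' S' y) v := by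
      refine ⟨?_, fun i hi j hj hiv hjv => h.2 i hi.1 j hj.1 hiv hjv⟩
      intro i hi
      constructor
      · rintro ⟨e1, e2, e3⟩
        exact ⟨(h.1 i hi).mp e1, e2, fun h' => e3 ((hy i e1 hi).mpr h')⟩
      · rintro ⟨e1, e2, e3⟩
        have e1' := (h.1 i hi).mpr e1
        exact ⟨e1', e2, fun h' => e3 ((hy i e1' hi).mp h')⟩
    unfold Cl
    by_cases hvy : v = y
    · rw [if_pos hvy, if_pos hvy]
    · rw [if_neg hvy, if_neg hvy]
      by_cases hadj : G.Adj y v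
      · have hadj' : G'.Adj y v := (hy v hv le_rfl).mp hadj
        rw [if_pos hadj, if_pos hadj']
        congr 1
        apply hA1
        · exact ⟨hv, hadj⟩
        · refine ⟨?_, fun i hi j hj hiv hjv => h.2 i hi.1 j hj.1 hiv hjv⟩
          intro i hi
          constructor
          · rintro ⟨e1, e2⟩
            exact ⟨(h.1 i hi).mp e1, (hy i e1 hi).mp e2⟩
          · rintro ⟨e1, e2⟩
            have e1' := (h.1 i hi).mpr e1
            exact ⟨e1', (hy i e1' hi).mpr e2⟩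
      · have hadj' : ¬ G'.Adj y v := fun h' => hadj ((hy v hv le_rfl).mpr h')
        rw [if_neg hadj, if_neg hadj']
        have hvr : v ∈ rem' G S y := ⟨hv, hvy, hadj⟩
        by_cases hR : Rk G ρ (Kc G (rem' G S y) v)
        · have hR' : Rk G' ρ (Kc G' (rem' G' S' y) v) := (RkKc_congr hvr hrem).mp hR
          rw [if_pos hR, if_pos hR', ← fst'_congr hvr hrem]
          obtain ⟨hb1, hb2⟩ := fst'_mem hR
          have hb3 := Kc_sub hvr hb1
          have hpk : pk G S (rem' G S y) y (fst' G ρ (rem' G S y) v) =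
              pk G' S' (rem' G' S' y) y (fst' G ρ (rem' G S y) v) :=
            pk_congr hb3.1.1 hb3.1 (h.le hb3.2) (hrem.le hb3.2) rem'_sub
              (fun i hi hib => hy i hi (hib.trans hb3.2))
          rw [← hpk]
          have hps := pk_sub (G := G) (S := rem' G S y) (w := y) hb3.1.1
          rw [ih (rem' G S y) (rem' G' S' y) _ v hvr hrem (hps.2.trans hb3.2)
            (fun i hi hiv => h.2 _ hps.1 i hi.1 (hps.2.trans hb3.2) hiv)]
        · have hR' : ¬ Rk G' ρ (Kc G' (rem' G' S' y) v) := fun h' => hR ((RkKc_congr hvr hrem).mpr h')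
          rw [if_neg hR, if_neg hR', hA2 _ _ _ _ _ hvr hrem]

theorem Cl_proper {A1 A2 : SA} (hA1 : Prp A1) (hA2 : Prp A2) {ρ : ℕ} {G : SimpleGraph ℕ} :
    ∀ (l : ℕ) (S : Set ℕ) (y u v : ℕ), u ∈ S → v ∈ S → u < v → G.Adj u v →
      ¬ Rk G (ρ + 1) (Kc G S v) → Cl A1 A2 ρ G l S y u ≠ Cl A1 A2 ρ G l S y v := by
  classical
  intro l
  induction l with
  | zero =>
    intro S y u v _ _ huv _ _ h
    unfold Cl at h
    omega
  | succ l ih =>
    intro S y u v hu hv huv hadj hρ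
    unfold Cl
    by_cases hvy : v = y
    · have huy : u ≠ y := by omega
      rw [if_pos hvy, if_neg huy]
      split_ifs <;> omega
    · rw [if_neg hvy]
      by_cases huy : u = y
      · rw [if_pos huy]
        split_ifs <;> omega
      · rw [if_neg huy]
        by_cases hyv : G.Adj y v
        · rw [if_pos hyv]
          by_cases hyu : G.Adj y u
          · rw [if_pos hyu]
            have h1 := hA1 G {u | u ∈ S ∧ G.Adj y u} u v ⟨hu, hyu⟩ ⟨hv, hyv⟩ huv hadj
            omega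
          · rw [if_neg hyu]
            split_ifs <;> omega
        · rw [if_neg hyv]
          by_cases hyu : G.Adj y u
          · rw [if_pos hyu]
            split_ifs <;> omega
          · rw [if_neg hyu]
            have hur : u ∈ rem' G S y := ⟨hu, huy, hyu⟩
            have hvr : v ∈ rem' G S y := ⟨hv, hvy, hyv⟩
            by_cases hRu : Rk G ρ (Kc G (rem' G S y) u)
            · rw [if_pos hRu]
              by_cases hRv : Rk G ρ (Kc G (rem' G S y) v)
              · rw [if_pos hRv]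
                have hρ' : ¬ Rk G (ρ + 1) (Kc G (rem' G S y) v) := fun h' =>
                  hρ (Rk_amb rem'_sub hvr h')
                have huK : u ∈ Kc G (rem' G S y) v :=
                  comp_step (mem_Kc _ _ _) hadj.symm ⟨hur, huv.le⟩
                rw [fst'_eq hvr huK hρ' hRu]
                have h1 := ih (rem' G S y) (pk G S (rem' G S y) y (fst' G ρ (rem' G S y) v)) u v
                  hur hvr huv hadj hρ'
                omega
              · rw [if_neg hRv]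
                omega
            · rw [if_neg hRu]
              by_cases hRv : Rk G ρ (Kc G (rem' G S y) v)
              · rw [if_pos hRv]
                omega
              · rw [if_neg hRv]
                have h1 := hA2 G (rem' G S y) u v hur hvr huv hadj
                omega

/-- the classes of graphs -/
def Cls (n t k : ℕ) (G : SimpleGraph ℕ) (T : Set ℕ) : Prop :=
  ¬ HasPath (G.induce T) n ∧ ¬ HasHalfGraph (G.induce T) t ∧ ¬ HasClique (G.induce T) k

theorem HasPath.map {V W : Type} {G : SimpleGraph V} {H : SimpleGraph W} {n : ℕ} (e : G ↪g H)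
    (h : HasPath G n) : HasPath H n := by
  obtain ⟨p, h1, h2⟩ := h
  exact ⟨fun i => e (p i), fun i j hij => h1 (e.injective hij), fun i j => by
    rw [e.map_adj_iff]; exact h2 i j⟩

theorem HasHalfGraph.map {V W : Type} {G : SimpleGraph V} {H : SimpleGraph W} {n : ℕ}
    (e : G ↪g H) (h : HasHalfGraph G n) : HasHalfGraph H n := by
  obtain ⟨a, b, h1, h2, h3⟩ := h
  exact ⟨fun i => e (a i), fun i => e (b i), fun i j => by rw [e.map_adj_iff]; exact h1 i j,
    fun i j => by rw [e.map_adj_iff]; exact h2 i j, fun i j => by rw [e.map_adj_iff]; exact h3 i j⟩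

theorem HasClique.map {V W : Type} {G : SimpleGraph V} {H : SimpleGraph W} {n : ℕ}
    (e : G ↪g H) (h : HasClique G n) : HasClique H n := by
  obtain ⟨a, h1⟩ := h
  exact ⟨fun i => e (a i), fun i j hij => by rw [e.map_adj_iff]; exact h1 i j hij⟩

/-- inclusion of induced subgraphs -/
def inclT {G : SimpleGraph ℕ} {T T' : Set ℕ} (h : T' ⊆ T) : G.induce T' ↪g G.induce T where
  toFun := fun x => ⟨x.1, h x.2⟩
  inj' := fun x y hxy => by
    have := congrArg Subtype.val hxy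
    exact Subtype.ext this
  map_rel_iff' := Iff.rfl

theorem Cls.mono {n t k : ℕ} {G : SimpleGraph ℕ} {T T' : Set ℕ} (h : Cls n t k G T)
    (hT : T' ⊆ T) : Cls n t k G T' :=
  ⟨fun h' => h.1 (h'.map (inclT hT)), fun h' => h.2.1 (h'.map (inclT hT)),
    fun h' => h.2.2 (h'.map (inclT hT))⟩

theorem Cls.nbr {n t k : ℕ} {G : SimpleGraph ℕ} {T T' : Set ℕ} (h : Cls n t (k + 1) G T)
    {y : ℕ} (hy : y ∈ T) (hT : ∀ u ∈ T', u ∈ T ∧ G.Adj y u) : Cls n t k G T' := by
  have hsub : T' ⊆ T := fun u hu => (hT u hu).1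
  refine ⟨fun h' => h.1 (h'.map (inclT hsub)), fun h' => h.2.1 (h'.map (inclT hsub)), ?_⟩
  rintro ⟨a, ha⟩
  apply h.2.2
  refine ⟨Fin.cons ⟨y, hy⟩ (fun i => ⟨(a i).1, hsub (a i).2⟩), ?_⟩
  intro i j
  refine Fin.cases ?_ (fun i => ?_) i
  · refine Fin.cases ?_ (fun j => ?_) j
    · intro h; exact absurd rfl h
    · intro _
      simp only [Fin.cons_zero, Fin.cons_succ, SimpleGraph.comap_adj, Function.Embedding.subtype_apply]
      exact (hT _ (a j).2).2
  · refine Fin.cases ?_ (fun j => ?_) j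
    · intro _
      simp only [Fin.cons_zero, Fin.cons_succ, SimpleGraph.comap_adj, Function.Embedding.subtype_apply]
      exact (hT _ (a i).2).2.symm
    · intro hij
      simp only [Fin.cons_succ, SimpleGraph.comap_adj, Function.Embedding.subtype_apply]
      have := ha i j (fun h => hij (by rw [h]))
      simpa using this

/-- the bound for the number of colours of `Cl` -/
def Nb (N1 N2 : ℕ) : ℕ → ℕ
  | 0 => 0
  | l + 1 => 4 * N1 + 4 * N2 + 4 * Nb N1 N2 l + 4

theorem Cl_bound {A1 A2 : SA} {n t k ρ N1 N2 : ℕ} {G : SimpleGraph ℕ} {T : Set ℕ}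
    (hT : Cls n t (k + 1) G T)
    (hN1 : ∀ S v, v ∈ S → Cls n t k G (Up S v) → A1 G S v < N1)
    (hN2 : ∀ S v, v ∈ S → Cls n t (k + 1) G (Up S v) → ¬ Rk G ρ (Kc G S v) → A2 G S v < N2) :
    ∀ (l c : ℕ) (S : Set ℕ) (y v : ℕ) (q : ℕ → ℕ), v ∈ S → Up S v ⊆ T → n ≤ c + l + 1 →
      q 0 = y → (∀ j ≤ c, q j ∈ T) →
      (∀ i j, i < j → j ≤ c → q i ≠ q j ∧ (G.Adj (q i) (q j) ↔ j = i + 1)) →
      (∀ j, 1 ≤ j → j ≤ c → ∀ s ∈ S, s ≠ q j ∧ ¬ G.Adj (q j) s) →
      (∀ m ∈ Kc G S v, Rk G ρ (Kc G S m) → y ∈ Kc G S m ∨ Touch G y (Kc G S m)) →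
      ¬ Rk G (ρ + 1) (Kc G S v) →
      Cl A1 A2 ρ G l S y v < Nb N1 N2 l := by
  classical
  intro l
  induction l with
  | zero =>
    intro c S y v q hv hST hn q0 hqT hq1 hq2 hJ hρ
    exfalso
    apply hT.1
    let q' : ℕ → T := fun i => if h : i ≤ c then ⟨q i, hqT i h⟩ else ⟨q 0, hqT 0 (Nat.zero_le _)⟩
    have hq' : ∀ i, i ≤ c → (q' i).1 = q i := fun i hi => by simp only [q', dif_pos hi]
    refine hasPath_of_seq (p := q') (l := c) (by omega) ?_
    intro i j hij hj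
    have h1 := hq1 i j hij hj
    refine ⟨fun h => h1.1 ?_, ?_⟩
    · rw [← hq' i (by omega), ← hq' j hj, h]
    · rw [← h1.2]
      simp only [SimpleGraph.comap_adj, Function.Embedding.subtype_apply]
      rw [hq' i (by omega), hq' j hj]
  | succ l ih =>
    intro c S y v q hv hST hn q0 hqT hq1 hq2 hJ hρ
    have hyT : y ∈ T := q0 ▸ hqT 0 (Nat.zero_le _)
    unfold Cl Nb
    by_cases hvy : v = y
    · rw [if_pos hvy]; omega
    · rw [if_neg hvy]
      by_cases hadj : G.Adj y v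
      · rw [if_pos hadj]
        have := hN1 {u | u ∈ S ∧ G.Adj y u} v ⟨hv, hadj⟩
          (hT.nbr hyT (fun u hu => ⟨hST ⟨hu.1.1, hu.2⟩, hu.1.2⟩))
        omega
      · rw [if_neg hadj]
        have hvr : v ∈ rem' G S y := ⟨hv, hvy, hadj⟩
        by_cases hR : Rk G ρ (Kc G (rem' G S y) v)
        · rw [if_pos hR]
          set S1 := rem' G S y with hS1
          have hS1S : S1 ⊆ S := rem'_sub
          set b := fst' G ρ S1 v with hb
          obtain ⟨hb1, hb2⟩ := fst'_mem hR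
          rw [← hb] at hb1 hb2
          have hb3 := Kc_sub hvr hb1
          have hρ1 : ¬ Rk G (ρ + 1) (Kc G S1 v) := fun h' => hρ (Rk_amb hS1S hvr h')
          have hbK : b ∈ Kc G S v := Kc_amb hS1S hb1
          have hJb := hJ b hbK (Rk_amb hS1S hb3.1 hb2)
          -- the next vertex of the path
          have hne : (pkSet G S S1 y b).Nonempty := by
            have hd : ∃ d ∈ Kc G S b, d ∉ Kc G S1 b := by
              rcases hJb with h | ⟨z, hz, hyz⟩
              · exact ⟨y, h, fun h' => (Kc_sub hb3.1 h').1.2.1 rfl⟩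
              · exact ⟨z, hz, fun h' => (Kc_sub hb3.1 h').1.2.2 hyz⟩
            obtain ⟨d, hd1, hd2⟩ := hd
            obtain ⟨w, hw1, hw2, z, hz, hwz⟩ := boundary (conn_Kc (hS1S hb3.1))
              ⟨b, mem_Kc G S1 b⟩ (Kc_amb hS1S) hd1 hd2
            have hzS := (Kc_sub hb3.1 hz).1
            have hwS := Kc_sub (hS1S hb3.1) hw1
            have hwy : w ≠ y := by
              rintro rfl
              exact hzS.2.2 hwz
            refine ⟨w, hw1, ?_, z, hz, hwz⟩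
            by_contra hcon
            exact hw2 (comp_step hz hwz.symm ⟨⟨hwS.1, hwy, hcon⟩, hwS.2⟩)
          set y1 := pk G S S1 y b with hy1
          have hy1m : y1 ∈ pkSet G S S1 y b := pk_mem hne
          obtain ⟨g1, g2, g3⟩ := hy1m
          have hy1S := Kc_sub (hS1S hb3.1) g1
          have hIH := ih (c + 1) S1 y1 v (fun j => if j = 0 then y1 else q (j - 1)) hvr
            ((Up_mono hS1S le_rfl).trans hST) (by omega) (by simp) ?_ ?_ ?_ ?_ hρ1
          · omega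
          · intro j hj
            split_ifs with h0
            · exact hST ⟨hy1S.1, hy1S.2.trans hb3.2⟩
            · exact hqT _ (by omega)
          · intro i j hij hj
            rw [if_neg (show j ≠ 0 by omega)]
            by_cases hi : i = 0
            · subst hi
              rw [if_pos rfl]
              by_cases hj1 : j = 1
              · subst hj1
                rw [Nat.sub_self, q0]
                exact ⟨g2.ne.symm, by simp [g2.symm]⟩
              · have h := hq2 (j - 1) (by omega) (by omega) y1 hy1S.1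
                refine ⟨h.1, ?_⟩
                constructor
                · intro h'; exact absurd h'.symm h.2
                · intro h'; omega
            · rw [if_neg hi]
              have h := hq1 (i - 1) (j - 1) (by omega) (by omega)
              refine ⟨h.1, h.2.trans ?_⟩
              omega
          · intro j hj1 hj2 s hs
            rw [if_neg (show j ≠ 0 by omega)]
            by_cases hj : j = 1
            · subst hj
              rw [Nat.sub_self, q0]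
              exact ⟨hs.2.1, hs.2.2⟩
            · exact hq2 (j - 1) (by omega) (by omega) s hs.1
          · intro m hm hRm
            right
            have hbm : b ≤ m := fst'_le hm hRm
            have h1 : b ∈ Kc G S1 m := uniq hvr hρ1 hm hb1 hbm hRm hb2
            have hmS : m ∈ S1 := (Kc_sub hvr hm).1
            obtain ⟨z, hz, hyz⟩ := g3
            exact ⟨z, Kc_time hmS h1 hz, hyz⟩
        · rw [if_neg hR]
          have := hN2 (rem' G S y) v hvr (hT.mono ((Up_mono rem'_sub le_rfl).trans hST)) hR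
          omega

open Classical in
/-- the algorithm for the vertices of rank at most `ρ` -/
noncomputable def Alg (A1 A2 : SA) (n ρ : ℕ) : SA := fun G S v =>
  if Rk G (ρ + 1) (Kc G S v) then 3 * v + 2
  else if Rk G ρ (Kc G S v) then 3 * Cl A1 A2 ρ G n S (fst' G ρ S v) v + 1
  else 3 * A2 G S v

theorem Alg_loc {A1 A2 : SA} (hA1 : Loc A1) (hA2 : Loc A2) (n ρ : ℕ) : Loc (Alg A1 A2 n ρ) := by
  classical
  intro G G' S S' v hv h
  unfold Alg
  by_cases h1 : Rk G (ρ + 1) (Kc G S v)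
  · rw [if_pos h1, if_pos ((RkKc_congr hv h).mp h1)]
  · rw [if_neg h1, if_neg (fun h' => h1 ((RkKc_congr hv h).mpr h'))]
    by_cases h2 : Rk G ρ (Kc G S v)
    · rw [if_pos h2, if_pos ((RkKc_congr hv h).mp h2), ← fst'_congr hv h]
      obtain ⟨hb1, _⟩ := fst'_mem h2
      have hb3 := Kc_sub hv hb1
      rw [Cl_congr hA1 hA2 n S S' _ v hv h hb3.2 (fun i hi hiv => h.2 _ hb3.1 i hi hb3.2 hiv)]
    · rw [if_neg h2, if_neg (fun h' => h2 ((RkKc_congr hv h).mpr h')), hA2 _ _ _ _ _ hv h]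

theorem Alg_prp {A1 A2 : SA} (hA1 : Prp A1) (hA2 : Prp A2) (n ρ : ℕ) : Prp (Alg A1 A2 n ρ) := by
  classical
  intro G S u v hu hv huv hadj
  have huK : u ∈ Kc G S v := comp_step (mem_Kc _ _ _) hadj.symm ⟨hu, huv.le⟩
  unfold Alg
  by_cases h1 : Rk G (ρ + 1) (Kc G S v)
  · rw [if_pos h1]
    split_ifs <;> omega
  · rw [if_neg h1, if_neg (fun h' => h1 (Rk_time hv huK h'))]
    by_cases h2 : Rk G ρ (Kc G S v)
    · rw [if_pos h2]
      by_cases h3 : Rk G ρ (Kc G S u)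
      · rw [if_pos h3, fst'_eq hv huK h1 h3]
        have := Cl_proper hA1 hA2 n S (fst' G ρ S v) u v hu hv huv hadj h1
        omega
      · rw [if_neg h3]
        omega
    · rw [if_neg h2, if_neg (fun h' => h2 (Rk_time hv huK h'))]
      have := hA2 G S u v hu hv huv hadj
      omega

theorem Alg_bound {A1 A2 : SA} {n t k ρ N1 N2 : ℕ} {G : SimpleGraph ℕ}
    (hN1 : ∀ S v, v ∈ S → Cls n t k G (Up S v) → A1 G S v < N1)
    (hN2 : ∀ S v, v ∈ S → Cls n t (k + 1) G (Up S v) → ¬ Rk G ρ (Kc G S v) → A2 G S v < N2)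
    (S : Set ℕ) (v : ℕ) (hv : v ∈ S) (hC : Cls n t (k + 1) G (Up S v))
    (hρ : ¬ Rk G (ρ + 1) (Kc G S v)) : Alg A1 A2 n ρ G S v < 3 * N2 + 3 * Nb N1 N2 n + 1 := by
  classical
  unfold Alg
  rw [if_neg hρ]
  by_cases h2 : Rk G ρ (Kc G S v)
  · rw [if_pos h2]
    obtain ⟨hb1, hb2⟩ := fst'_mem h2
    have hb3 := Kc_sub hv hb1
    have := Cl_bound hC hN1 hN2 n 0 S (fst' G ρ S v) v (fun _ => fst' G ρ S v) hv subset_rfl
      (by omega) rfl (fun _ _ => hb3) (fun i j h1 h2 => by omega) (fun j h1 h2 => by omega)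
      (fun m hm hRm => Or.inl (uniq hv hρ hm hb1 (fst'_le hm hRm) hRm hb2)) hρ
    omega
  · rw [if_neg h2]
    have := hN2 S v hv hC h2
    omega

end H7.Online
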