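import Pool.Agent.H7.Online.RankDefs
import Pool.Agent.H85.Blocks.Ramsey

/-!
Connected sets `O j` and vertices `x i` with `x i` touching `O j` exactly when `i ≤ j`: a long
such system contains a long induced path, a large half graph or a large clique.
-/

namespace H7.Online

/-- A shortest path inside a set `U` is an induced path. -/
theorem geodesic {V : Type} {G : SimpleGraph V} {U : Set V} {a b : V} (ha : a ∈ U)
    (h : Relation.ReflTransGen (fun u v => G.Adj u v ∧ v ∈ U) a b) :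
    ∃ (d : ℕ) (p : ℕ → V), p 0 = a ∧ p d = b ∧ (∀ i ≤ d, p i ∈ U) ∧
      (∀ i ≤ d, ∀ j ≤ d, p i = p j → i = j) ∧
      (∀ i ≤ d, ∀ j ≤ d, (G.Adj (p i) (p j) ↔ (i + 1 = j ∨ j + 1 = i))) := by
  classical
  obtain ⟨H, hH⟩ : ∃ H : SimpleGraph U, ∀ u v : U, H.Adj u v ↔ G.Adj u v :=
    ⟨G.induce U, fun u v => by simp⟩
  have hb : ∃ hb : b ∈ U, H.Reachable ⟨a, ha⟩ ⟨b, hb⟩ := by
    induction h with
    | refl => exact ⟨ha, SimpleGraph.Reachable.refl _⟩
    | tail _ hbc ih =>
      obtain ⟨hb, hr⟩ := ih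
      refine ⟨hbc.2, hr.trans (SimpleGraph.Adj.reachable ?_)⟩
      rw [hH]
      exact hbc.1
  obtain ⟨hb, hr⟩ := hb
  obtain ⟨w, hw⟩ := hr.exists_walk_length_eq_dist
  have hd1 : ∀ i ≤ w.length, H.dist ⟨a, ha⟩ (w.getVert i) = i := by
    intro i hi
    have h1 : H.dist ⟨a, ha⟩ (w.getVert i) ≤ i := by
      have := SimpleGraph.dist_le (w.take i)
      rw [SimpleGraph.Walk.take_length] at this
      omega
    have hr1 : H.Reachable ⟨a, ha⟩ (w.getVert i) := (w.take i).reachable
    obtain ⟨q, hq⟩ := hr1.exists_walk_length_eq_dist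
    have h2 := SimpleGraph.dist_le (q.append (w.drop i))
    rw [SimpleGraph.Walk.length_append, SimpleGraph.Walk.drop_length, ← hw] at h2
    omega
  have hadj : ∀ i ≤ w.length, ∀ j ≤ w.length, H.Adj (w.getVert i) (w.getVert j) → j ≤ i + 1 := by
    intro i hi j hj hij
    have hr1 : H.Reachable ⟨a, ha⟩ (w.getVert i) := (w.take i).reachable
    obtain ⟨q, hq⟩ := hr1.exists_walk_length_eq_dist
    have h2 := SimpleGraph.dist_le (q.concat hij)
    rw [SimpleGraph.Walk.length_concat, hq, hd1 i hi, hd1 j hj] at h2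
    exact h2
  refine ⟨w.length, fun i => (w.getVert i : V), ?_, ?_, ?_, ?_, ?_⟩
  · simp
  · simp
  · intro i _
    exact (w.getVert i).2
  · intro i hi j hj hij
    have h1 : w.getVert i = w.getVert j := Subtype.ext hij
    have h2 := hd1 i hi
    rw [h1, hd1 j hj] at h2
    exact h2.symm
  · intro i hi j hj
    change G.Adj (w.getVert i : V) (w.getVert j : V) ↔ _
    rw [← hH]
    constructor
    · intro hij
      have h1 := hadj i hi j hj hij
      have h2 := hadj j hj i hi hij.symm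
      rcases Nat.lt_trichotomy i j with h | h | h
      · left; omega
      · exfalso
        subst h
        exact H.loopless.irrefl _ hij
      · right; omega
    · rintro (h | h)
      · have h1 := w.adj_getVert_succ (i := i) (by omega)
        rwa [h] at h1
      · have h1 := w.adj_getVert_succ (i := j) (by omega)
        rw [h] at h1
        exact h1.symm

/-- a long induced path contains an induced path with `n` vertices -/
theorem hasPath_of {V : Type} {G : SimpleGraph V} {n d : ℕ} (p : ℕ → V)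
    (h1 : ∀ i ≤ d, ∀ j ≤ d, p i = p j → i = j)
    (h2 : ∀ i ≤ d, ∀ j ≤ d, (G.Adj (p i) (p j) ↔ (i + 1 = j ∨ j + 1 = i)))
    (hn : n ≤ d + 1) : HasPath G n := by
  refine ⟨fun i => p i, ?_, ?_⟩
  · intro i j hij
    exact Fin.ext (h1 i (by omega) j (by omega) hij)
  · intro i j
    exact h2 i (by omega) j (by omega)

/-- ascending lists are sublists of `List.range` -/
theorem map_sublist_of_chain {α : Type} (L : List α) (f : ℕ → α)
    (hf : ∀ i, ∀ hi : i < L.length, f i = L[i]) : ∀ (l : List ℕ), l.Pairwise (· < ·) →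
    (∀ i ∈ l, i < L.length) → (l.map f).Sublist L := by
  intro l hl hlt
  have h1 : (List.range L.length).map f = L := by
    apply List.ext_getElem
    · simp
    · intro i h1 h2
      simp [hf i h2]
  have h2 : l.Sublist (List.range L.length) := by
    have h3 : List.Pairwise (· < ·) (List.range L.length) := List.pairwise_lt_range
    have h4 : l ⊆ List.range L.length := fun i hi => List.mem_range.mpr (hlt i hi)
    have h5 : l.Nodup := hl.imp (fun h => h.ne)
    exact List.sublist_of_subperm_of_pairwise (h5.subperm h4) hl h3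
  rw [← h1]
  exact h2.map f

/-- The last case: no vertex `x r` sees the interior of a path joining two other `x`'s. -/
theorem core_path {V : Type} {G : SimpleGraph V} {n N : ℕ} (hN : 2 * n + 6 ≤ N)
    (x : ℕ → V) (O : ℕ → Set V) (S : ℕ → ℕ → ℕ → ℕ → V) (L : ℕ → ℕ → ℕ → ℕ)
    (hx : ∀ i < N, ∀ j < N, x i ∉ O j)
    (hxx : ∀ i < N, ∀ j < N, i < j → x i ≠ x j)
    (hanti : ∀ i < N, ∀ j < N, i ≠ j → Anti G (O i) (O j))
    (hS0 : ∀ a b d, a < b → b ≤ d → d < N → S a b d 0 = x a)
    (hS1 : ∀ a b d, a < b → b ≤ d → d < N → S a b d (L a b d) = x b)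
    (hSO : ∀ a b d, a < b → b ≤ d → d < N → ∀ p, 0 < p → p < L a b d → S a b d p ∈ O d)
    (hSadj : ∀ a b d, a < b → b ≤ d → d < N → ∀ p, p < L a b d →
      G.Adj (S a b d p) (S a b d (p + 1)))
    (hA : ∀ a b, a < b → b + 3 < N → ¬ G.Adj (x a) (x b))
    (hB1 : ∀ a b c d, a < b → b < c → c < d → d + 1 < N → ∀ p, 0 < p → p < L a b d →
      ¬ G.Adj (x c) (S a b d p))
    (hB3 : ∀ a b c d, a < b → b < c → c < d → d + 1 < N → ∀ p, 0 < p → p < L b c d →
      ¬ G.Adj (x a) (S b c d p)) : HasPath G n := by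
  classical
  -- the vertices `x 0, …, x n` and the paths `S l (l+1) (n+1+l)` for `l < n`
  set Lv : V → ℕ → Prop := fun u c =>
    (∃ r, r ≤ n ∧ u = x r ∧ c = 2 * r) ∨
    (∃ l p, l < n ∧ 0 < p ∧ p < L l (l + 1) (n + 1 + l) ∧ u = S l (l + 1) (n + 1 + l) p ∧
      c = 2 * l + 1) with hLv
  have hint : ∀ l p, l < n → 0 < p → p < L l (l + 1) (n + 1 + l) →
      S l (l + 1) (n + 1 + l) p ∈ O (n + 1 + l) := fun l p hl h0 h1 =>
    hSO l (l + 1) (n + 1 + l) (by omega) (by omega) (by omega) p h0 h1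
  have hxr : ∀ r r', r ≤ n → r' ≤ n → x r = x r' → r = r' := by
    intro r r' hr hr' h
    rcases Nat.lt_trichotomy r r' with h1 | h1 | h1
    · exact absurd h (hxx r (by omega) r' (by omega) h1)
    · exact h1
    · exact absurd h.symm (hxx r' (by omega) r (by omega) h1)
  have hxA : ∀ r r', r ≤ n → r' ≤ n → ¬ G.Adj (x r) (x r') := by
    intro r r' hr hr' h
    rcases Nat.lt_trichotomy r r' with h1 | h1 | h1
    · exact hA r r' h1 (by omega) h
    · subst h1; exact G.loopless.irrefl _ h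
    · exact hA r' r h1 (by omega) h.symm
  -- a vertex `x r` can only see the interior of the paths number `r - 1` and `r`
  have hxS : ∀ r l p, r ≤ n → l < n → 0 < p → p < L l (l + 1) (n + 1 + l) →
      G.Adj (x r) (S l (l + 1) (n + 1 + l) p) → r = l ∨ r = l + 1 := by
    intro r l p hr hl h0 h1 h
    by_contra hcon
    push Not at hcon
    rcases Nat.lt_trichotomy r l with h2 | h2 | h2
    · exact hB3 r l (l + 1) (n + 1 + l) h2 (by omega) (by omega) (by omega) p h0 h1 h
    · exact hcon.1 h2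
    · exact hB1 l (l + 1) r (n + 1 + l) (by omega) (by omega) (by omega) (by omega) p h0 h1 h
  have hstep : ∀ u v c c', Lv u c → Lv v c' → G.Adj u v → c' ≤ c + 1 := by
    rintro u v c c' (⟨r, hr, hu, hc⟩ | ⟨l, p, hl, hp0, hp1, hu, hc⟩)
      (⟨r', hr', hv, hc'⟩ | ⟨l', p', hl', hp0', hp1', hv, hc'⟩) h
    · exfalso
      rw [hu, hv] at h
      exact hxA r r' hr hr' h
    · rw [hu, hv] at h
      rcases hxS r l' p' hr hl' hp0' hp1' h with h1 | h1 <;> omega
    · rw [hu, hv] at h
      rcases hxS r' l p hr' hl hp0 hp1 h.symm with h1 | h1 <;> omega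
    · by_cases hll : l = l'
      · subst hll; omega
      · exfalso
        rw [hu, hv] at h
        exact (hanti (n + 1 + l) (by omega) (n + 1 + l') (by omega) (by omega) _
          (hint l p hl hp0 hp1) _ (hint l' p' hl' hp0' hp1')).2 h
  set U : Set V := {u | ∃ c, Lv u c} with hU
  have hxU : ∀ r ≤ n, x r ∈ U := fun r hr => ⟨2 * r, Or.inl ⟨r, hr, rfl, rfl⟩⟩
  -- `x 0` and `x r` are joined inside `U`
  have hconn : ∀ r ≤ n, Relation.ReflTransGen (fun u v => G.Adj u v ∧ v ∈ U) (x 0) (x r) := by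
    intro r
    induction r with
    | zero => intro _; exact Relation.ReflTransGen.refl
    | succ r ih =>
      intro hr
      have h1 := ih (by omega)
      have hSU : ∀ p ≤ L r (r + 1) (n + 1 + r), S r (r + 1) (n + 1 + r) p ∈ U := by
        intro p hp
        rcases Nat.eq_zero_or_pos p with h0 | h0
        · subst h0
          rw [hS0 r (r + 1) (n + 1 + r) (by omega) (by omega) (by omega)]
          exact hxU r (by omega)
        · rcases Nat.lt_or_ge p (L r (r + 1) (n + 1 + r)) with h2 | h2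
          · exact ⟨2 * r + 1, Or.inr ⟨r, p, by omega, h0, h2, rfl, rfl⟩⟩
          · have h3 : p = L r (r + 1) (n + 1 + r) := le_antisymm hp h2
            rw [h3, hS1 r (r + 1) (n + 1 + r) (by omega) (by omega) (by omega)]
            exact hxU (r + 1) hr
      have h2 : ∀ p ≤ L r (r + 1) (n + 1 + r),
          Relation.ReflTransGen (fun u v => G.Adj u v ∧ v ∈ U) (x r)
            (S r (r + 1) (n + 1 + r) p) := by
        intro p
        induction p with
        | zero =>
          intro _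
          rw [hS0 r (r + 1) (n + 1 + r) (by omega) (by omega) (by omega)]
        | succ p ihp =>
          intro hp
          exact (ihp (by omega)).tail
            ⟨hSadj r (r + 1) (n + 1 + r) (by omega) (by omega) (by omega) p (by omega), hSU _ hp⟩
      have h3 := h2 _ (le_refl _)
      rw [hS1 r (r + 1) (n + 1 + r) (by omega) (by omega) (by omega)] at h3
      exact h1.trans h3
  obtain ⟨d, p, hp0, hpd, hpU, hpi, hpa⟩ := geodesic (hxU 0 (by omega)) (hconn n (le_refl _))
  have hlev : ∀ i ≤ d, ∀ c, Lv (p i) c → c ≤ i := by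
    intro i
    induction i with
    | zero =>
      intro _ c hc
      rw [hp0] at hc
      rcases hc with ⟨r, hr, hu, hc⟩ | ⟨l, q, hl, hq0, hq1, hu, hc⟩
      · have := hxr 0 r (by omega) hr hu
        omega
      · exfalso
        refine hx 0 (by omega) (n + 1 + l) (by omega) ?_
        rw [hu]
        exact hint l q hl hq0 hq1
    | succ i ih =>
      intro hi c hc
      obtain ⟨c', hc'⟩ := hpU i (by omega)
      have h1 := ih (by omega) c' hc'
      have h2 := hstep _ _ _ _ hc' hc ((hpa i (by omega) (i + 1) hi).mpr (Or.inl rfl))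
      omega
  have h1 := hlev d (le_refl _) (2 * n) (by
    rw [hpd]
    exact Or.inl ⟨n, le_refl _, rfl, rfl⟩)
  exact hasPath_of p hpi hpa (by omega)

/-- The homogeneous case. -/
theorem core_hom {V : Type} {G : SimpleGraph V} {n t k N : ℕ}
    (hN : 3 * (t + k) + 2 * n + 20 ≤ N)
    (x : ℕ → V) (O : ℕ → Set V) (S : ℕ → ℕ → ℕ → ℕ → V) (L : ℕ → ℕ → ℕ → ℕ)
    (hx : ∀ i < N, ∀ j < N, x i ∉ O j)
    (hxx : ∀ i < N, ∀ j < N, i < j → x i ≠ x j)
    (hanti : ∀ i < N, ∀ j < N, i ≠ j → Anti G (O i) (O j))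
    (hnt : ∀ i < N, ∀ j < N, j < i → ¬ Touch G (x i) (O j))
    (hS0 : ∀ a b d, a < b → b ≤ d → d < N → S a b d 0 = x a)
    (hS1 : ∀ a b d, a < b → b ≤ d → d < N → S a b d (L a b d) = x b)
    (hSO : ∀ a b d, a < b → b ≤ d → d < N → ∀ p, 0 < p → p < L a b d → S a b d p ∈ O d)
    (hSadj : ∀ a b d, a < b → b ≤ d → d < N → ∀ p, p < L a b d →
      G.Adj (S a b d p) (S a b d (p + 1)))
    (hL : ∀ a b d, a < b → b ≤ d → d < N → L a b d < n)
    (A : Prop) (hA : ∀ a b, a < b → b + 3 < N → (G.Adj (x a) (x b) ↔ A))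
    (B1 : ℕ → Prop) (hB1 : ∀ a b c d, a < b → b < c → c < d → d + 1 < N → ∀ p < n,
      ((0 < p ∧ p < L a b d ∧ G.Adj (x c) (S a b d p)) ↔ B1 p))
    (B3 : ℕ → Prop) (hB3 : ∀ a b c d, a < b → b < c → c < d → d + 1 < N → ∀ p < n,
      ((0 < p ∧ p < L b c d ∧ G.Adj (x a) (S b c d p)) ↔ B3 p))
    (B4 : ℕ → Prop) (hB4 : ∀ a b c d e, a < b → b < c → c < d → d < e → e < N → ∀ p < n,
      (G.Adj (S a b e p) (S c d e p) ↔ B4 p)) :
    HasPath G n ∨ HasHalfGraph G t ∨ HasClique G k := by
  classical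
  by_cases hAA : A
  · -- the `x`'s form a clique
    right; right
    exact hasClique_of x (fun a b hab hb => (hA a b hab (by omega)).mpr hAA)
  have hA' : ∀ a b, a < b → b + 3 < N → ¬ G.Adj (x a) (x b) := fun a b h1 h2 h3 =>
    hAA ((hA a b h1 h2).mp h3)
  by_cases hb1 : ∃ p < n, B1 p
  · -- the vertices `S 0 1 d p`
    obtain ⟨p, hp, hb⟩ := hb1
    right; left
    have hin : ∀ d, 3 ≤ d → d + 1 < N → S 0 1 d p ∈ O d := by
      intro d h1 h2
      obtain ⟨h3, h4, -⟩ := (hB1 0 1 2 d (by omega) (by omega) (by omega) h2 p hp).mpr hb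
      exact hSO 0 1 d (by omega) (by omega) (by omega) p h3 h4
    refine hasHalf_of (fun i => x (2 + 2 * i)) (fun i => S 0 1 (3 + 2 * i) p) ?_ ?_ ?_ ?_
    · intro a b ha hb' hab
      exact ((hB1 0 1 (2 + 2 * a) (3 + 2 * b) (by omega) (by omega) (by omega) (by omega)
        p hp).mpr hb).2.2
    · intro a b ha hb' hab h
      exact hnt (2 + 2 * a) (by omega) (3 + 2 * b) (by omega) (by omega)
        ⟨_, hin (3 + 2 * b) (by omega) (by omega), h⟩
    · intro a b hab hb'
      exact hA' _ _ (by omega) (by omega)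
    · intro a b hab hb'
      exact (hanti (3 + 2 * a) (by omega) (3 + 2 * b) (by omega) (by omega) _
        (hin _ (by omega) (by omega)) _ (hin _ (by omega) (by omega))).2
  by_cases hb3 : ∃ p < n, B3 p
  · -- the vertices `S (3l+1) (3l+2) (N-2) p`
    obtain ⟨p, hp, hb⟩ := hb3
    right
    have hadj : ∀ a l, a ≤ 3 * l → 3 * l + 4 < N → G.Adj (x a) (S (3 * l + 1) (3 * l + 2) (N - 2) p) := by
      intro a l h1 h2
      exact ((hB3 a (3 * l + 1) (3 * l + 2) (N - 2) (by omega) (by omega) (by omega) (by omega)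
        p hp).mpr hb).2.2
    have hnadj : ∀ a l, 3 * l + 2 < a → a + 2 < N →
        ¬ G.Adj (x a) (S (3 * l + 1) (3 * l + 2) (N - 2) p) := by
      intro a l h1 h2 h3
      obtain ⟨h4, h5, -⟩ := (hB3 0 (3 * l + 1) (3 * l + 2) (N - 2) (by omega) (by omega)
        (by omega) (by omega) p hp).mpr hb
      exact hb1 ⟨p, hp, (hB1 (3 * l + 1) (3 * l + 2) a (N - 2) (by omega) (by omega) (by omega)
        (by omega) p hp).mp ⟨h4, h5, h3⟩⟩
    by_cases hb4 : B4 p
    · right
      exact hasClique_of (fun l => S (3 * l + 1) (3 * l + 2) (N - 2) p) (fun a b hab hb' =>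
        (hB4 (3 * a + 1) (3 * a + 2) (3 * b + 1) (3 * b + 2) (N - 2) (by omega) (by omega)
          (by omega) (by omega) (by omega) p hp).mpr hb4)
    · left
      refine hasHalf_of (fun i => x (3 * i)) (fun l => S (3 * l + 1) (3 * l + 2) (N - 2) p)
        ?_ ?_ ?_ ?_
      · intro a b ha hb' hab
        exact hadj _ _ (by omega) (by omega)
      · intro a b ha hb' hab
        exact hnadj _ _ (by omega) (by omega)
      · intro a b hab hb'
        exact hA' _ _ (by omega) (by omega)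
      · intro a b hab hb' h
        exact hb4 ((hB4 (3 * a + 1) (3 * a + 2) (3 * b + 1) (3 * b + 2) (N - 2) (by omega)
          (by omega) (by omega) (by omega) (by omega) p hp).mp h)
  · left
    refine core_path (N := N) (by omega) x O S L hx hxx hanti hS0 hS1 hSO hSadj hA' ?_ ?_
    · intro a b c d h1 h2 h3 h4 p h5 h6 h7
      have hp : p < n := lt_trans h6 (hL a b d h1 (by omega) (by omega))
      exact hb1 ⟨p, hp, (hB1 a b c d h1 h2 h3 h4 p hp).mp ⟨h5, h6, h7⟩⟩
    · intro a b c d h1 h2 h3 h4 p h5 h6 h7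
      have hp : p < n := lt_trans h6 (hL b c d h2 (by omega) (by omega))
      exact hb3 ⟨p, hp, (hB3 a b c d h1 h2 h3 h4 p hp).mp ⟨h5, h6, h7⟩⟩

/-- **Contracted half graphs.** -/
theorem contracted (n t k : ℕ) : ∃ M : ℕ, ∀ (V : Type) (G : SimpleGraph V) (x : ℕ → V)
    (O : ℕ → Set V),
    (∀ j < M, Conn G (O j)) → (∀ i < M, ∀ j < M, x i ∉ O j) →
    (∀ i < M, ∀ j < M, i < j → x i ≠ x j) →
    (∀ i < M, ∀ j < M, i ≠ j → Anti G (O i) (O j)) →
    (∀ i < M, ∀ j < M, i ≤ j → Touch G (x i) (O j)) →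
    (∀ i < M, ∀ j < M, j < i → ¬ Touch G (x i) (O j)) →
    HasPath G n ∨ HasHalfGraph G t ∨ HasClique G k := by
  classical
  obtain ⟨M, hM⟩ := H85.Blocks.ramsey 5
    (Prop × (Fin n → Prop) × (Fin n → Prop) × (Fin n → Prop)) (3 * (t + k) + 2 * n + 20)
  refine ⟨M, fun V G x O hO hx hxx hanti ht hnt => ?_⟩
  -- the connecting paths
  have hpath : ∀ a b d, ∃ (l : ℕ) (p : ℕ → V), a < b → b ≤ d → d < M →
      p 0 = x a ∧ p l = x b ∧ (∀ i, 0 < i → i < l → p i ∈ O d) ∧
      (∀ i ≤ l, ∀ j ≤ l, p i = p j → i = j) ∧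
      (∀ i ≤ l, ∀ j ≤ l, (G.Adj (p i) (p j) ↔ (i + 1 = j ∨ j + 1 = i))) := by
    intro a b d
    by_cases h : a < b ∧ b ≤ d ∧ d < M
    · obtain ⟨hab, hbd, hd⟩ := h
      set U : Set V := O d ∪ {x a, x b} with hU
      have hxa : x a ∈ U := by rw [hU]; simp
      have hxb : x b ∈ U := by rw [hU]; simp
      obtain ⟨y, hy, hay⟩ := ht a (by omega) d hd (by omega)
      obtain ⟨z, hz, hbz⟩ := ht b (by omega) d hd (by omega)
      have h1 : Relation.ReflTransGen (fun u v => G.Adj u v ∧ v ∈ U) y z :=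
        Relation.ReflTransGen.mono (r := fun u v => G.Adj u v ∧ v ∈ O d) (p := fun u v => G.Adj u v ∧ v ∈ U)
          (fun u v huv => ⟨huv.1, Or.inl huv.2⟩) y z ((hO d hd).2 y hy z hz)
      have h2 : Relation.ReflTransGen (fun u v => G.Adj u v ∧ v ∈ U) (x a) (x b) :=
        ((Relation.ReflTransGen.single ⟨hay, Or.inl hy⟩).trans h1).tail ⟨hbz.symm, hxb⟩
      obtain ⟨l, p, hp0, hpl, hpU, hpi, hpa⟩ := geodesic hxa h2
      refine ⟨l, p, fun _ _ _ => ⟨hp0, hpl, ?_, hpi, hpa⟩⟩
      intro i hi0 hil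
      have h3 := hpU i hil.le
      rw [hU] at h3
      rcases h3 with h3 | h3 | h3
      · exact h3
      · have := hpi i hil.le 0 (Nat.zero_le _) (by rw [hp0, h3])
        omega
      · have h3' : p i = x b := h3
        have := hpi i hil.le l (le_refl _) (by rw [hpl, h3'])
        omega
    · exact ⟨0, fun _ => x 0, fun h1 h2 h3 => absurd ⟨h1, h2, h3⟩ h⟩
  choose L S hS using hpath
  by_cases hlong : ∃ a b d, a < b ∧ b ≤ d ∧ d < M ∧ n ≤ L a b d + 1
  · obtain ⟨a, b, d, h1, h2, h3, h4⟩ := hlong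
    left
    obtain ⟨-, -, -, h5, h6⟩ := hS a b d h1 h2 h3
    exact hasPath_of (S a b d) h5 h6 h4
  have hLn : ∀ a b d, a < b → b ≤ d → d < M → L a b d < n := by
    intro a b d h1 h2 h3
    by_contra hcon
    exact hlong ⟨a, b, d, h1, h2, h3, by omega⟩
  -- the colouring
  let χ : List ℕ → Prop × (Fin n → Prop) × (Fin n → Prop) × (Fin n → Prop) := fun l =>
    (G.Adj (x (l.getD 0 0)) (x (l.getD 1 0)),
      fun p => 0 < (p : ℕ) ∧ (p : ℕ) < L (l.getD 0 0) (l.getD 1 0) (l.getD 3 0) ∧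
        G.Adj (x (l.getD 2 0)) (S (l.getD 0 0) (l.getD 1 0) (l.getD 3 0) p),
      fun p => 0 < (p : ℕ) ∧ (p : ℕ) < L (l.getD 1 0) (l.getD 2 0) (l.getD 3 0) ∧
        G.Adj (x (l.getD 0 0)) (S (l.getD 1 0) (l.getD 2 0) (l.getD 3 0) p),
      fun p => G.Adj (S (l.getD 0 0) (l.getD 1 0) (l.getD 4 0) p)
        (S (l.getD 2 0) (l.getD 3 0) (l.getD 4 0) p))
  obtain ⟨H, hH1, hH2, hH3⟩ := hM ℕ χ (List.range M) (by simp)
  set N := 3 * (t + k) + 2 * n + 20 with hN
  set h : ℕ → ℕ := fun i => H.getD i 0 with hh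
  have hhget : ∀ i, ∀ hi : i < H.length, h i = H[i] := by
    intro i hi
    rw [hh]
    simp [hi]
  have hHsort : H.Pairwise (· < ·) := List.pairwise_lt_range.sublist hH1
  have hmono : ∀ i j, i < j → j < N → h i < h j := by
    intro i j hij hj
    rw [hhget i (by omega), hhget j (by omega)]
    exact (List.pairwise_iff_getElem.mp hHsort) i j (by omega) (by omega) hij
  have hlt : ∀ i, i < N → h i < M := by
    intro i hi
    rw [hhget i (by omega)]
    exact List.mem_range.mp (hH1.subset (List.getElem_mem _))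
  have hle : ∀ i j, i ≤ j → j < N → h i ≤ h j := by
    intro i j hij hj
    rcases Nat.lt_or_ge i j with h1 | h1
    · exact (hmono i j h1 hj).le
    · have : i = j := le_antisymm hij h1
      rw [this]
  -- the colour of an ascending list of five indices
  have hcol : ∀ a b c d e, a < b → b < c → c < d → d < e → e < N →
      χ [h a, h b, h c, h d, h e] = χ [h 0, h 1, h 2, h 3, h 4] := by
    have hsub : ∀ a b c d e, a < b → b < c → c < d → d < e → e < N →
        ([h a, h b, h c, h d, h e] : List ℕ).Sublist H := by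
      intro a b c d e h1 h2 h3 h4 h5
      have := map_sublist_of_chain H h hhget [a, b, c, d, e] (by
        simp only [List.pairwise_cons, List.mem_cons, List.not_mem_nil, or_false,
          List.Pairwise.nil, and_true, forall_eq_or_imp, forall_eq, IsEmpty.forall_iff,
          implies_true]
        omega) (by
        simp only [List.mem_cons, List.not_mem_nil, or_false, forall_eq_or_imp, forall_eq]
        omega)
      simpa using this
    intro a b c d e h1 h2 h3 h4 h5
    exact hH3 _ _ (hsub a b c d e h1 h2 h3 h4 h5)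
      (hsub 0 1 2 3 4 (by omega) (by omega) (by omega) (by omega) (by omega)) rfl rfl
  set κ := χ [h 0, h 1, h 2, h 3, h 4] with hκ
  refine core_hom (N := N) (le_refl _) (fun i => x (h i)) (fun i => O (h i))
    (fun a b d => S (h a) (h b) (h d)) (fun a b d => L (h a) (h b) (h d))
    (fun i hi j hj => hx _ (hlt i hi) _ (hlt j hj))
    (fun i hi j hj hij => hxx _ (hlt i hi) _ (hlt j hj) (hmono i j hij hj))
    (fun i hi j hj hij => hanti _ (hlt i hi) _ (hlt j hj) (by
      rcases Nat.lt_or_gt_of_ne hij with h1 | h1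
      · exact (hmono i j h1 hj).ne
      · exact (hmono j i h1 hi).ne'))
    (fun i hi j hj hij => hnt _ (hlt i hi) _ (hlt j hj) (hmono j i hij hi))
    (fun a b d h1 h2 h3 => (hS (h a) (h b) (h d) (hmono a b h1 (by omega)) (hle b d h2 h3)
      (hlt d h3)).1)
    (fun a b d h1 h2 h3 => (hS (h a) (h b) (h d) (hmono a b h1 (by omega)) (hle b d h2 h3)
      (hlt d h3)).2.1)
    (fun a b d h1 h2 h3 => (hS (h a) (h b) (h d) (hmono a b h1 (by omega)) (hle b d h2 h3)
      (hlt d h3)).2.2.1)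
    (fun a b d h1 h2 h3 p hp => ((hS (h a) (h b) (h d) (hmono a b h1 (by omega)) (hle b d h2 h3)
      (hlt d h3)).2.2.2.2 p hp.le (p + 1) hp).mpr (Or.inl rfl))
    (fun a b d h1 h2 h3 => hLn (h a) (h b) (h d) (hmono a b h1 (by omega)) (hle b d h2 h3)
      (hlt d h3))
    κ.1 ?_ (fun p => ∃ hp : p < n, κ.2.1 ⟨p, hp⟩) ?_ (fun p => ∃ hp : p < n, κ.2.2.1 ⟨p, hp⟩) ?_
    (fun p => ∃ hp : p < n, κ.2.2.2 ⟨p, hp⟩) ?_
  · intro a b h1 h2
    have := congrArg (fun z => z.1) (hcol a b (b + 1) (b + 2) (b + 3) h1 (by omega) (by omega)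
      (by omega) (by omega))
    exact iff_of_eq this
  · intro a b c d h1 h2 h3 h4 p hp
    have := congrFun (congrArg (fun z => z.2.1) (hcol a b c d (d + 1) h1 h2 h3 (by omega) h4))
      ⟨p, hp⟩
    constructor
    · intro h5
      exact ⟨hp, (iff_of_eq this).mp h5⟩
    · rintro ⟨_, h5⟩
      exact (iff_of_eq this).mpr h5
  · intro a b c d h1 h2 h3 h4 p hp
    have := congrFun (congrArg (fun z => z.2.2.1) (hcol a b c d (d + 1) h1 h2 h3 (by omega) h4))
      ⟨p, hp⟩
    constructor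
    · intro h5
      exact ⟨hp, (iff_of_eq this).mp h5⟩
    · rintro ⟨_, h5⟩
      exact (iff_of_eq this).mpr h5
  · intro a b c d e h1 h2 h3 h4 h5 p hp
    have := congrFun (congrArg (fun z => z.2.2.2) (hcol a b c d e h1 h2 h3 h4 h5)) ⟨p, hp⟩
    constructor
    · intro h6
      exact ⟨hp, (iff_of_eq this).mp h6⟩
    · rintro ⟨_, h6⟩
      exact (iff_of_eq this).mpr h6

end H7.Online
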