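import Pool.Agent.H7.Online.RankDefs

/-!
Connected sets, the merging rank, and the chain of dominating vertices in graphs without long
induced paths.
-/

namespace H7.Online

variable {V : Type} {G : SimpleGraph V}

/-- the vertices reachable from `a` inside `T` -/
def comp (G : SimpleGraph V) (T : Set V) (a : V) : Set V :=
  {y | Relation.ReflTransGen (fun u w => G.Adj u w ∧ w ∈ T) a y}

theorem mem_comp_self (T : Set V) (a : V) : a ∈ comp G T a := Relation.ReflTransGen.refl

theorem comp_subset {T : Set V} {a : V} (ha : a ∈ T) : comp G T a ⊆ T := by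
  intro y hy
  induction hy with
  | refl => exact ha
  | tail _ h _ => exact h.2

theorem comp_step {T : Set V} {a u w : V} (hu : u ∈ comp G T a) (h : G.Adj u w) (hw : w ∈ T) :
    w ∈ comp G T a := Relation.ReflTransGen.tail hu ⟨h, hw⟩

theorem reach_symm {T : Set V} {a b : V} (ha : a ∈ T)
    (h : Relation.ReflTransGen (fun u w => G.Adj u w ∧ w ∈ T) a b) :
    Relation.ReflTransGen (fun u w => G.Adj u w ∧ w ∈ T) b a := by
  induction h with
  | refl => exact Relation.ReflTransGen.refl
  | tail h1 h2 ih =>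
    have hmem := comp_subset ha h1
    exact Relation.ReflTransGen.head ⟨h2.1.symm, hmem⟩ ih

theorem reach_mono {T T' : Set V} (hT : T ⊆ T') {a b : V}
    (h : Relation.ReflTransGen (fun u w => G.Adj u w ∧ w ∈ T) a b) :
    Relation.ReflTransGen (fun u w => G.Adj u w ∧ w ∈ T') a b := by
  induction h with
  | refl => exact Relation.ReflTransGen.refl
  | tail _ h2 ih => exact ih.tail ⟨h2.1, hT h2.2⟩

/-- inside the component the same vertices are reachable -/
theorem reach_comp {T : Set V} {a b : V}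
    (h : Relation.ReflTransGen (fun u w => G.Adj u w ∧ w ∈ T) a b) :
    Relation.ReflTransGen (fun u w => G.Adj u w ∧ w ∈ comp G T a) a b := by
  induction h with
  | refl => exact Relation.ReflTransGen.refl
  | tail h1 h2 ih => exact ih.tail ⟨h2.1, Relation.ReflTransGen.tail h1 h2⟩

theorem conn_comp {T : Set V} {a : V} (_ha : a ∈ T) : Conn G (comp G T a) := by
  refine ⟨⟨a, mem_comp_self T a⟩, ?_⟩
  intro b hb c hc
  have h1 := reach_symm (mem_comp_self T a) (reach_comp hb)
  exact h1.trans (reach_comp hc)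

theorem subset_comp {T s : Set V} {a : V} (hs : Conn G s) (hsT : s ⊆ T) (ha : a ∈ s) :
    s ⊆ comp G T a := by
  intro b hb
  exact reach_mono hsT (hs.2 a ha b hb)

theorem conn_union {s t : Set V} (hs : Conn G s) (ht : Conn G t) (h : (s ∩ t).Nonempty) :
    Conn G (s ∪ t) := by
  obtain ⟨c, hc1, hc2⟩ := h
  refine ⟨⟨c, Or.inl hc1⟩, ?_⟩
  have key : ∀ a ∈ s ∪ t, Relation.ReflTransGen (fun u w => G.Adj u w ∧ w ∈ s ∪ t) a c ∧
      Relation.ReflTransGen (fun u w => G.Adj u w ∧ w ∈ s ∪ t) c a := by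
    rintro a (ha | ha)
    · exact ⟨reach_mono Set.subset_union_left (hs.2 a ha c hc1),
        reach_mono Set.subset_union_left (hs.2 c hc1 a ha)⟩
    · exact ⟨reach_mono Set.subset_union_right (ht.2 a ha c hc2),
        reach_mono Set.subset_union_right (ht.2 c hc2 a ha)⟩
  intro a ha b hb
  exact (key a ha).1.trans (key b hb).2

/-- a proper subset of a connected set is left by an edge -/
theorem boundary {D C : Set V} (hD : Conn G D) (hC : C.Nonempty) (hCD : C ⊆ D) {d : V}
    (hd : d ∈ D) (hdC : d ∉ C) : ∃ w ∈ D, w ∉ C ∧ ∃ c ∈ C, G.Adj w c := by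
  obtain ⟨c, hc⟩ := hC
  by_contra hcon
  push Not at hcon
  have h := hD.2 c (hCD hc) d hd
  have : ∀ b, Relation.ReflTransGen (fun u v => G.Adj u v ∧ v ∈ D) c b → b ∈ C := by
    intro b hb
    induction hb with
    | refl => exact hc
    | tail _ h2 ih =>
      by_contra hb
      exact hcon _ h2.2 hb _ ih h2.1.symm
  exact hdC (this d h)

theorem Rk.conn {r : ℕ} {s : Set V} (h : Rk G r s) : Conn G s := by
  cases r with
  | zero => exact h
  | succ r => exact h.1

theorem Rk.mono {r : ℕ} {s s' : Set V} (h : Rk G r s) (hs : s ⊆ s') (hc : Conn G s') :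
    Rk G r s' := by
  cases r with
  | zero => exact hc
  | succ r =>
    obtain ⟨_, s1, s2, h1, h2, h3, h4, h5⟩ := h
    exact ⟨hc, s1, s2, h1.trans hs, h2.trans hs, h3, h4, h5⟩

theorem Rk.pred {r : ℕ} {s : Set V} (h : Rk G (r + 1) s) : Rk G r s := by
  obtain ⟨hc, s1, s2, h1, _, _, h4, _⟩ := h
  exact h4.mono h1 hc

theorem Rk.le {r r' : ℕ} {s : Set V} (h : Rk G r s) (hr : r' ≤ r) : Rk G r' s := by
  induction r with
  | zero =>
    have : r' = 0 := by omega
    subst this
    exact h
  | succ r ih =>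
    rcases Nat.lt_or_ge r r' with h1 | h1
    · have : r' = r + 1 := by omega
      subst this
      exact h
    · exact ih h.pred h1

theorem Anti.symm {s t : Set V} (h : Anti G s t) : Anti G t s := fun a ha b hb =>
  ⟨(h b hb a ha).1.symm, fun h' => (h b hb a ha).2 h'.symm⟩

theorem Anti.mono {s t s' t' : Set V} (h : Anti G s t) (hs : s' ⊆ s) (ht : t' ⊆ t) :
    Anti G s' t' := fun a ha b hb => h a (hs ha) b (ht hb)

/-- Gyárfás' step -/
theorem step {x : V} {D O : Set V} {r : ℕ} (hD : Conn G D) (hx : Touch G x D) (hO : O ⊆ D)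
    (hr : Rk G r O) (hxO : ¬ Touch G x O) :
    ∃ w ∈ D, G.Adj x w ∧ ∃ C ⊆ D, w ∉ C ∧ Touch G w C ∧ Rk G r C ∧ ¬ Touch G x C := by
  obtain ⟨o, ho⟩ := hr.conn.1
  obtain ⟨y, hyD, hxy⟩ := hx
  set T : Set V := {z | z ∈ D ∧ ¬ G.Adj x z} with hT
  have hOT : O ⊆ T := fun z hz => ⟨hO hz, fun h => hxO ⟨z, hz, h⟩⟩
  have hoT : o ∈ T := hOT ho
  have hCT : comp G T o ⊆ T := comp_subset hoT
  have hCD : comp G T o ⊆ D := hCT.trans (fun z hz => hz.1)
  have hyC : y ∉ comp G T o := fun h => (hCT h).2 hxy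
  obtain ⟨w, hwD, hwC, c, hc, hwc⟩ := boundary hD ⟨o, mem_comp_self T o⟩ hCD hyD hyC
  have hxw : G.Adj x w := by
    by_contra hcon
    exact hwC (comp_step hc hwc.symm ⟨hwD, hcon⟩)
  refine ⟨w, hwD, hxw, comp G T o, hCD, hwC, ⟨c, hc, hwc⟩, ?_, ?_⟩
  · exact hr.mono (subset_comp hr.conn hOT ho) (conn_comp hoT)
  · rintro ⟨z, hz, hxz⟩
    exact (hCT hz).2 hxz

/-- an induced path starting at `x` and continued in `D` -/
def Pth (G : SimpleGraph V) : ℕ → V → Set V → Prop
  | 0, _, _ => True
  | l + 1, x, D => ∃ w ∈ D, G.Adj x w ∧ ∃ C ⊆ D, (∀ c ∈ C, c ≠ x ∧ ¬ G.Adj x c) ∧ Pth G l w C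

theorem Pth.exists {l : ℕ} : ∀ {x : V} {D : Set V}, Pth G l x D → ∃ p : ℕ → V, p 0 = x ∧
    (∀ i, 0 < i → i ≤ l → p i ∈ D) ∧
    ∀ i j, i < j → j ≤ l → p i ≠ p j ∧ (G.Adj (p i) (p j) ↔ j = i + 1) := by
  induction l with
  | zero =>
    intro x D _
    exact ⟨fun _ => x, rfl, fun i h1 h2 => by omega, fun i j h1 h2 => by omega⟩
  | succ l ih =>
    rintro x D ⟨w, hwD, hxw, C, hCD, hC, hP⟩
    obtain ⟨p, p0, p1, p2⟩ := ih hP
    refine ⟨fun i => if i = 0 then x else p (i - 1), by simp, ?_, ?_⟩
    · intro i h1 h2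
      dsimp only
      rw [if_neg (by omega)]
      by_cases hi : i = 1
      · subst hi
        rw [Nat.sub_self, p0]
        exact hwD
      · exact hCD (p1 (i - 1) (by omega) (by omega))
    · intro i j hij hj
      dsimp only
      rw [if_neg (show j ≠ 0 by omega)]
      by_cases hi : i = 0
      · subst hi
        rw [if_pos rfl]
        by_cases hj1 : j = 1
        · subst hj1
          rw [Nat.sub_self, p0]
          exact ⟨hxw.ne, by simp [hxw]⟩
        · have h := hC _ (p1 (j - 1) (by omega) (by omega))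
          refine ⟨h.1.symm, ?_⟩
          constructor
          · intro h'; exact absurd h' h.2
          · intro h'; omega
      · rw [if_neg hi]
        have h := p2 (i - 1) (j - 1) (by omega) (by omega)
        refine ⟨h.1, h.2.trans ?_⟩
        omega

theorem hasPath_of_seq {p : ℕ → V} {l n : ℕ} (hn : n ≤ l + 1)
    (hp : ∀ i j, i < j → j ≤ l → p i ≠ p j ∧ (G.Adj (p i) (p j) ↔ j = i + 1)) : HasPath G n := by
  refine ⟨fun i => p i, ?_, ?_⟩
  · intro i j hij
    dsimp only at hij
    rcases lt_trichotomy (i : ℕ) j with h | h | h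
    · exact absurd hij (hp i j h (by omega)).1
    · exact Fin.ext h
    · exact absurd hij.symm (hp j i h (by omega)).1
  · intro i j
    rcases lt_trichotomy (i : ℕ) j with h | h | h
    · rw [(hp i j h (by omega)).2]
      omega
    · have : i = j := Fin.ext h
      subst this
      constructor
      · intro h'; exact absurd h' (G.loopless.irrefl _)
      · intro h'; omega
    · rw [G.adj_comm, (hp j i h (by omega)).2]
      omega

theorem Pth.hasPath {l n : ℕ} {x : V} {D : Set V} (h : Pth G l x D) (hn : n ≤ l + 1) :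
    HasPath G n := by
  obtain ⟨p, _, _, hp⟩ := h.exists
  exact hasPath_of_seq hn hp

/-- in a connected set of large rank some vertex dominates the sets of large rank of a subset of much
larger rank -/
theorem dominate (n : ℕ) (f : ℕ → ℕ) (a : ℕ) : ∃ R : ℕ, ∀ (V : Type) (G : SimpleGraph V)
    (D : Set V), ¬ HasPath G n → Rk G R D → ∃ r ≥ a, ∃ x ∈ D, ∃ D' ⊆ D, x ∉ D' ∧
      Rk G (f r) D' ∧ ∀ O ⊆ D', Rk G r O → Touch G x O := by
  let s : ℕ → ℕ := fun i => Nat.rec a (fun _ r => max r (f r)) i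
  have hs0 : s 0 = a := rfl
  have hs : ∀ i, s (i + 1) = max (s i) (f (s i)) := fun i => rfl
  have hsa : ∀ i, a ≤ s i := by
    intro i
    induction i with
    | zero => exact le_rfl
    | succ i ih => rw [hs]; exact ih.trans (le_max_left _ _)
  refine ⟨s n + 1, fun V G D hn hD => ?_⟩
  by_contra hcon
  push Not at hcon
  apply hn
  have claim : ∀ i, ∀ x ∈ D, ∀ D' ⊆ D, x ∉ D' → Touch G x D' → Rk G (s i) D' → Pth G i x D' := by
    intro i
    induction i with
    | zero => intro x _ D' _ _ _ _; trivial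
    | succ i ih =>
      intro x hx D' hD' hxD' hxt hr
      obtain ⟨O, hO, hOr, hxO⟩ := hcon (s i) (hsa i) x hx D' hD' hxD'
        (hr.le (by rw [hs]; exact le_max_right _ _))
      obtain ⟨w, hw, hxw, C, hC, hwC, hwt, hCr, hxC⟩ := step hr.conn hxt hO hOr hxO
      refine ⟨w, hw, hxw, C, hC, ?_, ih w (hD' hw) C (hC.trans hD') hwC hwt hCr⟩
      intro c hc
      exact ⟨fun h => hxD' (h ▸ hC hc), fun h => hxC ⟨c, hc, h⟩⟩
  obtain ⟨hDc, D1, D2, h1, h2, h3, h4, h5⟩ := hD
  obtain ⟨d, hd⟩ := h5.conn.1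
  obtain ⟨x, hxD, hxD1, c, hc, hxc⟩ := boundary hDc h4.conn.1 h1 (h2 hd)
    (fun h => (h3 d h d hd).1 rfl)
  exact (claim n x hxD D1 h1 hxD1 ⟨c, hc, hxc⟩ h4).hasPath (by omega)

/-- the chain of dominating vertices -/
theorem chain (n : ℕ) : ∀ (M a : ℕ), ∃ R : ℕ, ∀ (V : Type) (G : SimpleGraph V)
    (D : Set V), ¬ HasPath G n → Rk G R D → ∃ (x : ℕ → V) (O : ℕ → Set V),
      (∀ i < M, x i ∈ D ∧ O i ⊆ D ∧ Rk G a (O i)) ∧
      (∀ i < M, ∀ j < M, x i ∉ O j) ∧ (∀ i < M, ∀ j < M, i < j → x i ≠ x j) ∧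
      (∀ i < M, ∀ j < M, i ≠ j → Anti G (O i) (O j)) ∧
      (∀ i < M, ∀ j < M, i ≤ j → Touch G (x i) (O j)) ∧
      (∀ i < M, ∀ j < M, j < i → ¬ Touch G (x i) (O j)) := by
  intro M
  induction M with
  | zero =>
    intro a
    refine ⟨0, fun V G D _ hD => ?_⟩
    obtain ⟨d, _⟩ := hD.conn.1
    exact ⟨fun _ => d, fun _ => ∅, by simp, by simp, by simp, by simp, by simp, by simp⟩
  | succ M ih =>
    intro a
    choose RM hRM using ih
    obtain ⟨R, hR⟩ := dominate n (fun r => max r (RM r) + 1) a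
    refine ⟨R, fun V G D hn hD => ?_⟩
    obtain ⟨r, hra, x0, hx0, D', hD', hx0D', hr, hdom⟩ := hR V G D hn hD
    obtain ⟨_, D1, D2, h1, h2, h3, h4, h5⟩ := hr
    obtain ⟨x, O, e1, e2, e3, e4, e5, e6⟩ := hRM r V G D1 hn (h4.le (le_max_right _ _))
    have hD2r : Rk G r D2 := h5.le (le_max_left _ _)
    refine ⟨fun i => if i = 0 then x0 else x (i - 1), fun i => if i = 0 then D2 else O (i - 1),
      ?_, ?_, ?_, ?_, ?_, ?_⟩
    · intro i hi
      by_cases h0 : i = 0
      · simp only [h0, if_true]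
        exact ⟨hx0, h2.trans hD', hD2r.le hra⟩
      · simp only [h0, if_false]
        obtain ⟨g1, g2, g3⟩ := e1 (i - 1) (by omega)
        exact ⟨hD' (h1 g1), g2.trans (h1.trans hD'), g3.le hra⟩
    · intro i hi j hj
      by_cases h0 : i = 0
      · simp only [h0, if_true]
        by_cases j0 : j = 0
        · simp only [j0, if_true]
          exact fun h => hx0D' (h2 h)
        · simp only [j0, if_false]
          exact fun h => hx0D' (h1 ((e1 (j - 1) (by omega)).2.1 h))
      · simp only [h0, if_false]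
        by_cases j0 : j = 0
        · simp only [j0, if_true]
          exact fun h => (h3 _ (e1 (i - 1) (by omega)).1 _ h).1 rfl
        · simp only [j0, if_false]
          exact e2 _ (by omega) _ (by omega)
    · intro i hi j hj hij
      have j0 : j ≠ 0 := by omega
      simp only [j0, if_false]
      by_cases h0 : i = 0
      · simp only [h0, if_true]
        intro h
        exact hx0D' (h ▸ h1 (e1 (j - 1) (by omega)).1)
      · simp only [h0, if_false]
        exact e3 _ (by omega) _ (by omega) (by omega)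
    · intro i hi j hj hij
      by_cases h0 : i = 0
      · have j0 : j ≠ 0 := by omega
        simp only [h0, if_true, j0, if_false]
        exact h3.symm.mono subset_rfl (e1 (j - 1) (by omega)).2.1
      · by_cases j0 : j = 0
        · simp only [h0, if_false, j0, if_true]
          exact h3.mono (e1 (i - 1) (by omega)).2.1 subset_rfl
        · simp only [h0, if_false, j0]
          exact e4 _ (by omega) _ (by omega) (by omega)
    · intro i hi j hj hij
      by_cases h0 : i = 0
      · simp only [h0, if_true]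
        by_cases j0 : j = 0
        · simp only [j0, if_true]
          exact hdom D2 h2 hD2r
        · simp only [j0, if_false]
          exact hdom _ ((e1 (j - 1) (by omega)).2.1.trans h1) (e1 (j - 1) (by omega)).2.2
      · have j0 : j ≠ 0 := by omega
        simp only [h0, if_false, j0]
        exact e5 _ (by omega) _ (by omega) (by omega)
    · intro i hi j hj hij
      have h0 : i ≠ 0 := by omega
      by_cases j0 : j = 0
      · simp only [h0, if_false, j0, if_true]
        rintro ⟨y, hy, hxy⟩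
        exact (h3 _ (e1 (i - 1) (by omega)).1 y hy).2 hxy
      · simp only [h0, if_false, j0]
        exact e6 _ (by omega) _ (by omega) (by omega)

end H7.Online
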