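import Pool.Agent.H7.Online.Lower

/-!
Ultrafilter limits of on-line algorithms over directed families of graphs, and classes whose members
with bounded on-line chromatic number have no bad sequence.
-/

namespace H7.Online

/-- finite graphs -/
abbrev FG : Type := Σ m : ℕ, SimpleGraph (Fin m)

/-- `X` is isomorphic to an induced subgraph of `Y` -/
def Emb (X Y : FG) : Prop := Nonempty (X.2 ↪g Y.2)

/-- the on-line chromatic number of `X` is at most `k` -/
def OnlineLE (X : FG) (k : ℕ) : Prop := ∃ B : ℕ → SimpleGraph ℕ → ℕ, IsOnline B ∧ UsesAtMost B X.2 k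

/-- the first `n` vertices of `G` induce a subgraph that embeds in `Y` -/
def Init (G : SimpleGraph ℕ) (n : ℕ) (Y : FG) : Prop :=
  ∃ f : Fin n → Fin Y.1, Function.Injective f ∧
    ∀ i j : Fin n, (Y.2.Adj (f i) (f j) ↔ G.Adj (i : ℕ) (j : ℕ))

/-- `A` uses at most `N` colours on every initial segment embeddable in a member of `D` -/
def Handles (A : ℕ → SimpleGraph ℕ → ℕ) (D : Set FG) (N : ℕ) : Prop :=
  IsOnline A ∧ ∀ G n, ∀ Y ∈ D, Init G n Y → ((Finset.range n).image (fun i => A i G)).card ≤ N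

theorem Emb.trans {X Y Z : FG} (h : Emb X Y) (h' : Emb Y Z) : Emb X Z := by
  obtain ⟨e⟩ := h
  obtain ⟨e'⟩ := h'
  exact ⟨e.trans e'⟩

theorem Emb.refl (X : FG) : Emb X X := ⟨SimpleGraph.Embedding.refl⟩

theorem Init.mono {G : SimpleGraph ℕ} {n n' : ℕ} {Y : FG} (h : Init G n Y) (hn : n' ≤ n) :
    Init G n' Y := by
  obtain ⟨f, h1, h2⟩ := h
  refine ⟨fun i => f (Fin.castLE hn i), ?_, ?_⟩
  · intro i j hij
    exact Fin.castLE_injective hn (h1 hij)
  · intro i j
    exact h2 _ _

theorem Init.emb {G : SimpleGraph ℕ} {n : ℕ} {Y Z : FG} (h : Init G n Y) (hYZ : Emb Y Z) :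
    Init G n Z := by
  obtain ⟨f, h1, h2⟩ := h
  obtain ⟨e⟩ := hYZ
  refine ⟨fun i => e (f i), ?_, ?_⟩
  · intro i j hij
    exact h1 (e.injective hij)
  · intro i j
    rw [e.map_adj_iff]
    exact h2 i j

theorem Init.congr {G G' : SimpleGraph ℕ} {n : ℕ} {Y : FG} (h : Init G n Y)
    (hG : ∀ i < n, ∀ j < n, (G.Adj i j ↔ G'.Adj i j)) : Init G' n Y := by
  obtain ⟨f, h1, h2⟩ := h
  exact ⟨f, h1, fun i j => (h2 i j).trans (hG i i.2 j j.2)⟩

theorem init_of_presents {X : FG} {G : SimpleGraph ℕ} {σ : Fin X.1 ≃ Fin X.1}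
    (h : ∀ i j : Fin X.1, G.Adj (i : ℕ) (j : ℕ) ↔ X.2.Adj (σ i) (σ j)) : Init G X.1 X :=
  ⟨σ, σ.injective, fun i j => (h i j).symm⟩

theorem card_of_init {B : ℕ → SimpleGraph ℕ → ℕ} (hB : IsOnline B) {Y : FG} {k : ℕ}
    (hk : UsesAtMost B Y.2 k) {G : SimpleGraph ℕ} {n : ℕ} (h : Init G n Y) :
    ((Finset.range n).image (fun i => B i G)).card ≤ k := by
  classical
  by_cases h0 : n = 0
  · subst h0
    simp
  · obtain ⟨f, h1, h2⟩ := h
    have hpos : 0 < n := Nat.pos_of_ne_zero h0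
    let g : ℕ → Fin Y.1 := fun i => if hi : i < n then f ⟨i, hi⟩ else f ⟨0, hpos⟩
    have hg : ∀ i (hi : i < n), g i = f ⟨i, hi⟩ := fun i hi => by simp only [g, dif_pos hi]
    obtain ⟨hsm, G', σ, b1, b2⟩ := present (s := n) (H := Y.2) (G' := G) (f := g) (by
        intro i hi j hj hij
        rw [hg i hi, hg j hj] at hij
        simpa using h1 hij) (by
        intro i hi j hj
        rw [hg i hi, hg j hj]
        exact h2 _ _)
    have h3 := hk G' σ b1
    refine le_trans (Finset.card_le_card ?_) h3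
    intro c hc
    rw [Finset.mem_image] at hc ⊢
    obtain ⟨i, hi, rfl⟩ := hc
    rw [Finset.mem_range] at hi
    exact ⟨i, Finset.mem_range.mpr (by omega), b2 B hB i hi⟩

theorem handles_of_uses {A : ℕ → SimpleGraph ℕ → ℕ} (hA : IsOnline A) {D : Set FG} {N : ℕ}
    (h : ∀ Y ∈ D, UsesAtMost A Y.2 N) : Handles A D N :=
  ⟨hA, fun _ _ Y hY hI => card_of_init hA (h Y hY) hI⟩

theorem Handles.uses {A : ℕ → SimpleGraph ℕ → ℕ} {D : Set FG} {N : ℕ} (h : Handles A D N)
    {Y : FG} (hY : Y ∈ D) : UsesAtMost A Y.2 N := by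
  intro G σ hσ
  exact h.2 G Y.1 Y hY (init_of_presents hσ)

theorem Handles.mono {A : ℕ → SimpleGraph ℕ → ℕ} {D D' : Set FG} {N : ℕ} (h : Handles A D N)
    (hD : D' ⊆ D) : Handles A D' N :=
  ⟨h.1, fun G n Y hY hI => h.2 G n Y (hD hY) hI⟩

/-! ### normalised colours -/

section norm
open Classical in
/-- the first vertex with the colour of `n` -/
noncomputable def fst (B : ℕ → SimpleGraph ℕ → ℕ) (n : ℕ) (G : SimpleGraph ℕ) : ℕ :=
  Nat.find (p := fun i => B i G = B n G) ⟨n, rfl⟩

theorem fst_spec (B : ℕ → SimpleGraph ℕ → ℕ) (n : ℕ) (G : SimpleGraph ℕ) :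
    B (fst B n G) G = B n G := by
  classical
  exact Nat.find_spec (p := fun i => B i G = B n G) ⟨n, rfl⟩

theorem fst_le (B : ℕ → SimpleGraph ℕ → ℕ) (n : ℕ) (G : SimpleGraph ℕ) {i : ℕ}
    (h : B i G = B n G) : fst B n G ≤ i := by
  classical
  exact Nat.find_min' (p := fun i => B i G = B n G) ⟨n, rfl⟩ h

/-- the number of colours that appeared before the colour of `n` -/
noncomputable def nrm (B : ℕ → SimpleGraph ℕ → ℕ) (n : ℕ) (G : SimpleGraph ℕ) : ℕ :=
  ((Finset.range (fst B n G)).image (fun i => B i G)).card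

theorem fst_congr {B : ℕ → SimpleGraph ℕ → ℕ} (hB : IsOnline B) {n : ℕ} {G G' : SimpleGraph ℕ}
    (h : ∀ i j : ℕ, i ≤ n → j ≤ n → (G.Adj i j ↔ G'.Adj i j)) : fst B n G = fst B n G' := by
  have hloc : ∀ i ≤ n, B i G = B i G' := fun i hi =>
    hB.1 i G G' (fun a b ha hb => h a b (by omega) (by omega))
  have h1 : fst B n G ≤ n := fst_le B n G rfl
  have h2 : fst B n G' ≤ n := fst_le B n G' rfl
  apply le_antisymm
  · apply fst_le
    rw [hloc _ h2, hloc n le_rfl]
    exact fst_spec B n G'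
  · apply fst_le
    rw [← hloc _ h1, ← hloc n le_rfl]
    exact fst_spec B n G

theorem nrm_congr {B : ℕ → SimpleGraph ℕ → ℕ} (hB : IsOnline B) {n : ℕ} {G G' : SimpleGraph ℕ}
    (h : ∀ i j : ℕ, i ≤ n → j ≤ n → (G.Adj i j ↔ G'.Adj i j)) : nrm B n G = nrm B n G' := by
  have hloc : ∀ i ≤ n, B i G = B i G' := fun i hi =>
    hB.1 i G G' (fun a b ha hb => h a b (by omega) (by omega))
  have h1 : fst B n G ≤ n := fst_le B n G rfl
  unfold nrm
  rw [← fst_congr hB h]
  congr 1
  apply Finset.image_congr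
  intro i hi
  simp only [Finset.coe_range, Set.mem_Iio] at hi
  exact hloc i (by omega)

theorem nrm_lt_of_fst_lt {B : ℕ → SimpleGraph ℕ → ℕ} {i j : ℕ} {G : SimpleGraph ℕ}
    (h : fst B i G < j) :
    nrm B i G < ((Finset.range j).image (fun i => B i G)).card := by
  unfold nrm
  apply Finset.card_lt_card
  rw [Finset.ssubset_iff_of_subset (Finset.image_subset_image (Finset.range_mono h.le))]
  refine ⟨B (fst B i G) G, Finset.mem_image.mpr ⟨_, Finset.mem_range.mpr h, rfl⟩, ?_⟩
  intro hmem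
  rw [Finset.mem_image] at hmem
  obtain ⟨a, ha, hab⟩ := hmem
  rw [Finset.mem_range] at ha
  have hab' : B a G = B i G := hab.trans (fst_spec B i G)
  have := fst_le B i G hab'
  omega

theorem nrm_inj {B : ℕ → SimpleGraph ℕ → ℕ} {i j : ℕ} {G : SimpleGraph ℕ}
    (h : nrm B i G = nrm B j G) : B i G = B j G := by
  rcases lt_trichotomy (fst B i G) (fst B j G) with h1 | h1 | h1
  · have := nrm_lt_of_fst_lt h1
    unfold nrm at h this
    omega
  · rw [← fst_spec B i G, h1, fst_spec B j G]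
  · have := nrm_lt_of_fst_lt h1
    unfold nrm at h this
    omega

theorem nrm_lt {B : ℕ → SimpleGraph ℕ → ℕ} {i n : ℕ} {G : SimpleGraph ℕ} (h : i < n) :
    nrm B i G < ((Finset.range n).image (fun i => B i G)).card :=
  nrm_lt_of_fst_lt (lt_of_le_of_lt (fst_le B i G rfl) h)

end norm

/-! ### limits over directed families -/

theorem limit {D : Set FG} (hne : D.Nonempty)
    (hdir : ∀ X ∈ D, ∀ Y ∈ D, ∃ Z ∈ D, Emb X Z ∧ Emb Y Z) {k : ℕ}
    (hk : ∀ X ∈ D, OnlineLE X k) : ∃ A, Handles A D k := by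
  classical
  have hch : ∀ X : FG, ∃ B : ℕ → SimpleGraph ℕ → ℕ, X ∈ D → (IsOnline B ∧ UsesAtMost B X.2 k) := by
    intro X
    by_cases hX : X ∈ D
    · obtain ⟨B, hB⟩ := hk X hX
      exact ⟨B, fun _ => hB⟩
    · exact ⟨fun _ _ => 0, fun h => absurd h hX⟩
  choose B hB using hch
  obtain ⟨X0, hX0⟩ := hne
  have : Nonempty D := ⟨⟨X0, hX0⟩⟩
  let F : D → Filter FG := fun X => Filter.principal {Z | Z ∈ D ∧ Emb X.1 Z}
  have hFdir : Directed (· ≥ ·) F := by
    rintro ⟨X, hX⟩ ⟨Y, hY⟩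
    obtain ⟨Z, hZ, hXZ, hYZ⟩ := hdir X hX Y hY
    refine ⟨⟨Z, hZ⟩, ?_, ?_⟩
    · simp only [F, ge_iff_le, Filter.principal_mono]
      rintro W ⟨hW, hZW⟩
      exact ⟨hW, hXZ.trans hZW⟩
    · simp only [F, ge_iff_le, Filter.principal_mono]
      rintro W ⟨hW, hZW⟩
      exact ⟨hW, hYZ.trans hZW⟩
  have : (⨅ X, F X).NeBot := by
    apply Filter.iInf_neBot_of_directed hFdir
    rintro ⟨X, hX⟩
    rw [Filter.principal_neBot_iff]
    exact ⟨X, hX, Emb.refl X⟩
  let U : Ultrafilter FG := Ultrafilter.of (⨅ X, F X)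
  have hU : ∀ X ∈ D, {Z | Z ∈ D ∧ Emb X Z} ∈ U := by
    intro X hX
    apply Ultrafilter.of_le (⨅ X, F X)
    exact Filter.mem_iInf_of_mem ⟨X, hX⟩ (Filter.mem_principal_self _)
  have hUD : D ∈ U := Filter.mem_of_superset (hU X0 hX0) (fun Z hZ => hZ.1)
  let P : ℕ → SimpleGraph ℕ → ℕ → Prop := fun n G c => {Z | nrm (B Z) n G = c} ∈ U
  let A : ℕ → SimpleGraph ℕ → ℕ := fun n G =>
    if h : ∃ c, P n G c then 2 * Classical.choose h else 2 * n + 1
  have hA1 : ∀ n G c, P n G c → A n G = 2 * c := by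
    intro n G c hc
    have hex : ∃ c, P n G c := ⟨c, hc⟩
    have h1 : A n G = 2 * Classical.choose hex := by simp only [A, dif_pos hex]
    have h2 : P n G (Classical.choose hex) := Classical.choose_spec hex
    have h3 : ({Z | nrm (B Z) n G = Classical.choose hex} ∩ {Z | nrm (B Z) n G = c}).Nonempty :=
      Ultrafilter.nonempty_of_mem (Filter.inter_mem h2 hc)
    obtain ⟨Z, hZ1, hZ2⟩ := h3
    rw [h1]
    have h4 : nrm (B Z) n G = Classical.choose hex := hZ1
    have h5 : nrm (B Z) n G = c := hZ2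
    omega
  have hA2 : ∀ n G, (¬ ∃ c, P n G c) → A n G = 2 * n + 1 := by
    intro n G h
    simp only [A, dif_neg h]
  have hPcongr : ∀ n G G' c, (∀ i j : ℕ, i ≤ n → j ≤ n → (G.Adj i j ↔ G'.Adj i j)) →
      P n G c → P n G' c := by
    intro n G G' c hG hP
    refine Filter.mem_of_superset (Filter.inter_mem hUD hP) ?_
    rintro Z ⟨hZD, hZ⟩
    show nrm (B Z) n G' = c
    rw [← nrm_congr (hB Z hZD).1 hG]
    exact hZ
  refine ⟨A, ⟨?_, ?_⟩, ?_⟩
  · intro n G G' hG
    by_cases hex : ∃ c, P n G c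
    · obtain ⟨c, hc⟩ := hex
      rw [hA1 n G c hc, hA1 n G' c (hPcongr n G G' c hG hc)]
    · have hex' : ¬ ∃ c, P n G' c := by
        rintro ⟨c, hc⟩
        exact hex ⟨c, hPcongr n G' G c (fun i j hi hj => (hG i j hi hj).symm) hc⟩
      rw [hA2 n G hex, hA2 n G' hex']
  · intro G i j hij hadj heq
    by_cases hi : ∃ c, P i G c
    · obtain ⟨c, hc⟩ := hi
      by_cases hj : ∃ c, P j G c
      · obtain ⟨c', hc'⟩ := hj
        rw [hA1 i G c hc, hA1 j G c' hc'] at heq
        have hcc : c = c' := by omega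
        subst hcc
        obtain ⟨Z, ⟨hZD, hZ1⟩, hZ2⟩ := Ultrafilter.nonempty_of_mem
          (Filter.inter_mem (Filter.inter_mem hUD hc) hc')
        have h4 : nrm (B Z) i G = c := hZ1
        have h5 : nrm (B Z) j G = c := hZ2
        exact (hB Z hZD).1.2 G i j hij hadj (nrm_inj (h4.trans h5.symm))
      · rw [hA1 i G c hc, hA2 j G hj] at heq
        omega
    · by_cases hj : ∃ c, P j G c
      · obtain ⟨c', hc'⟩ := hj
        rw [hA2 i G hi, hA1 j G c' hc'] at heq
        omega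
      · rw [hA2 i G hi, hA2 j G hj] at heq
        omega
  · intro G n Y hY hI
    have hkey : ∀ i < n, ∃ c < k, P i G c := by
      intro i hi
      have h1 : {Z | nrm (B Z) i G < k} ∈ U := by
        refine Filter.mem_of_superset (hU Y hY) ?_
        rintro Z ⟨hZD, hYZ⟩
        show nrm (B Z) i G < k
        have h2 := card_of_init (hB Z hZD).1 (hB Z hZD).2 (hI.emb hYZ)
        have h3 := nrm_lt (B := B Z) (G := G) hi
        omega
      have h2 : (⋃ c ∈ (Finset.range k : Set ℕ), {Z | nrm (B Z) i G = c}) ∈ U := by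
        refine Filter.mem_of_superset h1 ?_
        intro Z hZ
        have hZ' : nrm (B Z) i G < k := hZ
        simp only [Finset.coe_range, Set.mem_Iio, Set.mem_iUnion, Set.mem_ofPred_eq]
        exact ⟨_, hZ', rfl⟩
      rw [Ultrafilter.finite_biUnion_mem_iff (Finset.finite_toSet _)] at h2
      obtain ⟨c, hc, hP⟩ := h2
      simp only [Finset.coe_range, Set.mem_Iio] at hc
      exact ⟨c, hc, hP⟩
    have hsub : (Finset.range n).image (fun i => A i G) ⊆ (Finset.range k).image (fun c => 2 * c) := by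
      intro x hx
      rw [Finset.mem_image] at hx ⊢
      obtain ⟨i, hi, rfl⟩ := hx
      rw [Finset.mem_range] at hi
      obtain ⟨c, hc, hP⟩ := hkey i hi
      exact ⟨c, Finset.mem_range.mpr hc, (hA1 i G c hP).symm⟩
    calc _ ≤ ((Finset.range k).image (fun c => 2 * c)).card := Finset.card_le_card hsub
      _ ≤ (Finset.range k).card := Finset.card_image_le
      _ = k := Finset.card_range k

/-- colours used while the initial segment embeds in a member of `D` -/
theorem Handles.card_filter {A : ℕ → SimpleGraph ℕ → ℕ} {D : Set FG} {N : ℕ} (h : Handles A D N)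
    (G : SimpleGraph ℕ) (S : Finset ℕ) (hS : ∀ i ∈ S, ∃ Y ∈ D, Init G (i + 1) Y) :
    (S.image (fun i => A i G)).card ≤ N := by
  classical
  by_cases h0 : S.Nonempty
  · obtain ⟨Y, hY, hI⟩ := hS _ (S.max'_mem h0)
    refine le_trans (Finset.card_le_card (Finset.image_subset_image ?_)) (h.2 G _ Y hY hI)
    intro i hi
    rw [Finset.mem_range]
    have := S.le_max' i hi
    omega
  · rw [Finset.not_nonempty_iff_eq_empty] at h0
    subst h0
    simp

theorem union {D1 D2 : Set FG} {N1 N2 : ℕ} {A1 A2 : ℕ → SimpleGraph ℕ → ℕ}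
    (h1 : Handles A1 D1 N1) (h2 : Handles A2 D2 N2) : ∃ A, Handles A (D1 ∪ D2) (N1 + N2) := by
  classical
  let P : ℕ → SimpleGraph ℕ → Prop := fun n G => ∃ Y ∈ D1, Init G (n + 1) Y
  let A : ℕ → SimpleGraph ℕ → ℕ := fun n G => if P n G then 2 * A1 n G else 2 * A2 n G + 1
  have hA1 : ∀ n G, P n G → A n G = 2 * A1 n G := fun n G h => by simp only [A, if_pos h]
  have hA2 : ∀ n G, ¬ P n G → A n G = 2 * A2 n G + 1 := fun n G h => by simp only [A, if_neg h]
  have hPc : ∀ n G G', (∀ i j : ℕ, i ≤ n → j ≤ n → (G.Adj i j ↔ G'.Adj i j)) → P n G → P n G' := by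
    rintro n G G' hG ⟨Y, hY, hI⟩
    exact ⟨Y, hY, hI.congr (fun i hi j hj => hG i j (by omega) (by omega))⟩
  refine ⟨A, ⟨?_, ?_⟩, ?_⟩
  · intro n G G' hG
    by_cases hP : P n G
    · rw [hA1 n G hP, hA1 n G' (hPc n G G' hG hP), h1.1.1 n G G' hG]
    · have hP' : ¬ P n G' := fun h => hP (hPc n G' G (fun i j hi hj => (hG i j hi hj).symm) h)
      rw [hA2 n G hP, hA2 n G' hP', h2.1.1 n G G' hG]
  · intro G i j hij hadj heq
    by_cases hi : P i G
    · by_cases hj : P j G
      · rw [hA1 i G hi, hA1 j G hj] at heq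
        exact h1.1.2 G i j hij hadj (by omega)
      · rw [hA1 i G hi, hA2 j G hj] at heq
        omega
    · by_cases hj : P j G
      · rw [hA2 i G hi, hA1 j G hj] at heq
        omega
      · rw [hA2 i G hi, hA2 j G hj] at heq
        exact h2.1.2 G i j hij hadj (by omega)
  · intro G n Y hY hI
    have hsub : (Finset.range n).image (fun i => A i G) ⊆
        ((((Finset.range n).filter (fun i => P i G)).image (fun i => A1 i G)).image
            (fun c => 2 * c)) ∪
          ((((Finset.range n).filter (fun i => ¬ P i G)).image (fun i => A2 i G)).image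
            (fun c => 2 * c + 1)) := by
      intro x hx
      rw [Finset.mem_image] at hx
      obtain ⟨i, hi, rfl⟩ := hx
      rw [Finset.mem_union]
      by_cases hP : P i G
      · left
        rw [Finset.mem_image]
        exact ⟨A1 i G, Finset.mem_image.mpr ⟨i, Finset.mem_filter.mpr ⟨hi, hP⟩, rfl⟩,
          (hA1 i G hP).symm⟩
      · right
        rw [Finset.mem_image]
        exact ⟨A2 i G, Finset.mem_image.mpr ⟨i, Finset.mem_filter.mpr ⟨hi, hP⟩, rfl⟩,
          (hA2 i G hP).symm⟩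
    have hc1 : (((Finset.range n).filter (fun i => P i G)).image (fun i => A1 i G)).card ≤ N1 := by
      apply h1.card_filter
      intro i hi
      exact (Finset.mem_filter.mp hi).2
    have hc2 : (((Finset.range n).filter (fun i => ¬ P i G)).image (fun i => A2 i G)).card ≤ N2 := by
      rcases hY with hY | hY
      · have : (Finset.range n).filter (fun i => ¬ P i G) = ∅ := by
          rw [Finset.filter_eq_empty_iff]
          intro i hi hP
          rw [Finset.mem_range] at hi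
          exact hP ⟨Y, hY, hI.mono (by omega)⟩
        rw [this]
        simp
      · apply h2.card_filter
        intro i hi
        have hi' := (Finset.mem_filter.mp hi).1
        rw [Finset.mem_range] at hi'
        exact ⟨Y, hY, hI.mono (by omega)⟩
    calc _ ≤ _ := Finset.card_le_card hsub
      _ ≤ _ := Finset.card_union_le _ _
      _ ≤ N1 + N2 := add_le_add (le_trans Finset.card_image_le hc1)
          (le_trans Finset.card_image_le hc2)

/-- a trivial on-line algorithm -/
theorem online_id : IsOnline (fun n _ => n) :=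
  ⟨fun _ _ _ _ => rfl, fun _ _ _ hij _ h => absurd h (Nat.ne_of_lt hij)⟩

/-- `D` is not handled by any algorithm with any number of colours -/
def BadFam (D : Set FG) : Prop := ¬ ∃ N A, Handles A D N

theorem BadFam.step {D : Set FG} (hD : BadFam D) {k : ℕ} (hk : ∀ X ∈ D, OnlineLE X k) :
    ∃ X ∈ D, BadFam {Z | Z ∈ D ∧ ¬ Emb X Z} := by
  classical
  have hne : D.Nonempty := by
    rw [Set.nonempty_iff_ne_empty]
    rintro rfl
    exact hD ⟨0, _, handles_of_uses online_id (fun Y hY => absurd hY (Set.notMem_empty Y))⟩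
  by_contra hcon
  push Not at hcon
  apply hD
  have hdir : ∀ X ∈ D, ∀ Y ∈ D, ∃ Z ∈ D, Emb X Z ∧ Emb Y Z := by
    intro X hX Y hY
    by_contra hno
    push Not at hno
    obtain ⟨N1, A1, h1⟩ := not_not.mp (hcon X hX)
    obtain ⟨N2, A2, h2⟩ := not_not.mp (hcon Y hY)
    obtain ⟨A, hA⟩ := union h1 h2
    apply hD
    refine ⟨_, A, hA.mono ?_⟩
    intro Z hZ
    by_cases h : Emb X Z
    · right
      exact ⟨hZ, hno Z hZ h⟩
    · left
      exact ⟨hZ, h⟩
  obtain ⟨A, hA⟩ := limit hne hdir hk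
  exact ⟨k, A, hA⟩

/-- a family of graphs of bounded on-line chromatic number without bad sequences is handled by one
algorithm -/
theorem handled_of_wqo {D : Set FG} {k : ℕ} (hk : ∀ X ∈ D, OnlineLE X k)
    (hw : ∀ X : ℕ → FG, (∀ n, X n ∈ D) → ∃ i j, i < j ∧ Emb (X i) (X j)) :
    ∃ N A, Handles A D N := by
  classical
  by_contra hbad
  have hbad' : BadFam D := hbad
  -- states: subfamilies that are bad
  let T : Type := {E : Set FG // BadFam E ∧ E ⊆ D}
  have hstep : ∀ E : T, ∃ X ∈ E.1, BadFam {Z | Z ∈ E.1 ∧ ¬ Emb X Z} := fun E =>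
    E.2.1.step (fun X hX => hk X (E.2.2 hX))
  choose pt hpt1 hpt2 using hstep
  let nxt : T → T := fun E => ⟨{Z | Z ∈ E.1 ∧ ¬ Emb (pt E) Z}, hpt2 E, fun Z hZ => E.2.2 hZ.1⟩
  let s : ℕ → T := fun n => nxt^[n] ⟨D, hbad', subset_rfl⟩
  have hs : ∀ n, s (n + 1) = nxt (s n) := fun n => Function.iterate_succ_apply' _ _ _
  have hanti : ∀ i j, i ≤ j → (s j).1 ⊆ (s i).1 := by
    intro i j hij
    induction j, hij using Nat.le_induction with
    | base => exact subset_rfl
    | succ j _ ih =>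
      rw [hs]
      intro Z hZ
      exact ih hZ.1
  obtain ⟨i, j, hij, hE⟩ := hw (fun n => pt (s n)) (fun n => (s n).2.2 (hpt1 (s n)))
  have h1 : pt (s j) ∈ (s (i + 1)).1 := hanti (i + 1) j hij (hpt1 (s j))
  rw [hs] at h1
  exact h1.2 hE

/-- combining the algorithms for all values of the on-line chromatic number -/
theorem combine {D : ℕ → Set FG} {N : ℕ → ℕ} {A : ℕ → ℕ → SimpleGraph ℕ → ℕ}
    (h : ∀ k, Handles (A k) (D k) (N k)) :
    ∃ A' : ℕ → SimpleGraph ℕ → ℕ, IsOnline A' ∧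
      ∀ k, ∀ Y ∈ D k, UsesAtMost A' Y.2 (∑ i ∈ Finset.range (k + 1), N i) := by
  classical
  let P : ℕ → SimpleGraph ℕ → ℕ → Prop := fun n G k => ∃ Y ∈ D k, Init G (n + 1) Y
  let A' : ℕ → SimpleGraph ℕ → ℕ := fun n G =>
    if h : ∃ k, P n G k then 2 * Nat.pair (Nat.find h) (A (Nat.find h) n G) else 2 * n + 1
  have hA1 : ∀ n G (h : ∃ k, P n G k), A' n G = 2 * Nat.pair (Nat.find h) (A (Nat.find h) n G) :=
    fun n G h => by simp only [A', dif_pos h]
  have hA2 : ∀ n G, (¬ ∃ k, P n G k) → A' n G = 2 * n + 1 := fun n G h => by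
    simp only [A', dif_neg h]
  have hPc : ∀ n G G' k, (∀ i j : ℕ, i ≤ n → j ≤ n → (G.Adj i j ↔ G'.Adj i j)) →
      P n G k → P n G' k := by
    rintro n G G' k hG ⟨Y, hY, hI⟩
    exact ⟨Y, hY, hI.congr (fun i hi j hj => hG i j (by omega) (by omega))⟩
  refine ⟨A', ⟨?_, ?_⟩, ?_⟩
  · intro n G G' hG
    have hG' : ∀ i j : ℕ, i ≤ n → j ≤ n → (G'.Adj i j ↔ G.Adj i j) :=
      fun i j hi hj => (hG i j hi hj).symm
    by_cases hP : ∃ k, P n G k
    · have hP' : ∃ k, P n G' k := by
        obtain ⟨k, hk⟩ := hP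
        exact ⟨k, hPc n G G' k hG hk⟩
      have hfind : Nat.find hP = Nat.find hP' := by
        apply le_antisymm
        · exact Nat.find_min' hP (hPc n G' G _ hG' (Nat.find_spec hP'))
        · exact Nat.find_min' hP' (hPc n G G' _ hG (Nat.find_spec hP))
      rw [hA1 n G hP, hA1 n G' hP', ← hfind, (h (Nat.find hP)).1.1 n G G' hG]
    · have hP' : ¬ ∃ k, P n G' k := by
        rintro ⟨k, hk⟩
        exact hP ⟨k, hPc n G' G k hG' hk⟩
      rw [hA2 n G hP, hA2 n G' hP']
  · intro G i j hij hadj heq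
    by_cases hi : ∃ k, P i G k
    · by_cases hj : ∃ k, P j G k
      · rw [hA1 i G hi, hA1 j G hj] at heq
        have h1 : Nat.pair (Nat.find hi) (A (Nat.find hi) i G) =
          Nat.pair (Nat.find hj) (A (Nat.find hj) j G) := by omega
        rw [Nat.pair_eq_pair] at h1
        obtain ⟨h2, h3⟩ := h1
        rw [← h2] at h3
        exact (h _).1.2 G i j hij hadj h3
      · rw [hA1 i G hi, hA2 j G hj] at heq
        omega
    · by_cases hj : ∃ k, P j G k
      · rw [hA2 i G hi, hA1 j G hj] at heq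
        omega
      · rw [hA2 i G hi, hA2 j G hj] at heq
        omega
  · intro k Y hY G σ hσ
    have hI := init_of_presents hσ
    have hP : ∀ i < Y.1, P i G k := fun i hi => ⟨Y, hY, hI.mono (by omega)⟩
    have hex : ∀ i < Y.1, ∃ k, P i G k := fun i hi => ⟨k, hP i hi⟩
    let S : ℕ → Finset ℕ := fun k' => (Finset.range Y.1).filter (fun i => P i G k')
    have hsub : (Finset.range Y.1).image (fun i => A' i G) ⊆
        (Finset.range (k + 1)).biUnion (fun k' =>
          ((S k').image (fun i => A k' i G)).image (fun c => 2 * Nat.pair k' c)) := by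
      intro x hx
      rw [Finset.mem_image] at hx
      obtain ⟨i, hi, rfl⟩ := hx
      have hi' := Finset.mem_range.mp hi
      rw [Finset.mem_biUnion]
      have hle : Nat.find (hex i hi') ≤ k := Nat.find_min' _ (hP i hi')
      refine ⟨Nat.find (hex i hi'), Finset.mem_range.mpr (by omega), ?_⟩
      rw [Finset.mem_image]
      refine ⟨A (Nat.find (hex i hi')) i G, Finset.mem_image.mpr ⟨i, ?_, rfl⟩,
        (hA1 i G (hex i hi')).symm⟩
      exact Finset.mem_filter.mpr ⟨hi, Nat.find_spec (hex i hi')⟩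
    calc _ ≤ _ := Finset.card_le_card hsub
      _ ≤ _ := Finset.card_biUnion_le
      _ ≤ ∑ i ∈ Finset.range (k + 1), N i := by
        apply Finset.sum_le_sum
        intro k' _
        refine le_trans Finset.card_image_le ((h k').card_filter G _ ?_)
        intro i hi
        exact (Finset.mem_filter.mp hi).2

end H7.Online
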