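import Pool.Agent.H7.Online.RankAlg
import Pool.Agent.H7.Online.Wqo

/-!
Graphs of bounded merging rank without long induced paths are on-line `χ`-bounded.
-/

namespace H7.Online

/-- every graph with a set of large rank has a long induced path, a large half graph or a large
clique -/
def RankBdd : Prop := ∀ n t k : ℕ, ∃ R : ℕ, ∀ (V : Type) (G : SimpleGraph V) (D : Set V),
  Rk G R D → HasPath G n ∨ HasHalfGraph G t ∨ HasClique G k

theorem Conn.induce {V : Type} {G : SimpleGraph V} {T D : Set V} (h : Conn G D) (hD : D ⊆ T) :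
    Conn (G.induce T) (Subtype.val ⁻¹' D) := by
  obtain ⟨⟨d, hd⟩, h2⟩ := h
  refine ⟨⟨⟨d, hD hd⟩, hd⟩, ?_⟩
  intro a ha b hb
  have key : ∀ c, Relation.ReflTransGen (fun u v => G.Adj u v ∧ v ∈ D) a.1 c →
      ∃ hc : c ∈ T, c ∈ D ∧ Relation.ReflTransGen
        (fun u v => (G.induce T).Adj u v ∧ v ∈ (Subtype.val ⁻¹' D : Set T)) a ⟨c, hc⟩ := by
    intro c hc
    induction hc with
    | refl => exact ⟨a.2, ha, Relation.ReflTransGen.refl⟩
    | tail _ h2 ih =>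
      obtain ⟨h3, h4, h5⟩ := ih
      exact ⟨hD h2.2, h2.2, h5.tail ⟨h2.1, h2.2⟩⟩
  obtain ⟨_, _, h5⟩ := key b.1 (h2 a.1 ha b.1 hb)
  exact h5

theorem Rk.induce {V : Type} {G : SimpleGraph V} {T : Set V} {r : ℕ} : ∀ {D : Set V},
    Rk G r D → D ⊆ T → Rk (G.induce T) r (Subtype.val ⁻¹' D) := by
  induction r with
  | zero => intro D h hD; exact Conn.induce h hD
  | succ r ih =>
    rintro D ⟨hc, s1, s2, h1, h2, h3, h4, h5⟩ hD
    refine ⟨hc.induce hD, Subtype.val ⁻¹' s1, Subtype.val ⁻¹' s2, Set.preimage_mono h1,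
      Set.preimage_mono h2, ?_, ih h4 (h1.trans hD), ih h5 (h2.trans hD)⟩
    intro a ha b hb
    have := h3 a.1 ha b.1 hb
    exact ⟨fun h => this.1 (congrArg Subtype.val h), fun h => this.2 h⟩

theorem loc_triv : Loc (fun _ _ v => v) := fun _ _ _ _ _ _ _ => rfl

theorem prp_triv : Prp (fun _ _ v => v) := fun _ _ _ _ _ _ huv _ => by
  dsimp only
  omega

theorem alg_exists (hRB : RankBdd) (n t k : ℕ) : ∃ (A : SA) (N : ℕ), Loc A ∧ Prp A ∧
    ∀ (G : SimpleGraph ℕ) (S : Set ℕ) (v : ℕ), v ∈ S → Cls n t k G (Up S v) → A G S v < N := by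
  induction k with
  | zero =>
    refine ⟨_, 0, loc_triv, prp_triv, ?_⟩
    intro G S v _ hC
    exfalso
    exact hC.2.2 ⟨Fin.elim0, fun i => i.elim0⟩
  | succ k ih =>
    obtain ⟨A1, N1, hL1, hP1, hB1⟩ := ih
    obtain ⟨R, hR⟩ := hRB n t (k + 1)
    have key : ∀ ρ : ℕ, ∃ (A : SA) (N : ℕ), Loc A ∧ Prp A ∧
        ∀ (G : SimpleGraph ℕ) (S : Set ℕ) (v : ℕ), v ∈ S → Cls n t (k + 1) G (Up S v) →
          ¬ Rk G ρ (Kc G S v) → A G S v < N := by
      intro ρ
      induction ρ with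
      | zero =>
        refine ⟨_, 0, loc_triv, prp_triv, ?_⟩
        intro G S v hv _ h
        exact absurd (conn_Kc hv) h
      | succ ρ ihρ =>
        obtain ⟨A2, N2, hL2, hP2, hB2⟩ := ihρ
        exact ⟨Alg A1 A2 n ρ, 3 * N2 + 3 * Nb N1 N2 n + 1, Alg_loc hL1 hL2 n ρ, Alg_prp hP1 hP2 n ρ,
          fun G S v hv hC hρ => Alg_bound (hB1 G) (hB2 G) S v hv hC hρ⟩
    obtain ⟨A, N, hL, hP, hB⟩ := key R
    refine ⟨A, N, hL, hP, fun G S v hv hC => hB G S v hv hC ?_⟩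
    intro h
    rcases hR _ _ _ (h.induce (Kc_sub hv)) with h1 | h1 | h1
    · exact hC.1 h1
    · exact hC.2.1 h1
    · exact hC.2.2 h1

/-- the embedding of an initial segment of the presented graph -/
theorem cls_of_presents {n t k m : ℕ} {H : SimpleGraph (Fin m)} {G : SimpleGraph ℕ}
    {σ : Fin m ≃ Fin m} (h : ∀ i j : Fin m, G.Adj (i : ℕ) (j : ℕ) ↔ H.Adj (σ i) (σ j))
    (hn : ¬ HasPath H n) (ht : ¬ HasHalfGraph H t) (hk : ¬ HasClique H k) {v : ℕ} (hv : v < m) :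
    Cls n t k G (Up Set.univ v) := by
  let e : G.induce (Up Set.univ v) ↪g H :=
    { toFun := fun x => σ ⟨x.1, lt_of_le_of_lt x.2.2 hv⟩
      inj' := fun x y hxy => by
        have h1 := σ.injective hxy
        have h2 := congrArg Fin.val h1
        exact Subtype.ext h2
      map_rel_iff' := by
        intro x y
        exact (h ⟨x.1, lt_of_le_of_lt x.2.2 hv⟩ ⟨y.1, lt_of_le_of_lt y.2.2 hv⟩).symm }
  exact ⟨fun h' => hn (h'.map e), fun h' => ht (h'.map e), fun h' => hk (h'.map e)⟩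

theorem online_of_alg {A : SA} (hL : Loc A) (hP : Prp A) : IsOnline (fun n G => A G Set.univ n) := by
  constructor
  · intro n G G' h
    exact hL G G' _ _ n (Set.mem_univ _) ⟨fun _ _ => Iff.rfl, fun i _ j _ hi hj => h i j hi hj⟩
  · intro G i j hij hadj
    exact hP G _ i j (Set.mem_univ _) (Set.mem_univ _) hij hadj

theorem handles_class (hRB : RankBdd) (n t k : ℕ) : ∃ (N : ℕ) (A : ℕ → SimpleGraph ℕ → ℕ),
    Handles A {X : FG | ¬ HasPath X.2 n ∧ ¬ HasHalfGraph X.2 t ∧ ¬ HasClique X.2 k} N := by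
  classical
  obtain ⟨A, N, hL, hP, hB⟩ := alg_exists hRB n t k
  refine ⟨N, fun i G => A G Set.univ i, handles_of_uses (online_of_alg hL hP) ?_⟩
  rintro ⟨m, H⟩ ⟨h1, h2, h3⟩ G σ hσ
  have hsub : (Finset.range m).image (fun i => A G Set.univ i) ⊆ Finset.range N := by
    intro c hc
    rw [Finset.mem_image] at hc
    obtain ⟨i, hi, rfl⟩ := hc
    rw [Finset.mem_range] at hi ⊢
    exact hB G Set.univ i (Set.mem_univ _) (cls_of_presents hσ h1 h2 h3 hi)
  have := Finset.card_le_card hsub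
  rwa [Finset.card_range] at this

theorem main_of_rankBdd (hRB : RankBdd) : ∃ (A : ℕ → SimpleGraph ℕ → ℕ) (f : ℕ → ℕ → ℕ → ℕ),
    IsOnline A ∧ ∀ (n t k m : ℕ) (H : SimpleGraph (Fin m)), ¬ HasPath H n → ¬ HasHalfGraph H t →
      ¬ HasClique H k → UsesAtMost A H (f n t k) := by
  choose N A hA using fun i : ℕ =>
    handles_class hRB (Nat.unpair i).1 (Nat.unpair (Nat.unpair i).2).1 (Nat.unpair (Nat.unpair i).2).2
  obtain ⟨A', hA1, hA2⟩ := combine hA
  refine ⟨A', fun n t k => ∑ i ∈ Finset.range (Nat.pair n (Nat.pair t k) + 1), N i, hA1, ?_⟩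
  intro n t k m H h1 h2 h3
  refine hA2 (Nat.pair n (Nat.pair t k)) ⟨m, H⟩ ?_
  simp only [Nat.unpair_pair, Set.mem_ofPred_eq]
  exact ⟨h1, h2, h3⟩

end H7.Online
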