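import Pool.Agent.H7.Online.Defs

/-!
Lower bounds for on-line algorithms: the forcing forests.
-/

namespace H7.Online

/-- the graph with edges `i — par i` for `i < par i` -/
def Fp (par : ℕ → ℕ) : SimpleGraph ℕ where
  Adj i j := (i < j ∧ par i = j) ∨ (j < i ∧ par j = i)
  symm := by
    constructor
    rintro i j (h | h)
    · exact Or.inr h
    · exact Or.inl h
  loopless := by
    constructor
    rintro i (h | h)
    · exact lt_irrefl _ h.1
    · exact lt_irrefl _ h.1

theorem Fp_adj {par : ℕ → ℕ} {i j : ℕ} :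
    (Fp par).Adj i j ↔ (i < j ∧ par i = j) ∨ (j < i ∧ par j = i) := Iff.rfl

/-- size of the forcing forests -/
def Sz : ℕ → ℕ
  | 0 => 0
  | k + 1 => 2 * Sz k + 1

theorem loc {B : ℕ → SimpleGraph ℕ → ℕ} (hB : IsOnline B) {par par' : ℕ → ℕ} {n : ℕ}
    (h : ∀ i < n, par i = par' i ∨ (par i = 0 ∧ n ≤ par' i)) :
    ∀ r < n, B r (Fp par) = B r (Fp par') := by
  have key : ∀ i j, i < j → j < n → (par i = j ↔ par' i = j) := by
    intro i j hij hj
    rcases h i (by omega) with h1 | ⟨h1, h2⟩
    · rw [h1]
    · constructor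
      · intro h3; omega
      · intro h3; omega
  intro r hr
  apply hB.1
  intro i j hi hj
  rw [Fp_adj, Fp_adj]
  constructor
  · rintro (⟨h1, h2⟩ | ⟨h1, h2⟩)
    · exact Or.inl ⟨h1, (key i j h1 (by omega)).mp h2⟩
    · exact Or.inr ⟨h1, (key j i h1 (by omega)).mp h2⟩
  · rintro (⟨h1, h2⟩ | ⟨h1, h2⟩)
    · exact Or.inl ⟨h1, (key i j h1 (by omega)).mpr h2⟩
    · exact Or.inr ⟨h1, (key j i h1 (by omega)).mpr h2⟩

theorem force {B : ℕ → SimpleGraph ℕ → ℕ} (hB : IsOnline B) (k : ℕ) : ∀ (par0 : ℕ → ℕ) (n0 : ℕ),
    ∃ (par : ℕ → ℕ) (n1 : ℕ) (A : Finset ℕ), n0 ≤ n1 ∧ n1 ≤ n0 + Sz k ∧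
      (∀ i < n0, par i = par0 i) ∧
      (∀ i, n0 ≤ i → i < n1 → par i = 0 ∨ (i < par i ∧ par i < n1)) ∧
      (∀ r ∈ A, n0 ≤ r ∧ r < n1 ∧ par r = 0) ∧ A.card = k ∧
      ∀ r ∈ A, ∀ r' ∈ A, B r (Fp par) = B r' (Fp par) → r = r' := by
  classical
  induction k with
  | zero =>
    intro par0 n0
    refine ⟨par0, n0, ∅, le_rfl, by simp, fun _ _ => rfl, ?_, by simp, rfl, by simp⟩
    intro i h1 h2
    omega
  | succ k ih =>
    intro par0 n0
    obtain ⟨par1, n1, A, a1, a2, a3, a4, a5, a6, a7⟩ := ih par0 n0
    obtain ⟨par2, n2, A', b1, b2, b3, b4, b5, b6, b7⟩ := ih par1 n1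
    have hS : Sz (k + 1) = 2 * Sz k + 1 := rfl
    have hloc1 : ∀ r ∈ A, B r (Fp par1) = B r (Fp par2) := by
      intro r hr
      exact loc hB (n := n1) (fun i hi => Or.inl (b3 i hi).symm) r (a5 r hr).2.1
    by_cases hcase : ∃ r' ∈ A', ∀ r ∈ A, B r (Fp par2) ≠ B r' (Fp par2)
    · obtain ⟨r', hr', hne⟩ := hcase
      have hr'A : r' ∉ A := fun h => by
        have h1 := (a5 r' h).2.1
        have h2 := (b5 r' hr').1
        omega
      refine ⟨par2, n2, insert r' A, by omega, by omega, ?_, ?_, ?_, ?_, ?_⟩
      · intro i hi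
        rw [b3 i (by omega), a3 i hi]
      · intro i h1 h2
        by_cases h3 : i < n1
        · rw [b3 i h3]
          rcases a4 i h1 h3 with h4 | ⟨h4, h5⟩
          · exact Or.inl h4
          · exact Or.inr ⟨h4, by omega⟩
        · exact b4 i (by omega) h2
      · intro r hr
        rw [Finset.mem_insert] at hr
        rcases hr with rfl | hr
        · obtain ⟨h1, h2, h3⟩ := b5 _ hr'
          exact ⟨by omega, h2, h3⟩
        · obtain ⟨h1, h2, h3⟩ := a5 r hr
          exact ⟨h1, by omega, by rw [b3 r h2, h3]⟩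
      · rw [Finset.card_insert_of_notMem hr'A, a6]
      · intro r hr s hs hrs
        rw [Finset.mem_insert] at hr hs
        rcases hr with rfl | hr <;> rcases hs with rfl | hs
        · rfl
        · exact absurd hrs.symm (hne s hs)
        · exact absurd hrs (hne r hr)
        · rw [← hloc1 r hr, ← hloc1 s hs] at hrs
          exact a7 r hr s hs hrs
    · -- the two colour sets coincide
      push Not at hcase
      set par3 : ℕ → ℕ := fun i => if i ∈ A then n2 else if i = n2 then 0 else par2 i with hpar3
      have hp3 : ∀ i, i ∉ A → i ≠ n2 → par3 i = par2 i := by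
        intro i h1 h2
        simp only [hpar3, if_neg h1, if_neg h2]
      have hn2A : n2 ∉ A := fun h => by
        have := (a5 n2 h).2.1
        omega
      have hp3n : par3 n2 = 0 := by
        simp only [hpar3, if_neg hn2A, if_true]
      have hp3A : ∀ i ∈ A, par3 i = n2 := by
        intro i hi
        simp only [hpar3, if_pos hi]
      have hloc2 : ∀ r, r < n2 → B r (Fp par2) = B r (Fp par3) := by
        refine loc hB (fun i hi => ?_)
        by_cases h1 : i ∈ A
        · right
          obtain ⟨h2, h3, h4⟩ := a5 i h1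
          exact ⟨by rw [b3 i h3, h4], by rw [hp3A i h1]⟩
        · left
          rw [hp3 i h1 (by omega)]
      have hnA' : n2 ∉ A' := fun h => by
        have := (b5 n2 h).2.1
        omega
      have hcol : ∀ r' ∈ A', B r' (Fp par3) ≠ B n2 (Fp par3) := by
        intro r' hr' heq
        obtain ⟨r, hr, hrr⟩ := hcase r' hr'
        have h1 := (a5 r hr).2.1
        have h2 := (b5 r' hr').2.1
        have hadj : (Fp par3).Adj r n2 := Or.inl ⟨by omega, hp3A r hr⟩
        apply hB.2 (Fp par3) r n2 (by omega) hadj
        rw [← heq, ← hloc2 r (by omega), ← hloc2 r' h2, hrr]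
      refine ⟨par3, n2 + 1, insert n2 A', by omega, by omega, ?_, ?_, ?_, ?_, ?_⟩
      · intro i hi
        have h1 : i ∉ A := fun h => by
          have := (a5 i h).1
          omega
        rw [hp3 i h1 (by omega), b3 i (by omega), a3 i hi]
      · intro i h1 h2
        by_cases h3 : i ∈ A
        · right
          rw [hp3A i h3]
          have := (a5 i h3).2.1
          exact ⟨by omega, by omega⟩
        · by_cases h4 : i = n2
          · left
            rw [h4]
            exact hp3n
          · rw [hp3 i h3 h4]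
            by_cases h5 : i < n1
            · rw [b3 i h5]
              rcases a4 i h1 h5 with h6 | ⟨h6, h7⟩
              · exact Or.inl h6
              · exact Or.inr ⟨h6, by omega⟩
            · rcases b4 i (by omega) (by omega) with h6 | ⟨h6, h7⟩
              · exact Or.inl h6
              · exact Or.inr ⟨h6, by omega⟩
      · intro r hr
        rw [Finset.mem_insert] at hr
        rcases hr with rfl | hr
        · exact ⟨by omega, by omega, hp3n⟩
        · obtain ⟨h1, h2, h3⟩ := b5 r hr
          have h4 : r ∉ A := fun h => by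
            have := (a5 r h).2.1
            omega
          exact ⟨by omega, by omega, by rw [hp3 r h4 (by omega), h3]⟩
      · rw [Finset.card_insert_of_notMem hnA', b6]
      · intro r hr s hs hrs
        rw [Finset.mem_insert] at hr hs
        rcases hr with rfl | hr <;> rcases hs with rfl | hs
        · rfl
        · exact absurd hrs.symm (hcol s hs)
        · exact absurd hrs (hcol r hr)
        · rw [← hloc2 r (b5 r hr).2.1, ← hloc2 s (b5 s hs).2.1] at hrs
          exact b7 r hr s hs hrs

/-- An induced copy of the first `s` vertices of `G'` in `H` can be presented first. -/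
theorem present {m s : ℕ} {H : SimpleGraph (Fin m)} {G' : SimpleGraph ℕ} {f : ℕ → Fin m}
    (hinj : ∀ i < s, ∀ j < s, f i = f j → i = j)
    (hadj : ∀ i < s, ∀ j < s, (H.Adj (f i) (f j) ↔ G'.Adj i j)) :
    s ≤ m ∧ ∃ (G : SimpleGraph ℕ) (σ : Fin m ≃ Fin m),
      (∀ i j : Fin m, G.Adj (i : ℕ) (j : ℕ) ↔ H.Adj (σ i) (σ j)) ∧
      ∀ B : ℕ → SimpleGraph ℕ → ℕ, IsOnline B → ∀ i < s, B i G = B i G' := by
  classical
  have hsm : s ≤ m := by
    have h1 : ((Finset.range s).image f).card = s := by
      rw [Finset.card_image_of_injOn, Finset.card_range]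
      intro i hi j hj hij
      simp only [Finset.coe_range, Set.mem_Iio] at hi hj
      exact hinj i hi j hj hij
    have h2 := Finset.card_le_univ ((Finset.range s).image f)
    rw [h1, Fintype.card_fin] at h2
    exact h2
  refine ⟨hsm, ?_⟩
  obtain ⟨g, hg⟩ := Finset.exists_equiv_extend_of_card_eq (α := Fin m) (β := Fin m)
    (t := Finset.univ) (by simp) (s := Finset.univ.filter (fun i : Fin m => (i : ℕ) < s))
    (f := fun i => f i) (by simp) (by
      intro i hi j hj hij
      simp only [Finset.coe_filter, Finset.mem_univ, true_and, Set.mem_ofPred_eq] at hi hj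
      exact Fin.ext (hinj i hi j hj hij))
  let σ : Fin m ≃ Fin m := g.trans (Equiv.subtypeUnivEquiv (fun x => Finset.mem_univ x))
  have hσ : ∀ i : Fin m, (i : ℕ) < s → σ i = f i := by
    intro i hi
    exact hg i (by simp [hi])
  let G : SimpleGraph ℕ :=
    { Adj := fun i j => ∃ (hi : i < m) (hj : j < m), H.Adj (σ ⟨i, hi⟩) (σ ⟨j, hj⟩)
      symm := by
        constructor
        rintro i j ⟨hi, hj, h⟩
        exact ⟨hj, hi, h.symm⟩
      loopless := by
        constructor
        rintro i ⟨hi, hj, h⟩
        exact H.loopless.irrefl _ h }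
  refine ⟨G, σ, ?_, ?_⟩
  · intro i j
    constructor
    · rintro ⟨hi, hj, h⟩
      exact h
    · intro h
      exact ⟨i.2, j.2, h⟩
  · intro B hB i hi
    apply hB.1
    intro a b ha hb
    rw [← hadj a (by omega) b (by omega)]
    constructor
    · rintro ⟨h1, h2, h⟩
      rw [hσ ⟨a, h1⟩ (show a < s by omega), hσ ⟨b, h2⟩ (show b < s by omega)] at h
      exact h
    · intro h
      refine ⟨by omega, by omega, ?_⟩
      rw [hσ ⟨a, _⟩ (show a < s by omega), hσ ⟨b, _⟩ (show b < s by omega)]
      exact h

/-- A clique with `k + 1` vertices forces `k + 1` colours. -/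
theorem no_clique_of_usesAtMost {m k : ℕ} {H : SimpleGraph (Fin m)}
    {B : ℕ → SimpleGraph ℕ → ℕ} (hB : IsOnline B) (hk : UsesAtMost B H k) :
    ¬ HasClique H (k + 1) := by
  classical
  rintro ⟨a, ha⟩
  have hinj : ∀ i j : Fin (k + 1), a i = a j → i = j := by
    intro i j hij
    by_contra hne
    have := ha i j hne
    rw [hij] at this
    exact H.loopless.irrefl _ this
  let f : ℕ → Fin m := fun i => if h : i < k + 1 then a ⟨i, h⟩ else a 0
  have hf : ∀ i (h : i < k + 1), f i = a ⟨i, h⟩ := fun i h => by simp only [f, dif_pos h]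
  obtain ⟨hsm, G, σ, h1, h2⟩ := present (s := k + 1) (H := H) (G' := ⊤) (f := f) (by
      intro i hi j hj hij
      rw [hf i hi, hf j hj] at hij
      have := hinj _ _ hij
      simpa using this) (by
      intro i hi j hj
      rw [hf i hi, hf j hj, SimpleGraph.top_adj]
      constructor
      · rintro h rfl
        exact H.loopless.irrefl _ h
      · intro h
        exact ha _ _ (fun hh => h (by simpa using hh)))
  have h3 := hk G σ h1
  have h4 : ((Finset.range (k + 1)).image (fun i => B i G)).card = k + 1 := by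
    rw [Finset.card_image_of_injOn, Finset.card_range]
    intro i hi j hj hij
    simp only [Finset.coe_range, Set.mem_Iio] at hi hj
    dsimp only at hij
    rw [h2 B hB i hi, h2 B hB j hj] at hij
    by_contra hne
    rcases Nat.lt_or_gt_of_ne hne with h5 | h5
    · exact hB.2 ⊤ i j h5 (by simpa using hne) hij
    · exact hB.2 ⊤ j i h5 (by simpa using Ne.symm hne) hij.symm
  have h5 : ((Finset.range (k + 1)).image (fun i => B i G)).card ≤
      ((Finset.range m).image (fun i => B i G)).card :=
    Finset.card_le_card (Finset.image_subset_image (Finset.range_mono hsm))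
  omega

/-- the path from `i` to its root -/
def path (s : ℕ) (par : ℕ → ℕ) (i : ℕ) : List ℕ :=
  if _h : i < par i ∧ par i < s then i :: path s par (par i) else [i]
termination_by s - i
decreasing_by omega

theorem path_eq (s : ℕ) (par : ℕ → ℕ) (i : ℕ) :
    path s par i = if i < par i ∧ par i < s then i :: path s par (par i) else [i] := by
  rw [path]
  split_ifs <;> rfl

theorem path_spec (s : ℕ) (par : ℕ → ℕ) : ∀ d i, s - i ≤ d → i < s →
    (path s par i).length ≤ s - i ∧ ∀ j ∈ path s par i, j < s := by
  intro d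
  induction d with
  | zero => intro i h1 h2; omega
  | succ d ih =>
    intro i h1 h2
    rw [path_eq]
    split_ifs with h
    · obtain ⟨h3, h4⟩ := ih (par i) (by omega) h.2
      refine ⟨?_, ?_⟩
      · simp only [List.length_cons]
        omega
      · intro j hj
        rw [List.mem_cons] at hj
        rcases hj with rfl | hj
        · exact h2
        · exact h4 j hj
    · refine ⟨by simp; omega, ?_⟩
      intro j hj
      rw [List.mem_singleton] at hj
      rw [hj]
      exact h2

theorem path_head (s : ℕ) (par : ℕ → ℕ) (i : ℕ) : ∃ l, path s par i = i :: l := by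
  rw [path_eq]
  split_ifs with h
  · exact ⟨_, rfl⟩
  · exact ⟨_, rfl⟩

theorem path_ne_nil (s : ℕ) (par : ℕ → ℕ) (i : ℕ) : path s par i ≠ [] := by
  obtain ⟨l, hl⟩ := path_head s par i
  rw [hl]
  simp

/-- An induced copy of the large complete tree forces more than `k` colours. -/
theorem no_tree_of_usesAtMost {m k : ℕ} {H : SimpleGraph (Fin m)}
    {B : ℕ → SimpleGraph ℕ → ℕ} (hB : IsOnline B) (hk : UsesAtMost B H k) (e : List ℕ → Fin m)
    (he : ∀ v w : List ℕ, (v.length ≤ Sz (k + 1) + 1 ∧ ∀ j ∈ v, j < Sz (k + 1) + 1) →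
      (w.length ≤ Sz (k + 1) + 1 ∧ ∀ j ∈ w, j < Sz (k + 1) + 1) →
      (H.Adj (e v) (e w) ↔ (∃ k, v = k :: w) ∨ (∃ k, w = k :: v))) : False := by
  classical
  obtain ⟨par, s, A, a1, a2, a3, a4, a5, a6, a7⟩ := force hB (k + 1) (fun _ => 0) 0
  have hval : ∀ i < s, ((path s par i).length ≤ Sz (k + 1) + 1 ∧
      ∀ j ∈ path s par i, j < Sz (k + 1) + 1) := by
    intro i hi
    obtain ⟨h1, h2⟩ := path_spec s par (s - i) i le_rfl hi
    exact ⟨by omega, fun j hj => by have := h2 j hj; omega⟩
  have hadj : ∀ i < s, ∀ j < s, (H.Adj (e (path s par i)) (e (path s par j)) ↔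
      (Fp par).Adj i j) := by
    intro i hi j hj
    rw [he _ _ (hval i hi) (hval j hj), Fp_adj]
    have key : ∀ i < s, ∀ j < s, ((∃ k, path s par i = k :: path s par j) ↔
        (i < j ∧ par i = j)) := by
      intro i hi j hj
      constructor
      · rintro ⟨k, hk⟩
        rw [path_eq] at hk
        split_ifs at hk with h
        · have h1 := (List.cons.inj hk).2
          obtain ⟨l, hl⟩ := path_head s par (par i)
          obtain ⟨l', hl'⟩ := path_head s par j
          rw [hl, hl'] at h1
          have h2 := (List.cons.inj h1).1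
          exact ⟨by omega, h2⟩
        · have h1 := (List.cons.inj hk).2
          exact absurd h1.symm (path_ne_nil _ _ _)
      · rintro ⟨h1, h2⟩
        refine ⟨i, ?_⟩
        rw [path_eq s par i, if_pos ⟨by omega, by omega⟩, h2]
    rw [key i hi j hj, key j hj i hi]
  have hinj : ∀ i < s, ∀ j < s, e (path s par i) = e (path s par j) → i = j := by
    intro i hi j hj hij
    obtain ⟨h1, h2⟩ := path_spec s par (s - i) i le_rfl hi
    obtain ⟨h1', h2'⟩ := path_spec s par (s - j) j le_rfl hj
    have hv : ((s :: path s par i).length ≤ Sz (k + 1) + 1 ∧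
        ∀ j ∈ s :: path s par i, j < Sz (k + 1) + 1) := by
      refine ⟨by simp; omega, ?_⟩
      intro j hj
      rw [List.mem_cons] at hj
      rcases hj with rfl | hj
      · omega
      · have := h2 j hj; omega
    have h3 : H.Adj (e (s :: path s par i)) (e (path s par i)) :=
      (he _ _ hv (hval i hi)).mpr (Or.inl ⟨s, rfl⟩)
    rw [hij] at h3
    rcases (he _ _ hv (hval j hj)).mp h3 with ⟨k, hk⟩ | ⟨k, hk⟩
    · have h4 := (List.cons.inj hk).2
      obtain ⟨l, hl⟩ := path_head s par i
      obtain ⟨l', hl'⟩ := path_head s par j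
      rw [hl, hl'] at h4
      exact (List.cons.inj h4).1
    · have h4 := h2' s (by rw [hk]; simp)
      exact absurd h4 (lt_irrefl _)
  obtain ⟨hsm, G, σ, b1, b2⟩ := present (f := fun i => e (path s par i)) hinj hadj
  have h3 := hk G σ b1
  have h4 : (A.image (fun i => B i G)).card = k + 1 := by
    rw [Finset.card_image_of_injOn, a6]
    intro i hi j hj hij
    dsimp only at hij
    rw [b2 B hB i (a5 i hi).2.1, b2 B hB j (a5 j hj).2.1] at hij
    exact a7 i hi j hj hij
  have h5 : (A.image (fun i => B i G)).card ≤ ((Finset.range m).image (fun i => B i G)).card := by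
    apply Finset.card_le_card
    apply Finset.image_subset_image
    intro i hi
    rw [Finset.mem_range]
    have := (a5 i hi).2.1
    omega
  omega

end H7.Online
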