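import Mathlib

/-!
Ascending lists of natural numbers lying in an interval.
-/

namespace H7.Online

/-- `A` is strictly ascending with all its elements in `[lo, hi)` (and `lo ≤ hi`). -/
def Seg : ℕ → ℕ → List ℕ → Prop
  | lo, hi, [] => lo ≤ hi
  | lo, hi, i :: l => lo ≤ i ∧ i < hi ∧ Seg (i + 1) hi l

theorem Seg.le {lo hi : ℕ} {A : List ℕ} (h : Seg lo hi A) : lo ≤ hi := by
  cases A with
  | nil => exact h
  | cons i l => exact le_trans h.1 h.2.1.le

theorem Seg.mono {lo hi lo' hi' : ℕ} {A : List ℕ} (h : Seg lo hi A) (h1 : lo' ≤ lo)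
    (h2 : hi ≤ hi') : Seg lo' hi' A := by
  induction A generalizing lo lo' with
  | nil => exact (h1.trans h).trans h2
  | cons i l ih => exact ⟨h1.trans h.1, lt_of_lt_of_le h.2.1 h2, ih h.2.2 le_rfl⟩

theorem Seg.append {lo mid hi : ℕ} {A B : List ℕ} (h1 : Seg lo mid A) (h2 : Seg mid hi B) :
    Seg lo hi (A ++ B) := by
  induction A generalizing lo with
  | nil => exact h2.mono h1 le_rfl
  | cons i l ih =>
    refine ⟨h1.1, ?_, ih h1.2.2⟩
    exact lt_of_lt_of_le h1.2.1 h2.le

theorem Seg.cons {lo hi i : ℕ} {l : List ℕ} (h1 : lo ≤ i) (h2 : Seg (i + 1) hi l) :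
    Seg lo hi (i :: l) := ⟨h1, h2.le, h2⟩

theorem seg_range' (s len : ℕ) : Seg s (s + len) (List.range' s len) := by
  induction len generalizing s with
  | zero => exact le_rfl
  | succ n ih =>
    rw [List.range'_succ]
    refine ⟨le_rfl, by omega, ?_⟩
    have := ih (s + 1)
    exact this.mono le_rfl (by omega)

theorem seg_range'_of {lo hi s len : ℕ} (h1 : lo ≤ s) (h2 : s + len ≤ hi) :
    Seg lo hi (List.range' s len) := (seg_range' s len).mono h1 h2

theorem Seg.pairwise {lo hi : ℕ} {A : List ℕ} (h : Seg lo hi A) :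
    A.Pairwise (· < ·) ∧ ∀ x ∈ A, lo ≤ x ∧ x < hi := by
  induction A generalizing lo with
  | nil => simp
  | cons i l ih =>
    obtain ⟨h1, h2, h3⟩ := h
    obtain ⟨h4, h5⟩ := ih h3
    refine ⟨?_, ?_⟩
    · rw [List.pairwise_cons]
      exact ⟨fun x hx => (h5 x hx).1, h4⟩
    · intro x hx
      rw [List.mem_cons] at hx
      rcases hx with rfl | hx
      · exact ⟨h1, h2⟩
      · exact ⟨by have := (h5 x hx).1; omega, (h5 x hx).2⟩

/-- An ascending list in `[lo, lo+m)` is a sublist of the full range. -/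
theorem Seg.sublist {lo m : ℕ} {A : List ℕ} (h : Seg lo (lo + m) A) :
    A.Sublist (List.range' lo m) := by
  induction m generalizing lo A with
  | zero =>
    cases A with
    | nil => simp
    | cons i l => exact absurd h.2.1 (by have := h.1; omega)
  | succ m ih =>
    rw [List.range'_succ]
    cases A with
    | nil => simp
    | cons i l =>
      obtain ⟨h1, h2, h3⟩ := h
      rcases Nat.eq_or_lt_of_le h1 with h4 | h4
      · subst h4
        exact (ih (h3.mono le_rfl (by omega))).cons_cons _
      · refine (ih (lo := lo + 1) (A := i :: l) ?_).cons _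
        exact ⟨h4, by omega, h3.mono le_rfl (by omega)⟩

theorem Seg.sublist_range {n : ℕ} {A : List ℕ} (h : Seg 0 n A) :
    A.Sublist (List.range n) := by
  rw [List.range_eq_range']
  exact Seg.sublist (by simpa using h)

theorem seg_of_pairwise {lo hi : ℕ} {A : List ℕ} (h : A.Pairwise (· < ·))
    (h2 : ∀ x ∈ A, lo ≤ x ∧ x < hi) (h3 : lo ≤ hi) : Seg lo hi A := by
  induction A generalizing lo with
  | nil => exact h3
  | cons i l ih =>
    rw [List.pairwise_cons] at h
    have hi' := h2 i (by simp)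
    refine ⟨hi'.1, hi'.2, ih h.2 ?_ hi'.2⟩
    intro x hx
    exact ⟨h.1 x hx, (h2 x (by simp [hx])).2⟩

theorem seg_of_sublist_range {n : ℕ} {A : List ℕ} (h : A.Sublist (List.range n)) :
    Seg 0 n A :=
  seg_of_pairwise (List.Pairwise.sublist h List.pairwise_lt_range)
    (fun x hx => ⟨Nat.zero_le _, by simpa using h.subset hx⟩) (Nat.zero_le _)

theorem Seg.of_append_right {lo hi : ℕ} {A B : List ℕ} (h : Seg lo hi (A ++ B)) :
    Seg lo hi B := by
  induction A generalizing lo with
  | nil => exact h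
  | cons i l ih => exact (ih h.2.2).mono (by have := h.1; omega) le_rfl

end H7.Online
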