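import Pool.Agent.H85.Blocks.Ramsey
import Pool.Agent.H7.Online.Seg

/-!
From a Grundy colouring with many colours to a homogeneous system of vertices indexed by
ascending lists.
-/

namespace H7.Online

/-- A Grundy (First-Fit) colouring: proper, and every vertex has neighbours of all the smaller
colours. -/
def Grundy {V : Type} (H : SimpleGraph V) (κ : V → ℕ) : Prop :=
  (∀ u v, H.Adj u v → κ u ≠ κ v) ∧ ∀ v, ∀ i < κ v, ∃ u, H.Adj u v ∧ κ u = i

/-- A homogeneous system of vertices indexed by ascending lists. -/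
structure Hom {V : Type} (H : SimpleGraph V) (n D : ℕ) where
  c : List ℕ → V
  P : ℕ → ℕ → ℕ → Prop
  Z : ℕ → ℕ → ℕ → Prop
  hP : ∀ α β ρ : List ℕ, Seg 0 n (α ++ (β ++ ρ)) → α.length + β.length + ρ.length ≤ 2 * D →
    (H.Adj (c (α ++ ρ)) (c (β ++ ρ)) ↔ P α.length β.length ρ.length)
  hZ : ∀ (i : ℕ) (β A ρ : List ℕ), Seg 0 n (i :: (β ++ (A ++ ρ))) →
    1 + β.length + A.length + ρ.length ≤ 2 * D →
    (H.Adj (c (i :: (A ++ ρ))) (c (β ++ ρ)) ↔ Z β.length A.length ρ.length)
  hcol : ∀ (i : ℕ) (l l' : List ℕ), Seg 0 n (i :: l) → Seg 0 n (i :: l') →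
    ¬ H.Adj (c (i :: l)) (c (i :: l'))
  hedge : ∀ (i : ℕ) (l : List ℕ), Seg 0 n (i :: l) → H.Adj (c (i :: l)) (c l)

theorem exists_hom (n D : ℕ) : ∃ N : ℕ, ∀ (V : Type) (H : SimpleGraph V) (κ : V → ℕ),
    Grundy H κ → ∀ v0, N ≤ κ v0 → Nonempty (Hom H n D) := by
  classical
  obtain ⟨N, hN⟩ := H85.Blocks.ramsey (2 * D)
    ((Fin (2 * D + 1) → Fin (2 * D + 1) → Fin (2 * D + 1) → Prop) ×
      (Fin (2 * D + 1) → Fin (2 * D + 1) → Fin (2 * D + 1) → Prop)) (2 * D + n)
  refine ⟨N, fun V H κ hκ v0 hv0 => ?_⟩
  have hnb : ∀ (v : V) (i : ℕ), ∃ u, i < κ v → H.Adj u v ∧ κ u = i := by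
    intro v i
    by_cases h : i < κ v
    · obtain ⟨u, hu⟩ := hκ.2 v i h
      exact ⟨u, fun _ => hu⟩
    · exact ⟨v, fun h' => absurd h' h⟩
  choose nb hnb using hnb
  let c0 : List ℕ → V := fun l => List.foldr (fun i v => nb v i) v0 l
  have c0cons : ∀ i l, c0 (i :: l) = nb (c0 l) i := fun i l => rfl
  have hlt : ∀ l i, Seg 0 N (i :: l) → i < κ (c0 l) := by
    intro l
    induction l with
    | nil => intro i h; exact lt_of_lt_of_le h.2.1 hv0
    | cons j l ih =>
      intro i h
      have h1 := h.2.2
      have h2 := ih j (h1.mono (Nat.zero_le _) le_rfl)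
      rw [c0cons, (hnb _ _ h2).2]
      have := h1.1
      omega
  have hc0κ : ∀ i l, Seg 0 N (i :: l) → κ (c0 (i :: l)) = i := fun i l h => by
    rw [c0cons]; exact (hnb _ _ (hlt l i h)).2
  have hc0adj : ∀ i l, Seg 0 N (i :: l) → H.Adj (c0 (i :: l)) (c0 l) := fun i l h => by
    rw [c0cons]; exact (hnb _ _ (hlt l i h)).1
  let χ : List ℕ → ((Fin (2 * D + 1) → Fin (2 * D + 1) → Fin (2 * D + 1) → Prop) ×
      (Fin (2 * D + 1) → Fin (2 * D + 1) → Fin (2 * D + 1) → Prop)) := fun U =>
    (fun p q r =>
      H.Adj (c0 ((U.drop (2 * D - (p + q + r))).take p ++ (U.drop (2 * D - (p + q + r))).drop (p + q)))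
        (c0 (((U.drop (2 * D - (p + q + r))).drop p).take q ++
          (U.drop (2 * D - (p + q + r))).drop (p + q))),
     fun q a r =>
      H.Adj (c0 ((U.drop (2 * D - (1 + q + a + r))).take 1 ++
          (U.drop (2 * D - (1 + q + a + r))).drop (1 + q)))
        (c0 (((U.drop (2 * D - (1 + q + a + r))).drop 1).take q ++
          (U.drop (2 * D - (1 + q + a + r))).drop (1 + q + a))))
  obtain ⟨L, hLs, hLl, hLh⟩ := hN ℕ χ (List.range N) (by simp)
  let g : ℕ → ℕ := fun i => L.getD (2 * D + i) 0
  have hmapg : (List.range n).map g = L.drop (2 * D) := by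
    apply List.ext_getElem
    · simp [hLl]
    · intro i h1 h2
      simp only [List.length_map, List.length_range] at h1
      simp only [List.getElem_map, List.getElem_range, List.getElem_drop, g]
      rw [List.getD_eq_getElem _ _ (by omega)]
  have hsubL : ∀ l, Seg 0 n l → ∀ j, (L.take (min j (2 * D)) ++ l.map g).Sublist L := by
    intro l hl j
    have h1 : (l.map g).Sublist (L.drop (2 * D)) := by
      rw [← hmapg]
      exact hl.sublist_range.map g
    have h2 : (L.take (min j (2 * D))).Sublist (L.take (2 * D)) :=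
      List.take_sublist_take_left (min_le_right _ _)
    have h3 := h2.append h1
    rwa [List.take_append_drop] at h3
  have hsegmap : ∀ l, Seg 0 n l → Seg 0 N (l.map g) := by
    intro l hl
    have h := hsubL l hl 0
    simp only [Nat.zero_min, List.take_zero, List.nil_append] at h
    exact seg_of_sublist_range (h.trans hLs)
  have hχ : ∀ l, Seg 0 n l → l.length ≤ 2 * D →
      χ (L.take (2 * D - l.length) ++ l.map g) = χ (L.take (2 * D)) := by
    intro l hl hlen
    apply hLh
    · have h := hsubL l hl (2 * D - l.length)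
      rwa [min_eq_left (by omega)] at h
    · exact List.take_sublist _ _
    · simp [hLl]; omega
    · simp [hLl]
  have hdrop : ∀ l : List ℕ, l.length ≤ 2 * D →
      (L.take (2 * D - l.length) ++ l.map g).drop (2 * D - l.length) = l.map g := by
    intro l hlen
    exact List.drop_left' (by simp [hLl]; omega)
  refine ⟨⟨fun l => c0 (l.map g),
    fun p q r => ∃ h : p + q + r ≤ 2 * D, (χ (L.take (2 * D))).1 ⟨p, by omega⟩ ⟨q, by omega⟩
      ⟨r, by omega⟩,
    fun q a r => ∃ h : 1 + q + a + r ≤ 2 * D, (χ (L.take (2 * D))).2 ⟨q, by omega⟩ ⟨a, by omega⟩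
      ⟨r, by omega⟩, ?_, ?_, ?_, ?_⟩⟩
  · intro α β ρ hseg hlen
    have hl : (α ++ (β ++ ρ)).length ≤ 2 * D := by simp; omega
    have h1 := hχ _ hseg hl
    have h2 := hdrop _ hl
    have hlen' : (α ++ (β ++ ρ)).length = α.length + β.length + ρ.length := by simp; omega
    rw [hlen'] at h1 h2
    have h3 : (H.Adj (c0 ((α ++ ρ).map g)) (c0 ((β ++ ρ).map g))) =
        (χ (L.take (2 * D - (α.length + β.length + ρ.length)) ++ (α ++ (β ++ ρ)).map g)).1
          ⟨α.length, by omega⟩ ⟨β.length, by omega⟩ ⟨ρ.length, by omega⟩ := by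
      simp only [χ]
      rw [h2]
      simp only [List.map_append]
      have e1 : List.take α.length (List.map g α ++ (List.map g β ++ List.map g ρ)) =
          List.map g α := List.take_left' (by simp)
      have e2 : List.drop α.length (List.map g α ++ (List.map g β ++ List.map g ρ)) =
          List.map g β ++ List.map g ρ := List.drop_left' (by simp)
      have e3 : List.drop (α.length + β.length) (List.map g α ++ (List.map g β ++ List.map g ρ)) =
          List.map g ρ := by
        rw [← List.append_assoc]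
        exact List.drop_left' (by simp)
      have e4 : List.take β.length (List.map g β ++ List.map g ρ) = List.map g β :=
        List.take_left' (by simp)
      rw [e1, e2, e3, e4]
    rw [h3, h1]
    constructor
    · intro h; exact ⟨hlen, h⟩
    · rintro ⟨_, h⟩; exact h
  · intro i β A ρ hseg hlen
    have hl : (i :: (β ++ (A ++ ρ))).length ≤ 2 * D := by simp; omega
    have h1 := hχ _ hseg hl
    have h2 := hdrop _ hl
    have hlen' : (i :: (β ++ (A ++ ρ))).length = 1 + β.length + A.length + ρ.length := by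
      simp; omega
    rw [hlen'] at h1 h2
    have h3 : (H.Adj (c0 ((i :: (A ++ ρ)).map g)) (c0 ((β ++ ρ).map g))) =
        (χ (L.take (2 * D - (1 + β.length + A.length + ρ.length)) ++
          (i :: (β ++ (A ++ ρ))).map g)).2
          ⟨β.length, by omega⟩ ⟨A.length, by omega⟩ ⟨ρ.length, by omega⟩ := by
      simp only [χ]
      rw [h2]
      simp only [List.map_append, List.map_cons]
      have e1 : List.take 1 (g i :: (List.map g β ++ (List.map g A ++ List.map g ρ))) = [g i] := by
        simp
      have e2 : List.drop 1 (g i :: (List.map g β ++ (List.map g A ++ List.map g ρ))) =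
          List.map g β ++ (List.map g A ++ List.map g ρ) := by simp
      have e3 : List.drop (1 + β.length) (g i :: (List.map g β ++ (List.map g A ++ List.map g ρ))) =
          List.map g A ++ List.map g ρ := by
        rw [Nat.add_comm, List.drop_succ_cons]
        exact List.drop_left' (by simp)
      have e4 : List.drop (1 + β.length + A.length)
          (g i :: (List.map g β ++ (List.map g A ++ List.map g ρ))) = List.map g ρ := by
        rw [show 1 + β.length + A.length = (β.length + A.length) + 1 by omega,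
          List.drop_succ_cons, ← List.append_assoc]
        exact List.drop_left' (by simp)
      have e5 : List.take β.length (List.map g β ++ (List.map g A ++ List.map g ρ)) =
          List.map g β := List.take_left' (by simp)
      rw [e1, e2, e3, e4, e5]
      rfl
    rw [h3, h1]
    constructor
    · intro h; exact ⟨hlen, h⟩
    · rintro ⟨_, h⟩; exact h
  · intro i l l' hl hl' hadj
    have h1 := hc0κ _ _ (hsegmap _ hl)
    have h2 := hc0κ _ _ (hsegmap _ hl')
    exact hκ.1 _ _ hadj (h1.trans h2.symm)
  · intro i l hl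
    exact hc0adj _ _ (hsegmap _ hl)

end H7.Online
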