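import Pool.Agent.H7.Online.Defs
import Pool.Agent.H7.Online.Homog

/-!
First-Fit is an on-line algorithm and produces Grundy colourings.
-/

namespace H7.Online

theorem firstFit_eq (n : ℕ) (G : SimpleGraph ℕ) :
    firstFit n G = sInf {c : ℕ | ∀ j : Fin n, G.Adj j n → firstFit j G ≠ c} := by
  rw [firstFit]

theorem firstFit_mem (n : ℕ) (G : SimpleGraph ℕ) :
    ∀ j : Fin n, G.Adj j n → firstFit j G ≠ firstFit n G := by
  have hne : {c : ℕ | ∀ j : Fin n, G.Adj j n → firstFit j G ≠ c}.Nonempty := by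
    obtain ⟨c, hc⟩ := Infinite.exists_notMem_finset
      ((Finset.univ : Finset (Fin n)).image (fun j : Fin n => firstFit j G))
    refine ⟨c, fun j _ h => hc ?_⟩
    rw [Finset.mem_image]
    exact ⟨j, Finset.mem_univ _, h⟩
  have h := Nat.sInf_mem hne
  rw [← firstFit_eq] at h
  exact h

theorem firstFit_wit {n : ℕ} {G : SimpleGraph ℕ} {c : ℕ} (hc : c < firstFit n G) :
    ∃ j, j < n ∧ G.Adj j n ∧ firstFit j G = c := by
  rw [firstFit_eq] at hc
  have h := Nat.notMem_of_lt_sInf hc
  simp only [Set.mem_ofPred_eq, not_forall, not_not] at h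
  obtain ⟨j, h1, h2⟩ := h
  exact ⟨j, j.2, h1, h2⟩

theorem firstFit_isOnline : IsOnline firstFit := by
  constructor
  · intro n
    induction n using Nat.strong_induction_on with
    | _ n ih =>
      intro G G' h
      rw [firstFit_eq, firstFit_eq]
      congr 1
      ext c
      simp only [Set.mem_ofPred_eq]
      refine forall_congr' fun j => ?_
      have h1 := h j n j.2.le le_rfl
      have h2 := ih j j.2 G G' (fun a b ha hb => h a b (ha.trans j.2.le) (hb.trans j.2.le))
      rw [h1, h2]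
  · intro G i j hij hadj
    exact firstFit_mem j G ⟨i, hij⟩ hadj

theorem grundy_of_presents {m : ℕ} {H : SimpleGraph (Fin m)} {G : SimpleGraph ℕ}
    {σ : Fin m ≃ Fin m} (h : ∀ i j : Fin m, G.Adj (i : ℕ) (j : ℕ) ↔ H.Adj (σ i) (σ j)) :
    Grundy H (fun v => firstFit (σ.symm v) G) := by
  constructor
  · intro u v huv
    have h1 : G.Adj (σ.symm u) (σ.symm v) := by rw [h]; simpa using huv
    rcases lt_trichotomy (σ.symm u : ℕ) (σ.symm v) with h2 | h2 | h2
    · exact firstFit_isOnline.2 G _ _ h2 h1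
    · rw [h2] at h1; exact absurd h1 (G.loopless.irrefl _)
    · exact (firstFit_isOnline.2 G _ _ h2 h1.symm).symm
  · intro v c hc
    obtain ⟨j, h1, h2, h3⟩ := firstFit_wit hc
    have hj : j < m := h1.trans (σ.symm v).2
    refine ⟨σ ⟨j, hj⟩, ?_, ?_⟩
    · have h4 := (h ⟨j, hj⟩ (σ.symm v)).mp h2
      simpa using h4
    · simpa using h3

end H7.Online
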