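import Mathlib

/-!
Half graphs, crowns and cliques as induced subgraphs.
-/

namespace H7.Online

/-- `H` contains an induced half graph of order `t`: independent `a 0, …, a (t-1)` and independent
`b 0, …, b (t-1)` with `a i` adjacent to `b j` exactly when `i ≤ j`. -/
def HasHalfGraph {V : Type} (H : SimpleGraph V) (t : ℕ) : Prop :=
  ∃ a b : Fin t → V, (∀ i j, H.Adj (a i) (b j) ↔ i ≤ j) ∧
    (∀ i j, ¬ H.Adj (a i) (a j)) ∧ (∀ i j, ¬ H.Adj (b i) (b j))

/-- `H` contains an induced crown of order `t` (the complete bipartite graph `K_{t,t}` minus a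
perfect matching): independent `a 0, …, a (t-1)` and independent `b 0, …, b (t-1)` with `a i`
adjacent to `b j` exactly when `i ≠ j`. -/
def HasCrown {V : Type} (H : SimpleGraph V) (t : ℕ) : Prop :=
  ∃ a b : Fin t → V, (∀ i j, H.Adj (a i) (b j) ↔ i ≠ j) ∧
    (∀ i j, ¬ H.Adj (a i) (a j)) ∧ (∀ i j, ¬ H.Adj (b i) (b j))

/-- `H` contains a clique with `t` vertices. -/
def HasClique {V : Type} (H : SimpleGraph V) (t : ℕ) : Prop :=
  ∃ a : Fin t → V, ∀ i j, i ≠ j → H.Adj (a i) (a j)

theorem hasHalf_of {V : Type} {H : SimpleGraph V} {t : ℕ} (a b : ℕ → V)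
    (h1 : ∀ k l, k < t → l < t → k ≤ l → H.Adj (a k) (b l))
    (h2 : ∀ k l, k < t → l < t → l < k → ¬ H.Adj (a k) (b l))
    (h3 : ∀ k l, k < l → l < t → ¬ H.Adj (a k) (a l))
    (h4 : ∀ k l, k < l → l < t → ¬ H.Adj (b k) (b l)) : HasHalfGraph H t := by
  refine ⟨fun i => a i, fun i => b i, ?_, ?_, ?_⟩
  · intro i j
    constructor
    · intro h
      by_contra hcon
      exact h2 i j i.2 j.2 (by simpa using hcon) h
    · intro h
      exact h1 i j i.2 j.2 h
  · intro i j hadj
    rcases lt_trichotomy (i : ℕ) j with h | h | h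
    · exact h3 i j h j.2 hadj
    · dsimp only at hadj; rw [h] at hadj; exact H.loopless.irrefl _ hadj
    · exact h3 j i h i.2 hadj.symm
  · intro i j hadj
    rcases lt_trichotomy (i : ℕ) j with h | h | h
    · exact h4 i j h j.2 hadj
    · dsimp only at hadj; rw [h] at hadj; exact H.loopless.irrefl _ hadj
    · exact h4 j i h i.2 hadj.symm

theorem hasCrown_of {V : Type} {H : SimpleGraph V} {t : ℕ} (a b : ℕ → V)
    (h1 : ∀ k l, k < t → l < t → k ≠ l → H.Adj (a k) (b l))
    (h2 : ∀ k, k < t → ¬ H.Adj (a k) (b k))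
    (h3 : ∀ k l, k < l → l < t → ¬ H.Adj (a k) (a l))
    (h4 : ∀ k l, k < l → l < t → ¬ H.Adj (b k) (b l)) : HasCrown H t := by
  refine ⟨fun i => a i, fun i => b i, ?_, ?_, ?_⟩
  · intro i j
    constructor
    · rintro h rfl
      exact h2 i i.2 h
    · intro h
      exact h1 i j i.2 j.2 (fun hh => h (Fin.ext hh))
  · intro i j hadj
    rcases lt_trichotomy (i : ℕ) j with h | h | h
    · exact h3 i j h j.2 hadj
    · dsimp only at hadj; rw [h] at hadj; exact H.loopless.irrefl _ hadj
    · exact h3 j i h i.2 hadj.symm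
  · intro i j hadj
    rcases lt_trichotomy (i : ℕ) j with h | h | h
    · exact h4 i j h j.2 hadj
    · dsimp only at hadj; rw [h] at hadj; exact H.loopless.irrefl _ hadj
    · exact h4 j i h i.2 hadj.symm

theorem hasClique_of {V : Type} {H : SimpleGraph V} {t : ℕ} (a : ℕ → V)
    (h1 : ∀ k l, k < l → l < t → H.Adj (a k) (a l)) : HasClique H t := by
  refine ⟨fun i => a i, ?_⟩
  intro i j hij
  rcases lt_trichotomy (i : ℕ) j with h | h | h
  · exact h1 i j h j.2
  · exact absurd (Fin.ext h) hij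
  · exact (h1 j i h i.2).symm

theorem HasHalfGraph.mono {V : Type} {H : SimpleGraph V} {s t : ℕ} (h : HasHalfGraph H t)
    (hst : s ≤ t) : HasHalfGraph H s := by
  obtain ⟨a, b, h1, h2, h3⟩ := h
  refine ⟨fun i => a (Fin.castLE hst i), fun i => b (Fin.castLE hst i), ?_, ?_, ?_⟩
  · intro i j
    rw [h1]
    rfl
  · intro i j; exact h2 _ _
  · intro i j; exact h3 _ _

theorem HasCrown.mono {V : Type} {H : SimpleGraph V} {s t : ℕ} (h : HasCrown H t)
    (hst : s ≤ t) : HasCrown H s := by
  obtain ⟨a, b, h1, h2, h3⟩ := h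
  refine ⟨fun i => a (Fin.castLE hst i), fun i => b (Fin.castLE hst i), ?_, ?_, ?_⟩
  · intro i j
    rw [h1, not_iff_not]
    constructor
    · intro h; exact Fin.castLE_injective hst h
    · rintro rfl; rfl
  · intro i j; exact h2 _ _
  · intro i j; exact h3 _ _

theorem HasClique.mono {V : Type} {H : SimpleGraph V} {s t : ℕ} (h : HasClique H t)
    (hst : s ≤ t) : HasClique H s := by
  obtain ⟨a, h1⟩ := h
  refine ⟨fun i => a (Fin.castLE hst i), ?_⟩
  intro i j hij
  exact h1 _ _ (fun h => hij (Fin.castLE_injective hst h))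

end H7.Online

/-! ### the on-line model -/

namespace H7.Online

/-- An on-line colouring algorithm: `A n G` is the colour given to the vertex `n` of a graph `G`
presented in the order `0, 1, 2, …`. It depends only on the subgraph induced by `0, …, n`, and
adjacent vertices receive different colours. -/
def IsOnline (A : ℕ → SimpleGraph ℕ → ℕ) : Prop :=
  (∀ (n : ℕ) (G G' : SimpleGraph ℕ),
    (∀ i j : ℕ, i ≤ n → j ≤ n → (G.Adj i j ↔ G'.Adj i j)) → A n G = A n G') ∧
  ∀ (G : SimpleGraph ℕ) (i j : ℕ), i < j → G.Adj i j → A i G ≠ A j G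

/-- On every ordering `σ` of the finite graph `H` (with `G` the graph so presented) the algorithm
`A` uses at most `k` colours. -/
def UsesAtMost (A : ℕ → SimpleGraph ℕ → ℕ) {m : ℕ} (H : SimpleGraph (Fin m)) (k : ℕ) : Prop :=
  ∀ (G : SimpleGraph ℕ) (σ : Fin m ≃ Fin m),
    (∀ i j : Fin m, G.Adj (i : ℕ) (j : ℕ) ↔ H.Adj (σ i) (σ j)) →
    ((Finset.range m).image (fun i => A i G)).card ≤ k

/-- First-Fit: the vertex `n` gets the least colour not used on its earlier neighbours. -/
noncomputable def firstFit (n : ℕ) (G : SimpleGraph ℕ) : ℕ :=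
  sInf {c : ℕ | ∀ j : Fin n, G.Adj j n → firstFit j G ≠ c}
termination_by n
decreasing_by exact j.2

end H7.Online
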