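import Pool.Agent.H85.Blocks.Ramsey

/-!
Ordered graphs on `{0,…,D}` containing all edges `x (x+1)`: a long increasing induced path, or a
clique, or a ladder.
-/

namespace H7.Online

/-- there is an increasing path with `m` steps from `s` to `s'` with all its vertices in `U` -/
def Wk (E : ℕ → ℕ → Prop) (U : ℕ → Prop) (m s s' : ℕ) : Prop :=
  ∃ f : ℕ → ℕ, f 0 = s ∧ f m = s' ∧ (∀ i < m, f i < f (i + 1) ∧ E (f i) (f (i + 1))) ∧
    ∀ i ≤ m, U (f i)

theorem Wk.refl {E : ℕ → ℕ → Prop} {U : ℕ → Prop} {s : ℕ} (h : U s) : Wk E U 0 s s :=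
  ⟨fun _ => s, rfl, rfl, fun i hi => absurd hi (by omega), fun _ _ => h⟩

theorem Wk.single {E : ℕ → ℕ → Prop} {U : ℕ → Prop} {s s' : ℕ} (h : U s) (h' : U s')
    (hlt : s < s') (hE : E s s') : Wk E U 1 s s' := by
  refine ⟨fun i => if i = 0 then s else s', by simp, by simp, ?_, ?_⟩
  · intro i hi
    have : i = 0 := by omega
    subst this
    simpa using ⟨hlt, hE⟩
  · intro i _
    dsimp only
    split_ifs
    · exact h
    · exact h'

theorem Wk.trans {E : ℕ → ℕ → Prop} {U : ℕ → Prop} {m m' s s' s'' : ℕ} (h : Wk E U m s s')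
    (h' : Wk E U m' s' s'') : Wk E U (m + m') s s'' := by
  obtain ⟨f, f0, fm, fs, fU⟩ := h
  obtain ⟨g, g0, gm, gs, gU⟩ := h'
  refine ⟨fun i => if i ≤ m then f i else g (i - m), ?_, ?_, ?_, ?_⟩
  · simp [f0]
  · dsimp only
    split_ifs with h1
    · have : m' = 0 := by omega
      subst this
      rw [Nat.add_zero, fm, ← gm, g0]
    · rw [show m + m' - m = m' by omega, gm]
  · intro i hi
    dsimp only
    by_cases h1 : i + 1 ≤ m
    · rw [if_pos (by omega), if_pos h1]
      exact fs i h1
    · by_cases h2 : i ≤ m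
      · have : i = m := by omega
        subst this
        rw [if_pos le_rfl, if_neg (by omega), fm, ← g0, show i + 1 - i = 0 + 1 by omega]
        exact gs 0 (by omega)
      · rw [if_neg h2, if_neg h1, show i + 1 - m = (i - m) + 1 by omega]
        exact gs (i - m) (by omega)
  · intro i hi
    dsimp only
    split_ifs with h1
    · exact fU i h1
    · exact gU _ (by omega)

/-- a shortest increasing path is induced -/
theorem exists_shortest {E : ℕ → ℕ → Prop} {U : ℕ → Prop} {s s' : ℕ}
    (h : ∃ m, Wk E U m s s') : ∃ m, ∃ f : ℕ → ℕ, f 0 = s ∧ f m = s' ∧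
      (∀ i < m, f i < f (i + 1) ∧ E (f i) (f (i + 1))) ∧ (∀ i ≤ m, U (f i)) ∧
      (∀ a b, a + 1 < b → b ≤ m → ¬ E (f a) (f b)) := by
  classical
  obtain ⟨f, f0, fm, fs, fU⟩ := Nat.find_spec h
  refine ⟨Nat.find h, f, f0, fm, fs, fU, ?_⟩
  intro a b hab hb hE
  have hmono : ∀ d a, a + d ≤ Nat.find h → f a ≤ f (a + d) := by
    intro d
    induction d with
    | zero => intro a _; exact le_rfl
    | succ d ih =>
      intro a ha
      exact (ih a (by omega)).trans (fs (a + d) (by omega)).1.le
  have hlt : f a < f b := by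
    have h1 := (fs a (by omega)).1
    have h2 := hmono (b - (a + 1)) (a + 1) (by omega)
    rw [show a + 1 + (b - (a + 1)) = b by omega] at h2
    omega
  have hmin := Nat.find_min h (m := Nat.find h - (b - a - 1)) (by omega)
  apply hmin
  refine ⟨fun i => if i ≤ a then f i else f (i + (b - a - 1)), ?_, ?_, ?_, ?_⟩
  · simp [f0]
  · dsimp only
    rw [if_neg (by omega), show Nat.find h - (b - a - 1) + (b - a - 1) = Nat.find h by omega, fm]
  · intro i hi
    dsimp only
    by_cases h1 : i + 1 ≤ a
    · rw [if_pos (by omega), if_pos h1]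
      exact fs i (by omega)
    · by_cases h2 : i ≤ a
      · have : i = a := by omega
        subst this
        rw [if_pos le_rfl, if_neg (by omega), show i + 1 + (b - i - 1) = b by omega]
        exact ⟨hlt, hE⟩
      · rw [if_neg h2, if_neg h1, show i + 1 + (b - a - 1) = (i + (b - a - 1)) + 1 by omega]
        exact fs _ (by omega)
  · intro i hi
    dsimp only
    split_ifs with h1
    · exact fU i (by omega)
    · exact fU _ (by omega)

/-- Long increasing path of edges: induced increasing path with `R` steps, or clique, or ladder. -/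
theorem levels (T R : ℕ) : ∃ D : ℕ, ∀ E : ℕ → ℕ → Prop, (∀ x, x + 1 ≤ D → E x (x + 1)) →
    (∃ x : ℕ → ℕ, (∀ a b, a < b → b ≤ R → x a < x b) ∧ (∀ a ≤ R, x a ≤ D) ∧
      ∀ a b, a < b → b ≤ R → (E (x a) (x b) ↔ b = a + 1)) ∨
    (∃ z : ℕ → ℕ, (∀ a b, a < b → b < T → z a < z b) ∧ (∀ a < T, z a ≤ D) ∧
      ∀ a b, a < b → b < T → E (z a) (z b)) ∨
    (∃ x y : ℕ → ℕ, (∀ a b, a < b → b < T → x a < x b) ∧ (∀ a < T, x a < y a) ∧
      (∀ a < T, y a ≤ D) ∧ (∀ a b, a ≤ b → b < T → E (x a) (y b)) ∧
      ∀ a b, a < b → b < T → ¬ E (x a) (x b)) := by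
  classical
  obtain ⟨D, hD⟩ := H85.Blocks.ramsey 4 (Fin (R + 1) → Fin (R + 1) → Prop) (4 * T + 2 * R + 2)
  refine ⟨D, fun E hE => ?_⟩
  -- shortest paths in the whole interval
  have hall : ∀ s s', s ≤ s' → s' ≤ D → ∃ m, Wk E (fun x => s ≤ x ∧ x ≤ s') m s s' := by
    intro s s' h1 h2
    refine ⟨s' - s, fun i => s + i, by simp, by dsimp only; omega, ?_, ?_⟩
    · intro i hi
      dsimp only
      exact ⟨by omega, hE _ (by omega)⟩
    · intro i hi
      dsimp only
      omega
  by_cases hlong : ∃ s s', s ≤ s' ∧ s' ≤ D ∧ ∃ m, R ≤ m ∧ ∃ f : ℕ → ℕ, f 0 = s ∧ f m = s' ∧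
      (∀ i < m, f i < f (i + 1) ∧ E (f i) (f (i + 1))) ∧ (∀ i ≤ m, s ≤ f i ∧ f i ≤ s') ∧
      (∀ a b, a + 1 < b → b ≤ m → ¬ E (f a) (f b))
  · left
    obtain ⟨s, s', h1, h2, m, hm, f, f0, fm, fs, fU, fE⟩ := hlong
    have hmono : ∀ d a, a + d ≤ m → f a ≤ f (a + d) := by
      intro d
      induction d with
      | zero => intro a _; exact le_rfl
      | succ d ih =>
        intro a ha
        exact (ih a (by omega)).trans (fs (a + d) (by omega)).1.le
    refine ⟨f, ?_, ?_, ?_⟩
    · intro a b hab hb
      have h1 := (fs a (by omega)).1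
      have h2 := hmono (b - (a + 1)) (a + 1) (by omega)
      rw [show a + 1 + (b - (a + 1)) = b by omega] at h2
      omega
    · intro a ha
      exact (fU a (by omega)).2.trans h2
    · intro a b hab hb
      constructor
      · intro h
        by_contra hne
        exact fE a b (by omega) (by omega) h
      · rintro rfl
        exact (fs a (by omega)).2
  · -- all shortest paths have fewer than `R` steps
    have hshort : ∀ s s', s ≤ s' → s' ≤ D → ∃ p : ℕ → ℕ, p 0 = s ∧ p R = s' ∧
        (∀ i, i < R → p i = p (i + 1) ∨ (p i < p (i + 1) ∧ E (p i) (p (i + 1)))) ∧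
        ∀ i, s ≤ p i ∧ p i ≤ s' := by
      intro s s' h1 h2
      obtain ⟨m, f, f0, fm, fs, fU, fE⟩ := exists_shortest (hall s s' h1 h2)
      have hm : m < R := by
        by_contra hcon
        exact hlong ⟨s, s', h1, h2, m, by omega, f, f0, fm, fs, fU, fE⟩
      refine ⟨fun i => f (min i m), by simp [f0], ?_, ?_, ?_⟩
      · dsimp only
        rw [min_eq_right hm.le, fm]
      · intro i hi
        dsimp only
        rcases Nat.lt_or_ge i m with h3 | h3
        · right
          rw [min_eq_left h3.le, min_eq_left (by omega)]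
          exact fs i h3
        · left
          rw [min_eq_right h3, min_eq_right (by omega)]
      · intro i
        exact fU _ (min_le_right _ _)
    have hpi : ∃ π : ℕ → ℕ → ℕ → ℕ, ∀ s s', s ≤ s' → s' ≤ D → π s s' 0 = s ∧ π s s' R = s' ∧
        (∀ i, i < R → π s s' i = π s s' (i + 1) ∨ (π s s' i < π s s' (i + 1) ∧
          E (π s s' i) (π s s' (i + 1)))) ∧ ∀ i, s ≤ π s s' i ∧ π s s' i ≤ s' := by
      have h0 : ∀ s s', ∃ p : ℕ → ℕ, s ≤ s' → s' ≤ D → p 0 = s ∧ p R = s' ∧
        (∀ i, i < R → p i = p (i + 1) ∨ (p i < p (i + 1) ∧ E (p i) (p (i + 1)))) ∧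
        ∀ i, s ≤ p i ∧ p i ≤ s' := by
        intro s s'
        by_cases h : s ≤ s' ∧ s' ≤ D
        · obtain ⟨p, hp⟩ := hshort s s' h.1 h.2
          exact ⟨p, fun _ _ => hp⟩
        · exact ⟨fun _ => 0, fun h1 h2 => absurd ⟨h1, h2⟩ h⟩
      choose π hπ using h0
      exact ⟨π, hπ⟩
    obtain ⟨π, hπ⟩ := hpi
    let χ : List ℕ → (Fin (R + 1) → Fin (R + 1) → Prop) := fun l b c =>
      E (π (l.getD 0 0) (l.getD 1 0) b) (π (l.getD 2 0) (l.getD 3 0) c)
    obtain ⟨H, hHs, hHl, hHh⟩ := hD ℕ χ (List.range D) (by simp)
    -- the values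
    have hHpw : H.Pairwise (· < ·) := List.Pairwise.sublist hHs List.pairwise_lt_range
    have hHmem : ∀ x ∈ H, x < D := fun x hx => by
      have := hHs.subset hx
      simpa using this
    set S := 4 * T + 2 * R + 2 with hS
    set σ : ℕ → ℕ := fun i => H.getD i 0 with hσ
    have hσlt : ∀ i j, i < j → j < S → σ i < σ j := by
      intro i j hij hj
      have h1 : i < H.length := by omega
      have h2 : j < H.length := by omega
      simp only [hσ, List.getD_eq_getElem _ _ h1, List.getD_eq_getElem _ _ h2]
      exact List.pairwise_iff_getElem.mp hHpw i j h1 h2 hij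
    have hσD : ∀ i, i < S → σ i ≤ D := by
      intro i hi
      have h1 : i < H.length := by omega
      simp only [hσ, List.getD_eq_getElem _ _ h1]
      exact (hHmem _ (List.getElem_mem h1)).le
    have hσle : ∀ i j, i ≤ j → j < S → σ i ≤ σ j := by
      intro i j hij hj
      rcases Nat.eq_or_lt_of_le hij with h | h
      · rw [h]
      · exact (hσlt i j h hj).le
    have hsub : ∀ i j k l, i < j → j < k → k < l → l < S →
        [σ i, σ j, σ k, σ l].Sublist H := by
      intro i j k l hij hjk hkl hl
      have e1 : ∀ i, i < S → ∀ m, i < m → m ≤ S → ∀ L : List ℕ, L.Sublist (H.drop m) →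
          (σ i :: L).Sublist (H.drop i) := by
        intro i hi m him hm L hL
        have h1 : i < H.length := by omega
        rw [List.drop_eq_getElem_cons h1]
        simp only [hσ, List.getD_eq_getElem _ _ h1]
        refine List.Sublist.cons_cons _ (hL.trans ?_)
        rw [show m = (i + 1) + (m - (i + 1)) by omega, ← List.drop_drop]
        exact List.drop_sublist _ _
      have h4 := e1 l hl (l + 1) (by omega) (by omega) [] (by simp)
      have h3 := e1 k (by omega) l hkl (by omega) _ h4
      have h2 := e1 j (by omega) k hjk (by omega) _ h3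
      have h1 := e1 i (by omega) j hij (by omega) _ h2
      exact h1.trans (List.drop_sublist _ _)
    have htab : ∃ t : Fin (R + 1) → Fin (R + 1) → Prop, ∀ i j k l, i < j → j < k → k < l →
        l < S → ∀ b c : Fin (R + 1), E (π (σ i) (σ j) b) (π (σ k) (σ l) c) ↔ t b c := by
      by_cases hS4 : 4 ≤ S
      · refine ⟨χ [σ 0, σ 1, σ 2, σ 3], ?_⟩
        intro i j k l hij hjk hkl hl b c
        have h := hHh _ _ (hsub i j k l hij hjk hkl hl)
          (hsub 0 1 2 3 (by omega) (by omega) (by omega) (by omega)) rfl rfl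
        have h2 : χ [σ i, σ j, σ k, σ l] b c = χ [σ 0, σ 1, σ 2, σ 3] b c := by rw [h]
        have h3 : χ [σ i, σ j, σ k, σ l] b c = E (π (σ i) (σ j) b) (π (σ k) (σ l) c) := rfl
        rw [← h2, h3]
      · refine ⟨fun _ _ => False, ?_⟩
        intro i j k l hij hjk hkl hl
        omega
    obtain ⟨t, ht⟩ := htab
    by_cases hclique : ∃ b, t b b
    · obtain ⟨b, hb⟩ := hclique
      right; left
      refine ⟨fun k => π (σ (2 * k)) (σ (2 * k + 1)) b, ?_, ?_, ?_⟩
      · intro a a' ha ha'
        dsimp only
        have h1 := ((hπ (σ (2 * a)) (σ (2 * a + 1)) (hσle _ _ (by omega) (by omega))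
          (hσD _ (by omega))).2.2.2 b).2
        have h2 := ((hπ (σ (2 * a')) (σ (2 * a' + 1)) (hσle _ _ (by omega) (by omega))
          (hσD _ (by omega))).2.2.2 b).1
        have h3 := hσlt (2 * a + 1) (2 * a') (by omega) (by omega)
        omega
      · intro a ha
        exact (((hπ (σ (2 * a)) (σ (2 * a + 1)) (hσle _ _ (by omega) (by omega))
          (hσD _ (by omega))).2.2.2 b).2).trans (hσD _ (by omega))
      · intro a a' ha ha'
        exact (ht _ _ _ _ (by omega) (by omega) (by omega) (by omega) b b).mpr hb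
    · by_cases hany : ∃ b c, t b c
      · obtain ⟨b, c, hbc⟩ := hany
        right; right
        refine ⟨fun k => π (σ (4 * k)) (σ (4 * k + 1)) b, fun k => π (σ (4 * k + 2))
          (σ (4 * k + 3)) c, ?_, ?_, ?_, ?_, ?_⟩
        · intro a a' ha ha'
          dsimp only
          have h1 := ((hπ (σ (4 * a)) (σ (4 * a + 1)) (hσle _ _ (by omega) (by omega))
            (hσD _ (by omega))).2.2.2 b).2
          have h2 := ((hπ (σ (4 * a')) (σ (4 * a' + 1)) (hσle _ _ (by omega) (by omega))
            (hσD _ (by omega))).2.2.2 b).1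
          have h3 := hσlt (4 * a + 1) (4 * a') (by omega) (by omega)
          omega
        · intro a ha
          dsimp only
          have h1 := ((hπ (σ (4 * a)) (σ (4 * a + 1)) (hσle _ _ (by omega) (by omega))
            (hσD _ (by omega))).2.2.2 b).2
          have h2 := ((hπ (σ (4 * a + 2)) (σ (4 * a + 3)) (hσle _ _ (by omega) (by omega))
            (hσD _ (by omega))).2.2.2 c).1
          have h3 := hσlt (4 * a + 1) (4 * a + 2) (by omega) (by omega)
          omega
        · intro a ha
          exact (((hπ (σ (4 * a + 2)) (σ (4 * a + 3)) (hσle _ _ (by omega) (by omega))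
            (hσD _ (by omega))).2.2.2 c).2).trans (hσD _ (by omega))
        · intro a a' ha ha'
          exact (ht _ _ _ _ (by omega) (by omega) (by omega) (by omega) b c).mpr hbc
        · intro a a' ha ha' hcon
          exact hclique ⟨b, (ht _ _ _ _ (by omega) (by omega) (by omega) (by omega) b b).mp hcon⟩
      · -- no edges between far pieces: shortest path inside the union of the pieces
        exfalso
        have hno : ∀ i j k l, i < j → j < k → k < l → l < S → ∀ b c, b ≤ R → c ≤ R →
            ¬ E (π (σ i) (σ j) b) (π (σ k) (σ l) c) := by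
          intro i j k l hij hjk hkl hl b c hb hc hcon
          exact hany ⟨⟨b, by omega⟩, ⟨c, by omega⟩,
            (ht i j k l hij hjk hkl hl ⟨b, by omega⟩ ⟨c, by omega⟩).mp hcon⟩
        set U : ℕ → Prop := fun x => ∃ k b, k + 1 < S ∧ b ≤ R ∧ x = π (σ k) (σ (k + 1)) b with hU
        have hpp : ∀ k, k + 1 < S → _ := fun k hk => hπ (σ k) (σ (k + 1))
          (hσle _ _ (by omega) hk) (hσD _ hk)
        have hstep : ∀ k, k + 1 < S → ∀ b, b ≤ R →
            ∃ m, Wk E U m (σ k) (π (σ k) (σ (k + 1)) b) := by
          intro k hk b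
          induction b with
          | zero =>
            intro _
            rw [(hpp k hk).1]
            exact ⟨0, Wk.refl ⟨k, 0, hk, by omega, (hpp k hk).1.symm⟩⟩
          | succ b ih =>
            intro hb
            obtain ⟨m, hm⟩ := ih (by omega)
            rcases (hpp k hk).2.2.1 b (by omega) with h | h
            · rw [← h]
              exact ⟨m, hm⟩
            · exact ⟨m + 1, hm.trans (Wk.single ⟨k, b, hk, by omega, rfl⟩
                ⟨k, b + 1, hk, hb, rfl⟩ h.1 h.2)⟩
        have hchain : ∀ k, k < S → ∃ m, Wk E U m (σ 0) (σ k) := by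
          intro k
          induction k with
          | zero =>
            intro _
            exact ⟨0, Wk.refl ⟨0, 0, by omega, by omega, (hpp 0 (by omega)).1.symm⟩⟩
          | succ k ih =>
            intro hk
            obtain ⟨m, hm⟩ := ih (by omega)
            obtain ⟨m', hm'⟩ := hstep k hk R le_rfl
            rw [(hpp k hk).2.1] at hm'
            exact ⟨m + m', hm.trans hm'⟩
        obtain ⟨m, f, f0, fm, fs, fU, fE⟩ := exists_shortest (hchain (S - 1) (by omega))
        have hprog : ∀ i, i ≤ m → 2 * i + 1 < S → f i ≤ σ (2 * i) := by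
          intro i
          induction i with
          | zero => intro _ _; rw [f0]
          | succ i ih =>
            intro hi hiS
            have h1 := ih (by omega) (by omega)
            obtain ⟨k, b, hk, hb, hkb⟩ := fU i (by omega)
            obtain ⟨l, c, hl, hc, hlc⟩ := fU (i + 1) hi
            have h2 : k ≤ 2 * i := by
              by_contra hcon
              have h3 := hσlt (2 * i) k (by omega) (by omega)
              have h4 := ((hpp k hk).2.2.2 b).1
              rw [← hkb] at h4
              omega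
            have h3 : l ≤ k + 1 := by
              by_contra hcon
              have h4 := (fs i (by omega)).2
              rw [hkb, hlc] at h4
              exact hno k (k + 1) l (l + 1) (by omega) (by omega) (by omega) hl b c hb hc h4
            have h4 := ((hpp l hl).2.2.2 c).2
            rw [← hlc] at h4
            exact h4.trans (hσle _ _ (by omega) (by omega))
        have hmbig : R ≤ m := by
          by_contra hcon
          have h1 := hprog m le_rfl (by omega)
          rw [fm] at h1
          have h2 := hσlt (2 * m) (S - 1) (by omega) (by omega)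
          omega
        refine hlong ⟨σ 0, σ (S - 1), hσle _ _ (by omega) (by omega), hσD _ (by omega), m, hmbig,
          f, f0, fm, fs, ?_, fE⟩
        have hmono : ∀ d a, a + d ≤ m → f a ≤ f (a + d) := by
          intro d
          induction d with
          | zero => intro a _; exact le_rfl
          | succ d ih =>
            intro a ha
            exact (ih a (by omega)).trans (fs (a + d) (by omega)).1.le
        intro i hi
        have h1 := hmono i 0 (by omega)
        have h2 := hmono (m - i) i (by omega)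
        rw [show i + (m - i) = m by omega, fm] at h2
        rw [Nat.zero_add, f0] at h1
        exact ⟨h1, h2⟩

end H7.Online
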