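import Pool.Agent.H7.Online.Homog
import Pool.Agent.H7.Online.Levels
import Pool.Agent.H7.Online.Defs

/-!
In a homogeneous system without large cliques, half graphs and crowns, incomparable index lists
give non-adjacent vertices.
-/

namespace H7.Online

variable {V : Type} {H : SimpleGraph V} {n D T : ℕ}

theorem Hom.adj_iff (𝓗 : Hom H n D) {m0 m1 m2 : ℕ} {α β ρ : List ℕ} (hα : Seg m0 m1 α)
    (hβ : Seg m1 m2 β) (hρ : Seg m2 n ρ) (hlen : α.length + β.length + ρ.length ≤ 2 * D) :
    H.Adj (𝓗.c (α ++ ρ)) (𝓗.c (β ++ ρ)) ↔ 𝓗.P α.length β.length ρ.length :=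
  𝓗.hP α β ρ ((hα.append (hβ.append hρ)).mono (Nat.zero_le _) le_rfl) hlen

theorem Hom.adjZ_iff (𝓗 : Hom H n D) {m0 m1 m2 i : ℕ} {β A ρ : List ℕ} (hi : i < m0)
    (hβ : Seg m0 m1 β) (hA : Seg m1 m2 A) (hρ : Seg m2 n ρ)
    (hlen : 1 + β.length + A.length + ρ.length ≤ 2 * D) :
    H.Adj (𝓗.c (i :: (A ++ ρ))) (𝓗.c (β ++ ρ)) ↔ 𝓗.Z β.length A.length ρ.length :=
  𝓗.hZ i β A ρ (Seg.cons (Nat.zero_le _) ((hβ.append (hA.append hρ)).mono (by omega) le_rfl)) hlen

/-- positions `k * (2 * D)` -/
theorem pos_lt {D k l : ℕ} (h : k < l) : k * (2 * D) + 2 * D ≤ l * (2 * D) := by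
  have : (k + 1) * (2 * D) ≤ l * (2 * D) := Nat.mul_le_mul_right _ h
  linarith [Nat.succ_mul k (2 * D)]

theorem Hom.N1 (𝓗 : Hom H n D) (hn : (T + 2) * (2 * D) ≤ n) (hK : ¬ HasClique H T)
    {p r : ℕ} (hp : 1 ≤ p) (hpr : p + r ≤ D) : ¬ 𝓗.P p p r := by
  intro hP
  apply hK
  have hnr : r ≤ n := by
    have e3 := pos_lt (D := D) (show T < T + 1 by omega)
    have e4 := pos_lt (D := D) (show T + 1 < T + 2 by omega)
    omega
  have hρ : Seg (n - r) n (List.range' (n - r) r) := seg_range'_of le_rfl (by omega)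
  refine hasClique_of (fun k => 𝓗.c (List.range' (k * (2 * D)) p ++ List.range' (n - r) r)) ?_
  intro k l hkl hl
  have e1 := pos_lt (D := D) hkl
  have e2 := pos_lt (D := D) hl
  have e3 := pos_lt (D := D) (show T < T + 1 by omega)
  have e4 := pos_lt (D := D) (show T + 1 < T + 2 by omega)
  have h := 𝓗.adj_iff (m0 := k * (2 * D)) (m1 := l * (2 * D)) (m2 := n - r)
    (seg_range'_of (lo := k * (2 * D)) (s := k * (2 * D)) (len := p) le_rfl (by omega))
    (seg_range'_of (s := l * (2 * D)) (len := p) le_rfl (by omega)) hρ (by simp; omega)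
  simp only [List.length_range'] at h
  exact h.mpr hP

theorem Hom.N2 (𝓗 : Hom H n D) (hn : (T + 2) * (2 * D) ≤ n) (hK : ¬ HasClique H T)
    (hH : ¬ HasHalfGraph H T)
    {p q r : ℕ} (hp : 1 ≤ p) (hq : 1 ≤ q) (hpr : p + r ≤ D) (hqr : q + r ≤ D) (hP : 𝓗.P p q r) :
    𝓗.P q p r := by
  by_contra hP'
  apply hH
  have hnr : r ≤ n := by
    have e3 := pos_lt (D := D) (show T < T + 1 by omega)
    have e4 := pos_lt (D := D) (show T + 1 < T + 2 by omega)
    omega
  have hρ : Seg (n - r) n (List.range' (n - r) r) := seg_range'_of le_rfl (by omega)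
  refine hasHalf_of (fun k => 𝓗.c (List.range' (k * (2 * D)) p ++ List.range' (n - r) r))
    (fun k => 𝓗.c (List.range' (k * (2 * D) + D) q ++ List.range' (n - r) r)) ?_ ?_ ?_ ?_
  · intro k l hk hl hkl
    have e1 : k * (2 * D) ≤ l * (2 * D) := Nat.mul_le_mul_right _ hkl
    have e2 := pos_lt (D := D) hl
    have e3 := pos_lt (D := D) (show T < T + 1 by omega)
    have e4 := pos_lt (D := D) (show T + 1 < T + 2 by omega)
    have h := 𝓗.adj_iff (m0 := k * (2 * D)) (m1 := l * (2 * D) + D) (m2 := n - r)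
      (seg_range'_of (lo := k * (2 * D)) (s := k * (2 * D)) (len := p) le_rfl (by omega))
      (seg_range'_of (s := l * (2 * D) + D) (len := q) le_rfl (by omega)) hρ (by simp; omega)
    simp only [List.length_range'] at h
    exact h.mpr hP
  · intro k l hk hl hlk hadj
    have e1 := pos_lt (D := D) hlk
    have e2 := pos_lt (D := D) hk
    have e3 := pos_lt (D := D) (show T < T + 1 by omega)
    have e4 := pos_lt (D := D) (show T + 1 < T + 2 by omega)
    have h := 𝓗.adj_iff (m0 := l * (2 * D) + D) (m1 := k * (2 * D)) (m2 := n - r)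
      (seg_range'_of (lo := l * (2 * D) + D) (s := l * (2 * D) + D) (len := q) le_rfl (by omega))
      (seg_range'_of (s := k * (2 * D)) (len := p) le_rfl (by omega)) hρ (by simp; omega)
    simp only [List.length_range'] at h
    exact hP' (h.mp hadj.symm)
  · intro k l hkl hl hadj
    have e1 := pos_lt (D := D) hkl
    have e2 := pos_lt (D := D) hl
    have e3 := pos_lt (D := D) (show T < T + 1 by omega)
    have e4 := pos_lt (D := D) (show T + 1 < T + 2 by omega)
    have h := 𝓗.adj_iff (m0 := k * (2 * D)) (m1 := l * (2 * D)) (m2 := n - r)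
      (seg_range'_of (lo := k * (2 * D)) (s := k * (2 * D)) (len := p) le_rfl (by omega))
      (seg_range'_of (s := l * (2 * D)) (len := p) le_rfl (by omega)) hρ (by simp; omega)
    simp only [List.length_range'] at h
    exact 𝓗.N1 hn hK hp hpr (h.mp hadj)
  · intro k l hkl hl hadj
    have e1 := pos_lt (D := D) hkl
    have e2 := pos_lt (D := D) hl
    have e3 := pos_lt (D := D) (show T < T + 1 by omega)
    have e4 := pos_lt (D := D) (show T + 1 < T + 2 by omega)
    have h := 𝓗.adj_iff (m0 := k * (2 * D) + D) (m1 := l * (2 * D) + D) (m2 := n - r)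
      (seg_range'_of (lo := k * (2 * D) + D) (s := k * (2 * D) + D) (len := q) le_rfl (by omega))
      (seg_range'_of (s := l * (2 * D) + D) (len := q) le_rfl (by omega)) hρ (by simp; omega)
    simp only [List.length_range'] at h
    exact 𝓗.N1 hn hK hq hqr (h.mp hadj)

theorem Hom.N3 (𝓗 : Hom H n D) (hn : (T + 2) * (2 * D) + 1 ≤ n) (hK : ¬ HasClique H T)
    (hH : ¬ HasHalfGraph H T) (hC : ¬ HasCrown H T)
    {a q r : ℕ} (ha : 1 ≤ a) (hq : 1 ≤ q) (har : a + 1 + r ≤ D) (hqr : q + r ≤ D)
    (hP : 𝓗.P (a + 1) q r) (hP' : 𝓗.P q (a + 1) r) : False := by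
  have hnr : r ≤ n := by
    have e3 := pos_lt (D := D) (show T < T + 1 by omega)
    have e4 := pos_lt (D := D) (show T + 1 < T + 2 by omega)
    omega
  have hρ : Seg (n - r) n (List.range' (n - r) r) := seg_range'_of le_rfl (by omega)
  by_cases hZ : 𝓗.Z q a r
  · apply hC
    obtain ⟨q', rfl⟩ : ∃ q', q = q' + 1 := ⟨q - 1, by omega⟩
    have e3 := pos_lt (D := D) (show T < T + 1 by omega)
    have e4 := pos_lt (D := D) (show T + 1 < T + 2 by omega)
    have hA : ∀ m, m ≤ T * (2 * D) → Seg m (n - r) (List.range' (T * (2 * D)) a) :=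
      fun m hm => seg_range'_of hm (by omega)
    refine hasCrown_of (fun k => 𝓗.c ((k * (2 * D)) ::
        (List.range' (T * (2 * D)) a ++ List.range' (n - r) r)))
      (fun k => 𝓗.c (List.range' (k * (2 * D)) (q' + 1) ++ List.range' (n - r) r)) ?_ ?_ ?_ ?_
    · intro k l hk hl hkl
      rcases Nat.lt_or_gt_of_ne hkl with h1 | h1
      · have e1 := pos_lt (D := D) h1
        have e2 := pos_lt (D := D) hl
        have h := 𝓗.adjZ_iff (i := k * (2 * D)) (m0 := l * (2 * D)) (m1 := T * (2 * D))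
          (m2 := n - r) (by omega)
          (seg_range'_of (s := l * (2 * D)) (len := q' + 1) le_rfl (by omega))
          (hA _ le_rfl) hρ (by simp; omega)
        simp only [List.length_range'] at h
        exact h.mpr hZ
      · have e1 := pos_lt (D := D) h1
        have e2 := pos_lt (D := D) hk
        have h := 𝓗.adj_iff (m0 := l * (2 * D)) (m1 := k * (2 * D)) (m2 := n - r)
          (α := List.range' (l * (2 * D)) (q' + 1))
          (β := (k * (2 * D)) :: List.range' (T * (2 * D)) a)
          (seg_range'_of (s := l * (2 * D)) (len := q' + 1) le_rfl (by omega))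
          (Seg.cons le_rfl (hA _ (by omega))) hρ (by simp; omega)
        simp only [List.length_range', List.length_cons] at h
        exact (h.mpr hP').symm
    · intro k hk hadj
      have e2 := pos_lt (D := D) hk
      refine 𝓗.hcol (k * (2 * D)) (List.range' (T * (2 * D)) a ++ List.range' (n - r) r)
        (List.range' (k * (2 * D) + 1) q' ++ List.range' (n - r) r) ?_ ?_ ?_
      · exact Seg.cons (Nat.zero_le _) ((hA _ (by omega)).append hρ)
      · refine Seg.cons (Nat.zero_le _) (Seg.append (mid := n - r) ?_ hρ)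
        exact seg_range'_of le_rfl (by omega)
      · rw [List.range'_succ] at hadj
        simpa using hadj
    · intro k l hkl hl hadj
      have e1 := pos_lt (D := D) hkl
      have e2 := pos_lt (D := D) hl
      have h := 𝓗.adj_iff (m0 := k * (2 * D)) (m1 := l * (2 * D)) (m2 := T * (2 * D))
        (α := [k * (2 * D)]) (β := [l * (2 * D)])
        (ρ := List.range' (T * (2 * D)) a ++ List.range' (n - r) r)
        (Seg.cons le_rfl (by simp only [Seg]; omega)) (Seg.cons le_rfl (by simp only [Seg]; omega))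
        ((hA _ le_rfl).append hρ) (by simp; omega)
      simp only [List.length_range', List.length_cons, List.length_append, List.length_nil] at h
      exact 𝓗.N1 (by omega) hK (le_refl 1) (by omega) (h.mp hadj)
    · intro k l hkl hl hadj
      have e1 := pos_lt (D := D) hkl
      have e2 := pos_lt (D := D) hl
      have h := 𝓗.adj_iff (m0 := k * (2 * D)) (m1 := l * (2 * D)) (m2 := n - r)
        (seg_range'_of (lo := k * (2 * D)) (s := k * (2 * D)) (len := q' + 1) le_rfl (by omega))
        (seg_range'_of (s := l * (2 * D)) (len := q' + 1) le_rfl (by omega)) hρ (by simp; omega)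
      simp only [List.length_range'] at h
      exact 𝓗.N1 (by omega) hK hq hqr (h.mp hadj)
  · apply hH
    have e3 := pos_lt (D := D) (show T < T + 1 by omega)
    have e4 := pos_lt (D := D) (show T + 1 < T + 2 by omega)
    refine hasHalf_of (fun k => 𝓗.c (0 ::
        (List.range' (k * (2 * D) + 1) a ++ List.range' (n - r) r)))
      (fun k => 𝓗.c (List.range' (k * (2 * D) + 1 + D) q ++ List.range' (n - r) r)) ?_ ?_ ?_ ?_
    · intro k l hk hl hkl
      have e1 : k * (2 * D) ≤ l * (2 * D) := Nat.mul_le_mul_right _ hkl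
      have e2 := pos_lt (D := D) hl
      have h := 𝓗.adj_iff (m0 := 0) (m1 := l * (2 * D) + 1 + D) (m2 := n - r)
        (α := 0 :: List.range' (k * (2 * D) + 1) a)
        (β := List.range' (l * (2 * D) + 1 + D) q)
        (Seg.cons le_rfl (seg_range'_of (by omega) (by omega)))
        (seg_range'_of le_rfl (by omega)) hρ (by simp; omega)
      simp only [List.length_range', List.length_cons] at h
      exact h.mpr hP
    · intro k l hk hl hlk hadj
      have e1 := pos_lt (D := D) hlk
      have e2 := pos_lt (D := D) hk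
      have h := 𝓗.adjZ_iff (i := 0) (m0 := l * (2 * D) + 1 + D) (m1 := k * (2 * D) + 1)
        (m2 := n - r) (by omega)
        (seg_range'_of (s := l * (2 * D) + 1 + D) (len := q) le_rfl (by omega))
        (seg_range'_of (s := k * (2 * D) + 1) (len := a) le_rfl (by omega)) hρ (by simp; omega)
      simp only [List.length_range'] at h
      exact hZ (h.mp hadj)
    · intro k l hkl hl hadj
      have e1 := pos_lt (D := D) hkl
      have e2 := pos_lt (D := D) hl
      refine 𝓗.hcol 0 _ _ ?_ ?_ hadj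
      · refine Seg.cons le_rfl (Seg.append (mid := n - r) (seg_range'_of (by omega) (by omega)) hρ)
      · refine Seg.cons le_rfl (Seg.append (mid := n - r) (seg_range'_of (by omega) (by omega)) hρ)
    · intro k l hkl hl hadj
      have e1 := pos_lt (D := D) hkl
      have e2 := pos_lt (D := D) hl
      have h := 𝓗.adj_iff (m0 := k * (2 * D) + 1 + D) (m1 := l * (2 * D) + 1 + D) (m2 := n - r)
        (seg_range'_of (s := k * (2 * D) + 1 + D) (len := q) le_rfl (by omega))
        (seg_range'_of (s := l * (2 * D) + 1 + D) (len := q) le_rfl (by omega)) hρ (by simp; omega)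
      simp only [List.length_range'] at h
      exact 𝓗.N1 (by omega) hK hq hqr (h.mp hadj)

/-- Lemma N: incomparable lists give non-adjacent vertices. -/
theorem Hom.N (𝓗 : Hom H n D) (hn : (T + 2) * (2 * D) + 1 ≤ n) (hK : ¬ HasClique H T)
    (hH : ¬ HasHalfGraph H T) (hC : ¬ HasCrown H T)
    {p q r : ℕ} (hp : 1 ≤ p) (hq : 1 ≤ q) (hpr : p + r ≤ D) (hqr : q + r ≤ D) :
    ¬ 𝓗.P p q r := by
  intro hP
  have hP' := 𝓗.N2 (by omega) hK hH hp hq hpr hqr hP
  by_cases hpq : p = q
  · subst hpq
    exact 𝓗.N1 (by omega) hK hp hpr hP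
  · by_cases h2 : 2 ≤ p
    · obtain ⟨a, rfl⟩ : ∃ a, p = a + 1 := ⟨p - 1, by omega⟩
      exact 𝓗.N3 hn hK hH hC (by omega) hq hpr hqr hP hP'
    · obtain ⟨a, rfl⟩ : ∃ a, q = a + 1 := ⟨q - 1, by omega⟩
      exact 𝓗.N3 hn hK hH hC (by omega) hp hqr hpr hP' hP

/-- incomparable lists give non-adjacent vertices, geometric form -/
theorem Hom.not_adj (𝓗 : Hom H n D) (hn : (T + 2) * (2 * D) + 1 ≤ n) (hK : ¬ HasClique H T)
    (hH : ¬ HasHalfGraph H T) (hC : ¬ HasCrown H T) {m0 m1 m2 : ℕ} {α β ρ : List ℕ}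
    (hα : Seg m0 m1 α) (hβ : Seg m1 m2 β) (hρ : Seg m2 n ρ) (ha : 1 ≤ α.length)
    (hb : 1 ≤ β.length) (hal : α.length + ρ.length ≤ D) (hbl : β.length + ρ.length ≤ D) :
    ¬ H.Adj (𝓗.c (α ++ ρ)) (𝓗.c (β ++ ρ)) := by
  rw [𝓗.adj_iff hα hβ hρ (by omega)]
  exact 𝓗.N hn hK hH hC ha hb hal hbl

end H7.Online
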