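import Pool.Agent.H7.Online.Defs

/-!
Connected sets of vertices, induced paths and the merging rank.
-/

namespace H7.Online

/-- `H` contains an induced path with `n` vertices. -/
def HasPath {V : Type} (H : SimpleGraph V) (n : ℕ) : Prop :=
  ∃ p : Fin n → V, Function.Injective p ∧
    ∀ i j : Fin n, H.Adj (p i) (p j) ↔ ((i : ℕ) + 1 = j ∨ (j : ℕ) + 1 = i)

/-- the set `s` is nonempty and induces a connected subgraph of `G` -/
def Conn {V : Type} (G : SimpleGraph V) (s : Set V) : Prop :=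
  s.Nonempty ∧ ∀ a ∈ s, ∀ b ∈ s, Relation.ReflTransGen (fun u v => G.Adj u v ∧ v ∈ s) a b

/-- `x` has a neighbour in `s` -/
def Touch {V : Type} (G : SimpleGraph V) (x : V) (s : Set V) : Prop := ∃ y ∈ s, G.Adj x y

/-- the sets `s` and `t` are disjoint and there is no edge between them -/
def Anti {V : Type} (G : SimpleGraph V) (s t : Set V) : Prop :=
  ∀ a ∈ s, ∀ b ∈ t, a ≠ b ∧ ¬ G.Adj a b

/-- the merging rank of the connected set `s` is at least `r` -/
def Rk {V : Type} (G : SimpleGraph V) : ℕ → Set V → Prop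
  | 0, s => Conn G s
  | r + 1, s => Conn G s ∧ ∃ s1 s2 : Set V, s1 ⊆ s ∧ s2 ⊆ s ∧ Anti G s1 s2 ∧ Rk G r s1 ∧ Rk G r s2

end H7.Online
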