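import Pool.Agent.H7.Online.RankMain
import Pool.Agent.H7.Online.Contracted

/-!
The merging rank is bounded in graphs without long induced paths, large half graphs and large
cliques.
-/

namespace H7.Online

theorem rankBdd : RankBdd := by
  intro n t k
  obtain ⟨M, hM⟩ := contracted n t k
  obtain ⟨R, hR⟩ := chain n M 0
  refine ⟨R, fun V G D hD => ?_⟩
  by_cases hn : HasPath G n
  · exact Or.inl hn
  · obtain ⟨x, O, h1, h2, h3, h4, h5, h6⟩ := hR V G D hn hD
    exact hM V G x O (fun j hj => (h1 j hj).2.2) h2 h3 h4 h5 h6

end H7.Online
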