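import Pool.Agent.H7.Online.Tree
import Pool.Agent.H7.Online.Lower
import Pool.Agent.H7.Online.FF

/-!
First-Fit on graphs without large induced half graphs and crowns (helper form).
-/

namespace H7.Online

theorem firstFit_stable (t k : ℕ) : ∃ N : ℕ, ∀ (m : ℕ) (H : SimpleGraph (Fin m)),
      ¬ HasHalfGraph H t → ¬ HasCrown H t →
      (∃ B : ℕ → SimpleGraph ℕ → ℕ, IsOnline B ∧ UsesAtMost B H k) →
      UsesAtMost firstFit H N := by
  classical
  obtain ⟨N, hN⟩ := tree_embed (max t (k + 1)) (Sz (k + 1) + 1) (Sz (k + 1) + 1)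
  refine ⟨N, fun m H hH hC hB G σ hσ => ?_⟩
  obtain ⟨B, hB1, hB2⟩ := hB
  by_contra hcon
  push Not at hcon
  have hbig : ∃ i < m, N ≤ firstFit i G := by
    by_contra hno
    push Not at hno
    have h1 : (Finset.range m).image (fun i => firstFit i G) ⊆ Finset.range N := by
      intro c hc
      rw [Finset.mem_image] at hc
      obtain ⟨i, hi, rfl⟩ := hc
      rw [Finset.mem_range] at hi ⊢
      exact hno i hi
    have h2 := Finset.card_le_card h1
    rw [Finset.card_range] at h2
    omega
  obtain ⟨i, hi, hNi⟩ := hbig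
  have hg := grundy_of_presents hσ
  obtain ⟨e, he⟩ := hN (Fin m) H _ hg (σ ⟨i, hi⟩) (by simpa using hNi)
    (fun h => no_clique_of_usesAtMost hB1 hB2 (h.mono (le_max_right _ _)))
    (fun h => hH (h.mono (le_max_left _ _)))
    (fun h => hC (h.mono (le_max_left _ _)))
  exact no_tree_of_usesAtMost hB1 hB2 e he

end H7.Online
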